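import Mathlib

namespace Pool.Agent.H297R2

open Finset

/-- Finite sets of large primes with large reciprocal sum. -/
theorem exists_primes (M : ℝ) (y : ℕ) : ∃ P : Finset ℕ, (∀ p ∈ P, p.Prime ∧ y < p) ∧
    M ≤ ∑ p ∈ P, (1 : ℝ) / p := by
  by_contra hcon
  push Not at hcon
  apply not_summable_one_div_on_primes
  -- bounded partial sums
  apply summable_of_sum_le (c := M + ∑ n ∈ range (y + 1), (1 : ℝ) / n)
  · intro n
    simp only [Set.indicator]
    split_ifs
    · positivity
    · exact le_rfl
  · intro u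
    classical
    have h1 : ∑ n ∈ u, Set.indicator {p : ℕ | p.Prime} (fun n : ℕ => (1 : ℝ) / n) n ≤
        ∑ n ∈ u.filter (fun n => n.Prime ∧ y < n), (1 : ℝ) / n +
          ∑ n ∈ range (y + 1), (1 : ℝ) / n := by
      rw [Finset.sum_filter]
      have h2 : ∑ n ∈ u, (if n < y + 1 then (1 : ℝ) / n else 0) ≤ ∑ n ∈ range (y + 1), (1 : ℝ) / n := by
        rw [← Finset.sum_filter]
        apply Finset.sum_le_sum_of_subset_of_nonneg
        · intro n hn
          rw [Finset.mem_filter] at hn
          rw [Finset.mem_range]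
          exact hn.2
        · intro n _ _
          positivity
      refine le_trans ?_ (add_le_add_right h2 _)
      rw [← Finset.sum_add_distrib]
      apply Finset.sum_le_sum
      intro n _
      simp only [Set.indicator, Set.mem_ofPred_eq]
      have hpos : (0 : ℝ) ≤ 1 / n := by positivity
      by_cases hn : n.Prime
      · by_cases hy : y < n
        · simp [hn, hy, show ¬ n < y + 1 by omega]
        · simp [hn, hy, show n < y + 1 by omega]
      · simp only [hn, if_false, false_and]
        split_ifs <;> linarith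
    have h3 := hcon (u.filter (fun n => n.Prime ∧ y < n)) (by
      intro p hp
      rw [Finset.mem_filter] at hp
      exact hp.2)
    linarith

theorem one_step (δ : ℝ) (hδ : 0 < δ) (y : ℕ) : ∃ (P : Finset ℕ) (δ' : ℝ) (x₀ : ℕ), 0 < δ' ∧
    (∀ p ∈ P, p.Prime ∧ y < p) ∧ ∀ x ≥ x₀, ∀ A : Finset ℕ, A ⊆ Ioc 0 x → δ * x ≤ A.card →
      ∃ p ∈ P, ∃ q ∈ P, p ≠ q ∧
        δ' * x ≤ ((Ioc 0 x).filter (fun m => p * m ∈ A ∧ q * m ∈ A)).card := by
  classical
  obtain ⟨P, hP, hM⟩ := exists_primes (16 / δ ^ 2) y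
  set μ : ℝ := ∑ p ∈ P, (1 : ℝ) / p with hμ
  set k := P.card with hk
  have hμ0 : 0 < μ := lt_of_lt_of_le (by positivity) hM
  have hk0 : 0 < k := by
    rw [hk, Finset.card_pos]
    by_contra h
    rw [Finset.not_nonempty_iff_eq_empty] at h
    rw [hμ, h, Finset.sum_empty] at hμ0
    exact lt_irrefl _ hμ0
  have hkr : (0 : ℝ) < k := by exact_mod_cast hk0
  have hμδ : 16 ≤ δ ^ 2 * μ := by
    rw [div_le_iff₀ (by positivity)] at hM
    linarith
  refine ⟨P, μ / k ^ 2, 2 * k + 1, by positivity, hP, ?_⟩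
  intro x hx A hA hcard
  have hx0 : (0 : ℝ) < x := by exact_mod_cast (by omega : 0 < x)
  have hxk : 2 * (k : ℝ) ≤ x := by exact_mod_cast (by omega : 2 * k ≤ x)
  have hdiv : ∀ p, ∑ n ∈ Ioc 0 x, (if p ∣ n then (1 : ℝ) else 0) = ((x / p : ℕ) : ℝ) := by
    intro p
    rw [← Finset.sum_filter, Finset.sum_const, nsmul_eq_mul, mul_one, Nat.Ioc_filter_dvd_card_eq_div]
  set ω : ℕ → ℝ := fun n => ∑ p ∈ P, (if p ∣ n then (1 : ℝ) else 0) with hω
  -- first moment
  have hm1 : μ * x - k ≤ ∑ n ∈ Ioc 0 x, ω n := by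
    rw [hω, Finset.sum_comm]
    simp only [hdiv]
    rw [hμ, Finset.sum_mul, hk, Finset.card_eq_sum_ones]
    push_cast
    rw [← Finset.sum_sub_distrib]
    apply Finset.sum_le_sum
    intro p hp
    have hp0 : (0 : ℝ) < p := by exact_mod_cast (hP p hp).1.pos
    have := Nat.lt_div_mul_add (a := x) (hP p hp).1.pos
    have h2 : (x : ℝ) < (x / p : ℕ) * p + p := by exact_mod_cast this
    rw [one_div, sub_le_iff_le_add, inv_mul_le_iff₀ hp0]
    nlinarith
  -- second moment
  have hm2 : ∑ n ∈ Ioc 0 x, ω n ^ 2 ≤ μ ^ 2 * x + μ * x := by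
    have e1 : ∀ n, ω n ^ 2 = ∑ p ∈ P, ∑ q ∈ P, (if p ∣ n ∧ q ∣ n then (1 : ℝ) else 0) := by
      intro n
      rw [hω, sq, Finset.sum_mul_sum]
      apply Finset.sum_congr rfl
      intro p _
      apply Finset.sum_congr rfl
      intro q _
      by_cases h1 : p ∣ n <;> by_cases h2 : q ∣ n <;> simp [h1, h2]
    simp only [e1]
    rw [Finset.sum_comm]
    have e2 : ∀ p ∈ P, ∑ n ∈ Ioc 0 x, ∑ q ∈ P, (if p ∣ n ∧ q ∣ n then (1 : ℝ) else 0) ≤
        (1 / p) * μ * x + (1 / p) * x := by
      intro p hp
      have hp0 : (0 : ℝ) < p := by exact_mod_cast (hP p hp).1.pos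
      rw [Finset.sum_comm]
      have e3 : ∀ q ∈ P, ∑ n ∈ Ioc 0 x, (if p ∣ n ∧ q ∣ n then (1 : ℝ) else 0) ≤
          (1 / p) * (1 / q) * x + (if q = p then ((1 : ℝ) / p) * x else 0) := by
        intro q hq
        have hq0 : (0 : ℝ) < q := by exact_mod_cast (hP q hq).1.pos
        by_cases hqp : q = p
        · rw [if_pos hqp, hqp]
          simp only [and_self]
          rw [hdiv]
          have h4 : ((x / p : ℕ) : ℝ) ≤ x / p := Nat.cast_div_le
          have h5 : (0 : ℝ) ≤ 1 / p * (1 / p) * x := by positivity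
          calc ((x / p : ℕ) : ℝ) ≤ x / p := h4
            _ = 1 / p * x := by ring
            _ ≤ _ := by linarith
        · rw [if_neg hqp, add_zero]
          have hcop : Nat.Coprime p q := (Nat.coprime_primes (hP p hp).1 (hP q hq).1).2 (fun h => hqp h.symm)
          have h6 : ∀ n, (p ∣ n ∧ q ∣ n) ↔ p * q ∣ n := fun n =>
            ⟨fun h => hcop.mul_dvd_of_dvd_of_dvd h.1 h.2,
              fun h => ⟨(dvd_mul_right _ _).trans h, (dvd_mul_left _ _).trans h⟩⟩
          simp only [h6]
          rw [hdiv]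
          calc ((x / (p * q) : ℕ) : ℝ) ≤ (x : ℝ) / ((p * q : ℕ) : ℝ) := Nat.cast_div_le
            _ = 1 / p * (1 / q) * x := by push_cast; field_simp
      refine (Finset.sum_le_sum e3).trans ?_
      rw [Finset.sum_add_distrib, Finset.sum_ite_eq' P p, if_pos hp, ← Finset.sum_mul, ← Finset.mul_sum]
    refine (Finset.sum_le_sum e2).trans ?_
    rw [Finset.sum_add_distrib, ← Finset.sum_mul, ← Finset.sum_mul, ← Finset.sum_mul, ← hμ]
    apply le_of_eq
    ring
  -- variance
  have hV : ∑ n ∈ Ioc 0 x, (ω n - μ) ^ 2 ≤ 2 * μ * x := by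
    have e1 : ∑ n ∈ Ioc 0 x, (ω n - μ) ^ 2 = ∑ n ∈ Ioc 0 x, ω n ^ 2 -
        2 * μ * ∑ n ∈ Ioc 0 x, ω n + μ ^ 2 * x := by
      rw [Finset.mul_sum, ← Finset.sum_sub_distrib]
      have : μ ^ 2 * (x : ℝ) = ∑ _n ∈ Ioc 0 x, μ ^ 2 := by simp [mul_comm]
      rw [this, ← Finset.sum_add_distrib]
      apply Finset.sum_congr rfl
      intro n _
      ring
    rw [e1]
    nlinarith
  have hAx : (A.card : ℝ) ≤ x := by
    have := Finset.card_le_card hA
    rw [Nat.card_Ioc] at this
    exact_mod_cast this
  -- the sum over A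
  have hA1 : δ / 2 * μ * x ≤ ∑ n ∈ A, ω n := by
    by_contra hcon
    push Not at hcon
    have h1 : ∑ n ∈ A, (μ - ω n) = A.card * μ - ∑ n ∈ A, ω n := by
      rw [Finset.sum_sub_distrib]; simp
    have h2 : δ / 2 * μ * x < ∑ n ∈ A, (μ - ω n) := by
      rw [h1]
      nlinarith
    have h3 : (∑ n ∈ A, (μ - ω n)) ^ 2 ≤ A.card * ∑ n ∈ A, (μ - ω n) ^ 2 := sq_sum_le_card_mul_sum_sq
    have h4 : ∑ n ∈ A, (μ - ω n) ^ 2 ≤ 2 * μ * x := by
      refine le_trans ?_ hV
      calc ∑ n ∈ A, (μ - ω n) ^ 2 = ∑ n ∈ A, (ω n - μ) ^ 2 := by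
            apply Finset.sum_congr rfl; intro n _; ring
        _ ≤ _ := Finset.sum_le_sum_of_subset_of_nonneg hA (fun n _ _ => sq_nonneg _)
    have h5 : (δ / 2 * μ * x) ^ 2 < (∑ n ∈ A, (μ - ω n)) ^ 2 := by
      apply pow_lt_pow_left₀ h2 (by positivity) (by norm_num)
    have h6 : (A.card : ℝ) * ∑ n ∈ A, (μ - ω n) ^ 2 ≤ x * (2 * μ * x) := by
      apply mul_le_mul hAx h4 (Finset.sum_nonneg (fun n _ => sq_nonneg _)) hx0.le
    have h7 : (δ / 2 * μ * x) ^ 2 < x * (2 * μ * x) := h5.trans_le (h3.trans h6)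
    have h8 : (δ / 2 * μ * x) ^ 2 = (δ ^ 2 * μ) * (μ * x ^ 2) / 4 := by ring
    rw [h8] at h7
    have h9 : 0 < μ * (x : ℝ) ^ 2 := by positivity
    nlinarith
  -- double counting
  set f : ℕ → ℝ := fun m => ∑ p ∈ P, (if p * m ∈ A then (1 : ℝ) else 0) with hf
  have hbij : ∀ p ∈ P, ∑ m ∈ Ioc 0 x, (if p * m ∈ A then (1 : ℝ) else 0) =
      ∑ n ∈ A, (if p ∣ n then (1 : ℝ) else 0) := by
    intro p hp
    have hp0 := (hP p hp).1.pos
    rw [← Finset.sum_filter, ← Finset.sum_filter]
    apply Finset.sum_bij (fun m _ => p * m)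
    · intro m hm
      rw [Finset.mem_filter] at hm ⊢
      exact ⟨hm.2, dvd_mul_right _ _⟩
    · intro m _ m' _ h
      exact Nat.eq_of_mul_eq_mul_left hp0 h
    · intro n hn
      rw [Finset.mem_filter] at hn
      obtain ⟨m, rfl⟩ := hn.2
      have h1 := hA hn.1
      rw [Finset.mem_Ioc] at h1
      refine ⟨m, ?_, rfl⟩
      rw [Finset.mem_filter, Finset.mem_Ioc]
      refine ⟨⟨?_, ?_⟩, hn.1⟩
      · rcases Nat.eq_zero_or_pos m with h | h
        · subst h; simp at h1
        · exact h
      · calc m = 1 * m := (one_mul m).symm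
          _ ≤ p * m := Nat.mul_le_mul_right m hp0
          _ ≤ x := h1.2
    · intro m _; rfl
  have hfsum : ∑ m ∈ Ioc 0 x, f m = ∑ n ∈ A, ω n := by
    rw [hf, hω, Finset.sum_comm, Finset.sum_comm (s := A)]
    exact Finset.sum_congr rfl hbij
  have hCS : (∑ m ∈ Ioc 0 x, f m) ^ 2 ≤ x * ∑ m ∈ Ioc 0 x, f m ^ 2 := by
    have := sq_sum_le_card_mul_sum_sq (s := Ioc 0 x) (f := f)
    simpa using this
  set c : ℕ → ℕ → ℝ := fun p q => ∑ m ∈ Ioc 0 x, (if p * m ∈ A ∧ q * m ∈ A then (1 : ℝ) else 0) with hc
  have hf2 : ∑ m ∈ Ioc 0 x, f m ^ 2 = ∑ p ∈ P, ∑ q ∈ P, c p q := by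
    have e1 : ∀ m, f m ^ 2 = ∑ p ∈ P, ∑ q ∈ P, (if p * m ∈ A ∧ q * m ∈ A then (1 : ℝ) else 0) := by
      intro m
      rw [hf, sq, Finset.sum_mul_sum]
      apply Finset.sum_congr rfl
      intro p _
      apply Finset.sum_congr rfl
      intro q _
      by_cases h1 : p * m ∈ A <;> by_cases h2 : q * m ∈ A <;> simp [h1, h2]
    simp only [e1]
    rw [Finset.sum_comm]
    apply Finset.sum_congr rfl
    intro p _
    rw [Finset.sum_comm]
  have hdiag : ∑ p ∈ P, c p p ≤ μ * x := by
    rw [hμ, Finset.sum_mul]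
    apply Finset.sum_le_sum
    intro p hp
    rw [hc]
    simp only [and_self]
    rw [hbij p hp]
    calc ∑ n ∈ A, (if p ∣ n then (1 : ℝ) else 0) ≤ ∑ n ∈ Ioc 0 x, (if p ∣ n then (1 : ℝ) else 0) := by
          apply Finset.sum_le_sum_of_subset_of_nonneg hA
          intro n _ _
          split_ifs <;> norm_num
      _ = ((x / p : ℕ) : ℝ) := hdiv p
      _ ≤ x / p := Nat.cast_div_le
      _ = 1 / p * x := by ring
  -- conclusion
  by_contra hcon
  push Not at hcon
  have hoff : ∀ p ∈ P, ∀ q ∈ P, c p q ≤ (if q = p then c p p else μ / k ^ 2 * x) := by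
    intro p hp q hq
    by_cases hqp : q = p
    · rw [if_pos hqp, hqp]
    · rw [if_neg hqp]
      have h1 := hcon p hp q hq (fun h => hqp h.symm)
      rw [hc]
      simp only
      rw [← Finset.sum_filter, Finset.sum_const, nsmul_eq_mul, mul_one]
      exact h1.le
  have hsum : ∑ p ∈ P, ∑ q ∈ P, c p q ≤ μ * x + μ * x := by
    calc ∑ p ∈ P, ∑ q ∈ P, c p q ≤ ∑ p ∈ P, ∑ q ∈ P, (if q = p then c p p else μ / k ^ 2 * x) :=
          Finset.sum_le_sum (fun p hp => Finset.sum_le_sum (fun q hq => hoff p hp q hq))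
      _ ≤ ∑ p ∈ P, (c p p + k * (μ / k ^ 2 * x)) := by
          apply Finset.sum_le_sum
          intro p hp
          have h0 : (0 : ℝ) ≤ μ / k ^ 2 * x := by positivity
          calc ∑ q ∈ P, (if q = p then c p p else μ / k ^ 2 * x)
              ≤ ∑ q ∈ P, ((if q = p then c p p else 0) + μ / k ^ 2 * x) := by
                apply Finset.sum_le_sum
                intro q _
                split_ifs <;> linarith
            _ = c p p + k * (μ / k ^ 2 * x) := by
                rw [Finset.sum_add_distrib, Finset.sum_ite_eq' P p, if_pos hp, Finset.sum_const,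
                  nsmul_eq_mul]
      _ = ∑ p ∈ P, c p p + k * (k * (μ / k ^ 2 * x)) := by
          rw [Finset.sum_add_distrib, Finset.sum_const, nsmul_eq_mul]
      _ = ∑ p ∈ P, c p p + μ * x := by
          congr 1
          field_simp
      _ ≤ _ := by linarith
  rw [hf2] at hCS
  rw [hfsum] at hCS
  have h1 : (δ / 2 * μ * x) ^ 2 ≤ x * (μ * x + μ * x) := by
    calc (δ / 2 * μ * x) ^ 2 ≤ (∑ n ∈ A, ω n) ^ 2 := pow_le_pow_left₀ (by positivity) hA1 _
      _ ≤ _ := hCS
      _ ≤ _ := by gcongr
  have h2 : (δ / 2 * μ * x) ^ 2 = (δ ^ 2 * μ) * (μ * x ^ 2) / 4 := by ring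
  rw [h2] at h1
  have h3 : 0 < μ * (x : ℝ) ^ 2 := by positivity
  nlinarith

/-- **Multiplicative cubes in dense sets.** -/
theorem dense_cube (r : ℕ) : ∀ (δ : ℝ), 0 < δ → ∀ y : ℕ, ∃ x₀ : ℕ, ∀ x ≥ x₀, ∀ A : Finset ℕ,
    A ⊆ Ioc 0 x → δ * x ≤ A.card → ∃ (a : ℕ) (p q : Fin r → ℕ), 0 < a ∧
      (∀ i, (p i).Prime ∧ y < p i) ∧ (∀ i, (q i).Prime ∧ y < q i) ∧
      Function.Injective (Sum.elim p q) ∧
      ∀ S : Finset (Fin r), a * ∏ i, (if i ∈ S then q i else p i) ∈ A := by
  classical
  induction r with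
  | zero =>
    intro δ hδ y
    refine ⟨1, fun x hx A hA hcard => ?_⟩
    have hx0 : (0 : ℝ) < x := by exact_mod_cast (by omega : 0 < x)
    have h1 : (0 : ℝ) < A.card := lt_of_lt_of_le (by positivity) hcard
    obtain ⟨a, ha⟩ := Finset.card_pos.1 (by exact_mod_cast h1 : 0 < A.card)
    have ha' := hA ha
    rw [Finset.mem_Ioc] at ha'
    refine ⟨a, Fin.elim0, Fin.elim0, ha'.1, fun i => i.elim0, fun i => i.elim0, ?_, ?_⟩
    · intro i; rcases i with i | i <;> exact i.elim0
    · intro S; simpa using ha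
  | succ r ih =>
    intro δ hδ y
    obtain ⟨P, δ', x₁, hδ', hP, hstep⟩ := one_step δ hδ y
    obtain ⟨x₂, hx₂⟩ := ih δ' hδ' (P.sup id + y)
    refine ⟨max x₁ x₂, fun x hx A hA hcard => ?_⟩
    obtain ⟨p, hp, q, hq, hpq, hB⟩ := hstep x (le_trans (le_max_left _ _) hx) A hA hcard
    obtain ⟨a, p', q', ha, hp', hq', hinj, hcube⟩ := hx₂ x (le_trans (le_max_right _ _) hx) _
      (Finset.filter_subset _ _) hB
    have hple : ∀ p ∈ P, p ≤ P.sup id + y := fun p hp =>
      (Finset.le_sup (f := id) hp).trans (Nat.le_add_right _ _)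
    refine ⟨a, Fin.cons p p', Fin.cons q q', ha, ?_, ?_, ?_, ?_⟩
    · intro i
      refine Fin.cases (hP p hp) (fun i => ?_) i
      exact ⟨(hp' i).1, by have := (hp' i).2; simp only [Fin.cons_succ]; omega⟩
    · intro i
      refine Fin.cases (hP q hq) (fun i => ?_) i
      exact ⟨(hq' i).1, by have := (hq' i).2; simp only [Fin.cons_succ]; omega⟩
    · have hpl := hple p hp
      have hql := hple q hq
      intro i j hij
      rcases i with i | i <;> rcases j with j | j <;> simp only [Sum.elim_inl, Sum.elim_inr] at hij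
      · refine congrArg Sum.inl ?_
        induction i using Fin.cases with
        | zero =>
          induction j using Fin.cases with
          | zero => rfl
          | succ j =>
            simp only [Fin.cons_zero, Fin.cons_succ] at hij
            have := (hp' j).2; omega
        | succ i =>
          induction j using Fin.cases with
          | zero =>
            simp only [Fin.cons_zero, Fin.cons_succ] at hij
            have := (hp' i).2; omega
          | succ j =>
            simp only [Fin.cons_succ] at hij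
            have := hinj (a₁ := Sum.inl i) (a₂ := Sum.inl j) hij
            rw [Sum.inl.inj this]
      · exfalso
        induction i using Fin.cases with
        | zero =>
          induction j using Fin.cases with
          | zero => simp only [Fin.cons_zero] at hij; exact hpq hij
          | succ j =>
            simp only [Fin.cons_zero, Fin.cons_succ] at hij
            have := (hq' j).2; omega
        | succ i =>
          induction j using Fin.cases with
          | zero =>
            simp only [Fin.cons_zero, Fin.cons_succ] at hij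
            have := (hp' i).2; omega
          | succ j =>
            simp only [Fin.cons_succ] at hij
            have := hinj (a₁ := Sum.inl i) (a₂ := Sum.inr j) hij
            exact absurd this (by simp)
      · exfalso
        induction i using Fin.cases with
        | zero =>
          induction j using Fin.cases with
          | zero => simp only [Fin.cons_zero] at hij; exact hpq hij.symm
          | succ j =>
            simp only [Fin.cons_zero, Fin.cons_succ] at hij
            have := (hp' j).2; omega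
        | succ i =>
          induction j using Fin.cases with
          | zero =>
            simp only [Fin.cons_zero, Fin.cons_succ] at hij
            have := (hq' i).2; omega
          | succ j =>
            simp only [Fin.cons_succ] at hij
            have := hinj (a₁ := Sum.inr i) (a₂ := Sum.inl j) hij
            exact absurd this (by simp)
      · refine congrArg Sum.inr ?_
        induction i using Fin.cases with
        | zero =>
          induction j using Fin.cases with
          | zero => rfl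
          | succ j =>
            simp only [Fin.cons_zero, Fin.cons_succ] at hij
            have := (hq' j).2; omega
        | succ i =>
          induction j using Fin.cases with
          | zero =>
            simp only [Fin.cons_zero, Fin.cons_succ] at hij
            have := (hq' i).2; omega
          | succ j =>
            simp only [Fin.cons_succ] at hij
            have := hinj (a₁ := Sum.inr i) (a₂ := Sum.inr j) hij
            rw [Sum.inr.inj this]
    · intro S
      have h1 := hcube (univ.filter (fun i : Fin r => i.succ ∈ S))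
      rw [Finset.mem_filter] at h1
      rw [Fin.prod_univ_succ]
      simp only [Fin.cons_zero, Fin.cons_succ]
      have h2 : ∏ i : Fin r, (if i.succ ∈ S then q' i else p' i) =
          ∏ i : Fin r, (if i ∈ univ.filter (fun i : Fin r => i.succ ∈ S) then q' i else p' i) := by
        apply Finset.prod_congr rfl
        intro i _
        simp
      rw [h2]
      by_cases h0 : (0 : Fin (r + 1)) ∈ S
      · rw [if_pos h0]
        have := h1.2.2
        rw [← mul_assoc, mul_comm a, mul_assoc]
        exact this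
      · rw [if_neg h0]
        have := h1.2.1
        rw [← mul_assoc, mul_comm a, mul_assoc]
        exact this

end Pool.Agent.H297R2
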