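import Mathlib

namespace Pool.Agent.H297R2

open Complex

/-- Division of an entire function by `(z - c) ^ s`. -/
theorem exists_factor_pow (c : ℂ) (s : ℕ) : ∀ f : ℂ → ℂ, Differentiable ℂ f →
    (s : ℕ∞) ≤ analyticOrderAt f c →
    ∃ g : ℂ → ℂ, Differentiable ℂ g ∧ ∀ z, f z = (z - c) ^ s * g z := by
  induction s with
  | zero => intro f hf _; exact ⟨f, hf, by simp⟩
  | succ s ih =>
    intro f hf hs
    have hfa : AnalyticAt ℂ f c := hf.analyticAt c
    have hfc : f c = 0 := by
      apply apply_eq_zero_of_analyticOrderAt_ne_zero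
      intro h
      rw [h] at hs
      simp at hs
    have hg : Differentiable ℂ (dslope f c) := by
      intro z
      exact (differentiableOn_dslope (s := Set.univ) (by simp)).2 hf.differentiableOn z (Set.mem_univ _) |>.differentiableAt (by simp)
    have hfg : ∀ z, f z = (z - c) * dslope f c z := by
      intro z
      have := sub_smul_dslope f c z
      rw [hfc, sub_zero, smul_eq_mul] at this
      exact this.symm
    have hga : AnalyticAt ℂ (dslope f c) c := hg.analyticAt c
    have hord : analyticOrderAt f c = 1 + analyticOrderAt (dslope f c) c := by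
      have h1 : f = (fun z => z - c) * dslope f c := by
        funext z; rw [Pi.mul_apply]; exact hfg z
      conv_lhs => rw [h1]
      rw [analyticOrderAt_mul (by fun_prop) hga]
      congr 1
      have := analyticOrderAt_id_sub_const_self (𝕜 := ℂ) (c := c)
      simpa using this
    have hs' : (s : ℕ∞) ≤ analyticOrderAt (dslope f c) c := by
      rw [hord, add_comm (1 : ℕ∞)] at hs
      push_cast at hs
      exact (ENat.add_le_add_iff_right (by simp)).1 hs
    obtain ⟨g, hg1, hg2⟩ := ih _ hg hs'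
    refine ⟨g, hg1, fun z => ?_⟩
    rw [hfg z, hg2 z]
    ring

theorem exists_factor (s : ℕ) (Z : Finset ℂ) : ∀ f : ℂ → ℂ, Differentiable ℂ f →
    (∀ c ∈ Z, (s : ℕ∞) ≤ analyticOrderAt f c) →
    ∃ g : ℂ → ℂ, Differentiable ℂ g ∧ ∀ z, f z = (∏ c ∈ Z, (z - c) ^ s) * g z := by
  classical
  induction Z using Finset.induction_on with
  | empty => intro f hf _; exact ⟨f, hf, by simp⟩
  | insert c Z hc ih =>
    intro f hf hz
    obtain ⟨g, hg, hfg⟩ := exists_factor_pow c s f hf (hz c (Finset.mem_insert_self _ _))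
    have hz' : ∀ c' ∈ Z, (s : ℕ∞) ≤ analyticOrderAt g c' := by
      intro c' hc'
      have hne : c' ≠ c := by rintro rfl; exact hc hc'
      have h := hz c' (Finset.mem_insert_of_mem hc')
      have h1 : f = (fun z => (z - c) ^ s) * g := by
        funext z; rw [Pi.mul_apply]; exact hfg z
      rw [h1, analyticOrderAt_mul (by fun_prop) (hg.analyticAt c')] at h
      have h0 : analyticOrderAt (fun z => (z - c) ^ s) c' = 0 := by
        rw [analyticOrderAt_eq_zero]
        right
        exact pow_ne_zero _ (sub_ne_zero.2 hne)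
      rwa [h0, zero_add] at h
    obtain ⟨g', hg', hgg'⟩ := ih g hg hz'
    refine ⟨g', hg', fun z => ?_⟩
    rw [hfg, hgg', Finset.prod_insert hc]
    ring

/-- A Schwarz lemma for entire functions with many zeros. -/
theorem schwarz (f : ℂ → ℂ) (hf : Differentiable ℂ f) (s : ℕ) (Z : Finset ℂ)
    (hz : ∀ c ∈ Z, ∀ j < s, iteratedDeriv j f c = 0) (ρ R M δ : ℝ) (hρR : ρ < R) (hρ0 : 0 ≤ R)
    (hZ : ∀ c ∈ Z, ‖c‖ ≤ ρ) (w : ℂ) (hw : ‖w‖ ≤ R) (hwZ : ∀ c ∈ Z, ‖w - c‖ ≤ δ)
    (hM : ∀ z, ‖z‖ = R → ‖f z‖ ≤ M) :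
    ‖f w‖ * (R - ρ) ^ (s * Z.card) ≤ M * δ ^ (s * Z.card) := by
  classical
  obtain ⟨g, hg, hfg⟩ := exists_factor s Z f hf (fun c hc =>
    (natCast_le_analyticOrderAt_iff_iteratedDeriv_eq_zero (hf.analyticAt c)).2
      (fun i hi => hz c hc i hi))
  have hRρ : 0 < R - ρ := by linarith
  have hpow : 0 < (R - ρ) ^ (s * Z.card) := by positivity
  have hM0 : 0 ≤ M := by
    have := hM (R : ℂ) (by simp [abs_of_nonneg hρ0])
    exact (norm_nonneg _).trans this
  -- bound for g on the sphere
  have hgs : ∀ z, ‖z‖ = R → ‖g z‖ ≤ M / (R - ρ) ^ (s * Z.card) := by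
    intro z hzR
    rw [le_div_iff₀ hpow]
    have h1 : (R - ρ) ^ (s * Z.card) ≤ ‖∏ c ∈ Z, (z - c) ^ s‖ := by
      rw [norm_prod]
      calc (R - ρ) ^ (s * Z.card) = ∏ c ∈ Z, (R - ρ) ^ s := by
            rw [Finset.prod_const, pow_mul]
        _ ≤ ∏ c ∈ Z, ‖(z - c) ^ s‖ := by
            apply Finset.prod_le_prod
            · intro c _; positivity
            · intro c hc
              rw [norm_pow]
              apply pow_le_pow_left₀ hRρ.le
              have := norm_sub_norm_le z c
              have h2 := hZ c hc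
              linarith
    calc ‖g z‖ * (R - ρ) ^ (s * Z.card) ≤ ‖g z‖ * ‖∏ c ∈ Z, (z - c) ^ s‖ := by gcongr
      _ = ‖f z‖ := by rw [hfg z, norm_mul, mul_comm]
      _ ≤ M := hM z hzR
  have hgw : ‖g w‖ ≤ M / (R - ρ) ^ (s * Z.card) := by
    rcases eq_or_lt_of_le hρ0 with h0 | h0
    · have : ‖w‖ = R := le_antisymm hw (by rw [← h0]; exact norm_nonneg _)
      exact hgs w this
    · have := Complex.norm_le_of_forall_mem_frontier_norm_le (f := g)
        (U := Metric.ball (0 : ℂ) R) (C := M / (R - ρ) ^ (s * Z.card)) Metric.isBounded_ball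
        hg.diffContOnCl (by
          intro z hz
          rw [frontier_ball _ h0.ne'] at hz
          exact hgs z (by simpa using hz)) (z := w) (by
          rw [closure_ball _ h0.ne']
          simpa using hw)
      exact this
  have h3 : ‖∏ c ∈ Z, (w - c) ^ s‖ ≤ δ ^ (s * Z.card) := by
    rw [norm_prod]
    calc ∏ c ∈ Z, ‖(w - c) ^ s‖ ≤ ∏ c ∈ Z, δ ^ s := by
          apply Finset.prod_le_prod
          · intro c _; positivity
          · intro c hc
            rw [norm_pow]
            exact pow_le_pow_left₀ (norm_nonneg _) (hwZ c hc) _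
      _ = δ ^ (s * Z.card) := by rw [Finset.prod_const, pow_mul]
  calc ‖f w‖ * (R - ρ) ^ (s * Z.card)
      = ‖∏ c ∈ Z, (w - c) ^ s‖ * (‖g w‖ * (R - ρ) ^ (s * Z.card)) := by
        rw [hfg w, norm_mul]; ring
    _ ≤ δ ^ (s * Z.card) * M := by
        apply mul_le_mul h3 _ (by positivity) ((norm_nonneg _).trans h3)
        rwa [le_div_iff₀ hpow] at hgw
    _ = M * δ ^ (s * Z.card) := mul_comm _ _

end Pool.Agent.H297R2
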