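import Mathlib
import Pool.Agent.H297R2.Step

namespace Pool.Agent.H297R2

open NumberField Complex Finset

/-- A family of entire functions closed under differentiation: vanishing of derivatives. -/
theorem family_iteratedDeriv {κ : Type*} [Fintype κ] [DecidableEq κ] (η : κ → ℂ)
    (f : (κ → ℕ) → ℂ → ℂ)
    (hf : ∀ m z, HasDerivAt (f m) (∑ k, η k * f (m + Pi.single k 1) z) z)
    (S : ℕ) (w : ℂ) (hvan : ∀ m : κ → ℕ, ∑ k, m k ≤ S → f m w = 0) (j : ℕ) :
    ∀ m : κ → ℕ, ∑ k, m k + j ≤ S → iteratedDeriv j (f m) w = 0 := by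
  have hdiff : ∀ m, Differentiable ℂ (f m) := fun m z => (hf m z).differentiableAt
  have hcont : ∀ m (n : ℕ), ContDiff ℂ n (f m) := fun m n => (hdiff m).contDiff
  induction j with
  | zero => intro m hm; simpa using hvan m (by omega)
  | succ j ih =>
    intro m hm
    rw [iteratedDeriv_succ']
    have h1 : deriv (f m) = fun z => ∑ k, η k * f (m + Pi.single k 1) z := by
      funext z; exact (hf m z).deriv
    rw [h1]
    rw [iteratedDeriv_fun_sum (fun k _ => ((contDiff_const.mul (hcont _ j)).contDiffAt))]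
    apply Finset.sum_eq_zero
    intro k _
    rw [iteratedDeriv_const_mul_field, ih (m + Pi.single k 1) (by
      have : ∑ i, (m + Pi.single k 1 : κ → ℕ) i = ∑ i, m i + 1 := by
        simp [Pi.add_apply, Finset.sum_add_distrib]
      rw [this]; omega), mul_zero]

/-- Abstract extrapolation step. -/
theorem abs_step {K : Type*} [Field K] [NumberField K] (σ : K →+* ℂ) {κ : Type*} [Fintype κ]
    [DecidableEq κ] (η : κ → ℂ) (f : (κ → ℕ) → ℂ → ℂ)
    (hf : ∀ m z, HasDerivAt (f m) (∑ k, η k * f (m + Pi.single k 1) z) z)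
    (Q : (κ → ℕ) → ℕ → 𝓞 K) (E : ℂ) (hE : E ≠ 0)
    (hQ : ∀ m (l : ℕ), σ (Q m l : K) = E ^ l * f m l) (X Y H : ℝ) (hH0 : 0 ≤ H)
    (hEH : ‖E‖ ≤ Real.exp H) (S1 S2 h h' : ℕ) (hh : h ≤ h')
    (hX : ∀ m : κ → ℕ, ∑ k, m k ≤ S1 → ∀ l ∈ Icc 1 h', house (Q m l : K) ≤ Real.exp X)
    (hY : ∀ m : κ → ℕ, ∑ k, m k ≤ S1 → ∀ z : ℂ, ‖z‖ = 4 * h' → ‖f m z‖ ≤ Real.exp Y)
    (hvan : ∀ m : κ → ℕ, ∑ i, m i ≤ S1 + S2 → ∀ l ∈ Icc 1 h, Q m l = 0)
    (hnum : ((Module.finrank ℚ K : ℝ) - 1) * X + h' * H + Y < h * S2) :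
    ∀ m : κ → ℕ, ∑ i, m i ≤ S1 → ∀ l ∈ Icc 1 h', Q m l = 0 := by
  classical
  intro m hm l hl
  by_contra hQ0
  have hhouse := hX m hm l hl
  rw [Finset.mem_Icc] at hl
  have hl1 : (1 : ℝ) ≤ l := by exact_mod_cast hl.1
  have hl2 : (l : ℝ) ≤ h' := by exact_mod_cast hl.2
  have hh' : (h : ℝ) ≤ h' := by exact_mod_cast hh
  have hh0 : (0 : ℝ) < h' := by linarith
  have hL := liouville σ _ hQ0 _ hhouse
  set Z : Finset ℂ := (Icc 1 h).image (fun r : ℕ => (r : ℂ)) with hZ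
  have hcard : Z.card = h := by
    rw [hZ, Finset.card_image_of_injective _ Nat.cast_injective]
    simp
  have hS := schwarz (f m) (fun z => (hf m z).differentiableAt) S2 Z (by
      intro z hz j hj
      rw [hZ, Finset.mem_image] at hz
      obtain ⟨r, hr, rfl⟩ := hz
      apply family_iteratedDeriv η f hf (S1 + S2) (r : ℂ) _ j m (by omega)
      intro m' hm'
      have h1 := hvan m' hm' r hr
      have h2 := hQ m' r
      rw [h1] at h2
      simp only [map_zero] at h2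
      rcases mul_eq_zero.1 h2.symm with h4 | h4
      · exact absurd h4 (pow_ne_zero _ hE)
      · exact h4)
    h (4 * h') _ h' (by linarith) (by linarith) (by
      intro z hz
      rw [hZ, Finset.mem_image] at hz
      obtain ⟨r, hr, rfl⟩ := hz
      rw [Finset.mem_Icc] at hr
      simp only [Complex.norm_natCast]
      exact_mod_cast hr.2) (l : ℂ) (by simp only [Complex.norm_natCast]; linarith) (by
      intro z hz
      rw [hZ, Finset.mem_image] at hz
      obtain ⟨r, hr, rfl⟩ := hz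
      rw [Finset.mem_Icc] at hr
      have hr1 : (1 : ℝ) ≤ r := by exact_mod_cast hr.1
      have hr2 : (r : ℝ) ≤ h := by exact_mod_cast hr.2
      have : ((l : ℂ) - (r : ℂ)) = (((l : ℝ) - (r : ℝ) : ℝ) : ℂ) := by push_cast; ring
      rw [this, Complex.norm_real, Real.norm_eq_abs, abs_le]
      constructor <;> linarith) (hY m hm)
  rw [hcard] at hS
  have h3 : (3 * (h' : ℝ)) ^ (S2 * h) * ‖f m l‖ ≤ Real.exp Y * (h' : ℝ) ^ (S2 * h) := by
    refine le_trans ?_ hS
    rw [mul_comm]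
    gcongr
    linarith
  rw [mul_pow] at h3
  have h4 : (3 : ℝ) ^ (S2 * h) * ‖f m l‖ ≤ Real.exp Y := by
    have h5 : 0 < (h' : ℝ) ^ (S2 * h) := by positivity
    have h6 : ((3 : ℝ) ^ (S2 * h) * ‖f m l‖) * (h' : ℝ) ^ (S2 * h) ≤
        Real.exp Y * (h' : ℝ) ^ (S2 * h) := by
      calc _ = 3 ^ (S2 * h) * (h' : ℝ) ^ (S2 * h) * ‖f m l‖ := by ring
        _ ≤ _ := h3
    exact le_of_mul_le_mul_right h6 h5
  have h7 : Real.exp (h * S2) ≤ (3 : ℝ) ^ (S2 * h) := by
    have : Real.exp 1 ≤ 3 := by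
      have := Real.exp_one_lt_d9
      linarith
    calc Real.exp (h * S2) = Real.exp 1 ^ (S2 * h) := by
          rw [← Real.exp_nat_mul]; push_cast; ring_nf
      _ ≤ 3 ^ (S2 * h) := pow_le_pow_left₀ (Real.exp_pos _).le this _
  have h8 : Real.exp (h * S2) * ‖f m l‖ ≤ Real.exp Y :=
    (mul_le_mul_of_nonneg_right h7 (norm_nonneg _)).trans h4
  have h9 : ‖E ^ l‖ ≤ Real.exp (h' * H) := by
    rw [norm_pow]
    calc ‖E‖ ^ l ≤ Real.exp H ^ l := pow_le_pow_left₀ (norm_nonneg _) hEH _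
      _ = Real.exp (l * H) := by rw [Real.exp_nat_mul]
      _ ≤ Real.exp (h' * H) := by
          apply Real.exp_le_exp.2
          exact mul_le_mul_of_nonneg_right hl2 hH0
  rw [hQ m l, norm_mul, ← Real.exp_nat_mul] at hL
  have hd : 0 < Module.finrank ℚ K := Module.finrank_pos
  have hd' : ((Module.finrank ℚ K - 1 : ℕ) : ℝ) = (Module.finrank ℚ K : ℝ) - 1 := by
    rw [Nat.cast_sub hd]; simp
  have h10 : Real.exp (h * S2) ≤
      Real.exp (h' * H) * Real.exp Y *
        Real.exp (((Module.finrank ℚ K - 1 : ℕ) : ℝ) * X) := by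
    calc Real.exp (h * S2) = Real.exp (h * S2) * 1 := by ring
      _ ≤ Real.exp (h * S2) * (‖E ^ l‖ * ‖f m l‖ * Real.exp (((Module.finrank ℚ K - 1 : ℕ) : ℝ) * X)) := by
          gcongr
      _ = ‖E ^ l‖ * (Real.exp (h * S2) * ‖f m l‖) * Real.exp (((Module.finrank ℚ K - 1 : ℕ) : ℝ) * X) := by ring
      _ ≤ _ := by gcongr
  rw [← Real.exp_add, ← Real.exp_add, Real.exp_le_exp, hd'] at h10
  linarith

/-- `e^{-gz} (d/dz)^j (z^μ e^{gz})`. -/
def wt {R : Type*} [CommRing R] : ℕ → ℕ → R → R → R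
  | μ, 0, _, z => z ^ μ
  | μ, (j + 1), g, z => (μ : R) * wt (μ - 1) j g z + g * wt μ j g z

theorem wt_zero {R : Type*} [CommRing R] (μ : ℕ) (g z : R) : wt μ 0 g z = z ^ μ := rfl

theorem wt_succ {R : Type*} [CommRing R] (μ j : ℕ) (g z : R) :
    wt μ (j + 1) g z = (μ : R) * wt (μ - 1) j g z + g * wt μ j g z := rfl

theorem map_wt {R S : Type*} [CommRing R] [CommRing S] (φ : R →+* S) (j : ℕ) :
    ∀ (μ : ℕ) (g z : R), φ (wt μ j g z) = wt μ j (φ g) (φ z) := by
  induction j with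
  | zero => intro μ g z; simp [wt_zero]
  | succ j ih => intro μ g z; simp [wt_succ, ih]

theorem wt_hasDerivAt (j : ℕ) : ∀ (μ : ℕ) (g z : ℂ),
    HasDerivAt (fun z => wt μ j g z) ((μ : ℂ) * wt (μ - 1) j g z) z := by
  induction j with
  | zero =>
    intro μ g z
    simp only [wt_zero]
    exact hasDerivAt_pow μ z
  | succ j ih =>
    intro μ g z
    simp only [wt_succ]
    have h1 := ((ih (μ - 1) g z).const_mul (μ : ℂ)).add ((ih μ g z).const_mul g)
    refine h1.congr_deriv ?_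
    ring

theorem house_wt_le {K : Type*} [Field K] [NumberField K] (r : ℝ) (hr : 1 ≤ r) (G : ℝ)
    (g z : 𝓞 K) (hg : house (g : K) ≤ G) (hz : house (z : K) ≤ r) (j : ℕ) :
    ∀ μ : ℕ, house ((wt μ j g z : 𝓞 K) : K) ≤ r ^ μ * (μ + G) ^ j := by
  have hhnat : ∀ m : ℕ, house (m : K) = m := by
    intro m
    have := house_intCast (K := K) (m : ℤ)
    simpa using this
  have hG : 0 ≤ G := (house_nonneg _).trans hg
  induction j with
  | zero =>
    intro μ
    simp only [wt_zero, pow_zero, mul_one]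
    push_cast
    exact (house_pow_le _ _).trans (pow_le_pow_left₀ (house_nonneg _) hz _)
  | succ j ih =>
    intro μ
    rw [wt_succ]
    push_cast
    have h1 := ih (μ - 1)
    have h2 := ih μ
    have h3 : r ^ (μ - 1) * (((μ - 1 : ℕ) : ℝ) + G) ^ j ≤ r ^ μ * (μ + G) ^ j := by
      gcongr
      · omega
      · omega
    calc house ((μ : K) * (wt (μ - 1) j g z : 𝓞 K) + (g : K) * (wt μ j g z : 𝓞 K))
        ≤ house (μ : K) * house ((wt (μ - 1) j g z : 𝓞 K) : K) + house (g : K) * house ((wt μ j g z : 𝓞 K) : K) :=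
          (house_add_le _ _).trans (add_le_add (house_mul_le _ _) (house_mul_le _ _))
      _ ≤ μ * (r ^ μ * (μ + G) ^ j) + G * (r ^ μ * (μ + G) ^ j) := by
          rw [hhnat]
          gcongr
          · exact h1.trans h3
          · exact house_nonneg _
      _ = r ^ μ * (μ + G) ^ (j + 1) := by ring

theorem norm_wt_le (r : ℝ) (hr : 1 ≤ r) (G : ℝ)
    (g z : ℂ) (hg : ‖g‖ ≤ G) (hz : ‖z‖ ≤ r) (j : ℕ) :
    ∀ μ : ℕ, ‖wt μ j g z‖ ≤ r ^ μ * (μ + G) ^ j := by
  have hG : 0 ≤ G := (norm_nonneg _).trans hg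
  induction j with
  | zero =>
    intro μ
    simp only [wt_zero, pow_zero, mul_one, norm_pow]
    exact pow_le_pow_left₀ (norm_nonneg _) hz _
  | succ j ih =>
    intro μ
    rw [wt_succ]
    have h1 := ih (μ - 1)
    have h2 := ih μ
    have h3 : r ^ (μ - 1) * (((μ - 1 : ℕ) : ℝ) + G) ^ j ≤ r ^ μ * (μ + G) ^ j := by
      gcongr
      · omega
      · omega
    calc ‖(μ : ℂ) * wt (μ - 1) j g z + g * wt μ j g z‖
        ≤ ‖(μ : ℂ)‖ * ‖wt (μ - 1) j g z‖ + ‖g‖ * ‖wt μ j g z‖ := by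
          refine (norm_add_le _ _).trans ?_
          rw [norm_mul, norm_mul]
      _ ≤ μ * (r ^ μ * (μ + G) ^ j) + G * (r ^ μ * (μ + G) ^ j) := by
          rw [Complex.norm_natCast]
          gcongr
          exact h1.trans h3
      _ = r ^ μ * (μ + G) ^ (j + 1) := by ring

end Pool.Agent.H297R2
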