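import Mathlib

namespace Pool.Agent.H297R2

open Complex Finset Polynomial

theorem poly_vanish {Λ : Type*} [Fintype Λ] (c ψ : Λ → ℂ) (h S : ℕ)
    (hvan : ∀ j ≤ S, ∀ l ∈ Icc 1 h, ∑ x, c x * ψ x ^ j * cexp (ψ x * l) = 0)
    (P₁ P₂ : ℂ[X]) (h1 : P₁.natDegree ≤ S) (h2 : P₂.natDegree ≤ h) (h3 : P₂.coeff 0 = 0) :
    ∑ x, c x * P₁.eval (ψ x) * P₂.eval (cexp (ψ x)) = 0 := by
  have e1 : ∀ x, P₁.eval (ψ x) = ∑ j ∈ range (S + 1), P₁.coeff j * ψ x ^ j := fun x =>
    Polynomial.eval_eq_sum_range' (by omega) _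
  have e2 : ∀ x, P₂.eval (cexp (ψ x)) = ∑ l ∈ range (h + 1), P₂.coeff l * cexp (ψ x) ^ l := fun x =>
    Polynomial.eval_eq_sum_range' (by omega) _
  simp only [e1, e2, Finset.mul_sum, Finset.sum_mul]
  rw [Finset.sum_comm]
  apply Finset.sum_eq_zero
  intro l hl
  rw [Finset.sum_comm]
  apply Finset.sum_eq_zero
  intro j hj
  rw [Finset.mem_range] at hl hj
  rcases Nat.eq_zero_or_pos l with h0 | h0
  · subst h0
    simp [h3]
  · have h4 := hvan j (by omega) l (by rw [Finset.mem_Icc]; omega)
    calc ∑ x, c x * (P₁.coeff j * ψ x ^ j) * (P₂.coeff l * cexp (ψ x) ^ l)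
        = (P₁.coeff j * P₂.coeff l) * ∑ x, c x * ψ x ^ j * cexp (ψ x * l) := by
          rw [Finset.mul_sum]
          apply Finset.sum_congr rfl
          intro x _
          rw [← Complex.exp_nat_mul, mul_comm (l : ℂ) (ψ x)]
          ring
      _ = 0 := by rw [h4, mul_zero]

theorem final_step {κ : Type*} [Fintype κ] [DecidableEq κ] (L : ℕ) (ω : κ → ℂ)
    (hω : LinearIndependent ℚ ω)
    (ψ : (κ → Fin (L + 1)) → ℂ) (hψ : ∀ x, ψ x = ∑ k, ((x k : ℕ) : ℂ) * ω k)
    (c : (κ → Fin (L + 1)) → ℂ) (h S : ℕ)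
    (hh : Fintype.card (κ → Fin (L + 1)) ≤ h) (hS : L ≤ S)
    (hvan : ∀ j ≤ S, ∀ l ∈ Icc 1 h, ∑ x, c x * ψ x ^ j * cexp (ψ x * l) = 0) :
    ∀ x, c x = 0 := by
  classical
  -- integer independence
  have hint : ∀ v : κ → ℤ, ∑ k, (v k : ℂ) * ω k = 0 → ∀ k, v k = 0 := by
    intro v hv k
    rw [Fintype.linearIndependent_iff] at hω
    have := hω (fun k => (v k : ℚ)) (by
      rw [← hv]
      apply Finset.sum_congr rfl
      intro k _
      rw [Algebra.smul_def]
      simp) k
    exact_mod_cast this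
  have hdiff : ∀ x y, ψ x - ψ y = ∑ k, (((x k : ℕ) : ℤ) - ((y k : ℕ) : ℤ) : ℤ) * ω k := by
    intro x y
    rw [hψ, hψ, ← Finset.sum_sub_distrib]
    apply Finset.sum_congr rfl
    intro k _
    push_cast
    ring
  have hinj : Function.Injective ψ := by
    intro x y hxy
    have h1 : ψ x - ψ y = 0 := by rw [hxy, sub_self]
    rw [hdiff] at h1
    funext k
    have := hint _ h1 k
    apply Fin.ext
    omega
  intro x₀
  set F : Finset (κ → Fin (L + 1)) := univ.filter (fun x => cexp (ψ x) = cexp (ψ x₀)) with hF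
  have hx₀F : x₀ ∈ F := by rw [hF]; simp
  -- fibres are small
  have hFcard : F.card ≤ L + 1 := by
    by_cases htriv : ∀ x ∈ F, x = x₀
    · have : F ⊆ {x₀} := fun x hx => by rw [Finset.mem_singleton]; exact htriv x hx
      exact (Finset.card_le_card this).trans (by simp)
    · push Not at htriv
      obtain ⟨x₁, hx₁, hne⟩ := htriv
      obtain ⟨t, ht⟩ : ∃ t, x₁ t ≠ x₀ t := by
        by_contra hcon
        push Not at hcon
        exact hne (funext hcon)
      have hk : ∀ x ∈ F, ∃ n : ℤ, ψ x - ψ x₀ = n * (2 * Real.pi * I) := by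
        intro x hx
        rw [hF, Finset.mem_filter] at hx
        obtain ⟨n, hn⟩ := (Complex.exp_eq_exp_iff_exists_int).1 hx.2
        exact ⟨n, by rw [hn]; ring⟩
      have hinjF : Set.InjOn (fun x : κ → Fin (L + 1) => x t) F := by
        intro x hx y hy hxy
        obtain ⟨n₁, hn₁⟩ := hk x₁ hx₁
        obtain ⟨n, hn⟩ := hk x hx
        obtain ⟨n', hn'⟩ := hk y hy
        have hpar : ((n : ℂ) - n') * (ψ x₁ - ψ x₀) - n₁ * (ψ x - ψ y) = 0 := by
          have e3 : ψ x - ψ y = (n - n') * (2 * Real.pi * I) := by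
            calc ψ x - ψ y = (ψ x - ψ x₀) - (ψ y - ψ x₀) := by ring
              _ = _ := by rw [hn, hn']; ring
          rw [e3, hn₁]
          ring
        rw [hdiff, hdiff] at hpar
        have hpar2 : ∑ k, (((n - n') * (((x₁ k : ℕ) : ℤ) - ((x₀ k : ℕ) : ℤ)) -
            n₁ * (((x k : ℕ) : ℤ) - ((y k : ℕ) : ℤ)) : ℤ) : ℂ) * ω k = 0 := by
          rw [← hpar, Finset.mul_sum, Finset.mul_sum, ← Finset.sum_sub_distrib]
          apply Finset.sum_congr rfl
          intro k _
          push_cast
          ring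
        have hpar3 := hint _ hpar2
        have ht2 := hpar3 t
        have hxt : ((x t : ℕ) : ℤ) = ((y t : ℕ) : ℤ) := by
          have : x t = y t := hxy
          rw [this]
        rw [hxt, sub_self, mul_zero, sub_zero] at ht2
        have ht3 : ((x₁ t : ℕ) : ℤ) - ((x₀ t : ℕ) : ℤ) ≠ 0 := by
          intro h0
          apply ht
          apply Fin.ext
          omega
        have hnn : n - n' = 0 := by
          rcases mul_eq_zero.1 ht2 with h0 | h0
          · exact h0
          · exact absurd h0 ht3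
        have hn1 : n₁ ≠ 0 := by
          intro h0
          rw [h0] at hn₁
          apply hne
          apply hinj
          have : ψ x₁ - ψ x₀ = 0 := by rw [hn₁]; push_cast; ring
          exact sub_eq_zero.1 this
        funext k
        have h5 := hpar3 k
        rw [hnn, zero_mul, zero_sub, neg_eq_zero] at h5
        rcases mul_eq_zero.1 h5 with h0 | h0
        · exact absurd h0 hn1
        · apply Fin.ext
          omega
      calc F.card = (F.image (fun x : κ → Fin (L + 1) => x t)).card :=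
            (Finset.card_image_of_injOn hinjF).symm
        _ ≤ (univ : Finset (Fin (L + 1))).card := Finset.card_le_card (Finset.subset_univ _)
        _ = L + 1 := by simp
  -- the two polynomials
  set Y : Finset ℂ := (F.image ψ).erase (ψ x₀) with hY
  set W : Finset ℂ := ((univ : Finset (κ → Fin (L + 1))).image (fun x => cexp (ψ x))).erase (cexp (ψ x₀)) with hW
  set P₁ : ℂ[X] := ∏ y ∈ Y, (X - C y) with hP₁
  set P₂ : ℂ[X] := X * ∏ y ∈ W, (X - C y) with hP₂
  have hY1 : Y.card ≤ L := by
    rw [hY, Finset.card_erase_of_mem (Finset.mem_image_of_mem _ hx₀F)]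
    have := Finset.card_image_le (s := F) (f := ψ)
    omega
  have hW1 : W.card + 1 ≤ h := by
    have hmem : cexp (ψ x₀) ∈ (univ : Finset (κ → Fin (L + 1))).image (fun x => cexp (ψ x)) :=
      Finset.mem_image_of_mem _ (Finset.mem_univ _)
    rw [hW, Finset.card_erase_of_mem hmem]
    have h6 := Finset.card_image_le (s := (univ : Finset (κ → Fin (L + 1)))) (f := fun x => cexp (ψ x))
    have h7 := Finset.card_pos.2 ⟨_, hmem⟩
    rw [Finset.card_univ] at h6
    omega
  have hd1 : P₁.natDegree ≤ S := by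
    rw [hP₁, Polynomial.natDegree_prod_of_monic _ _ (fun y _ => Polynomial.monic_X_sub_C y)]
    simp only [Polynomial.natDegree_X_sub_C, Finset.sum_const, smul_eq_mul, mul_one]
    omega
  have hd2 : P₂.natDegree ≤ h := by
    rw [hP₂]
    refine (Polynomial.natDegree_mul_le).trans ?_
    rw [Polynomial.natDegree_X, Polynomial.natDegree_prod_of_monic _ _ (fun y _ => Polynomial.monic_X_sub_C y)]
    simp only [Polynomial.natDegree_X_sub_C, Finset.sum_const, smul_eq_mul, mul_one]
    omega
  have hc0 : P₂.coeff 0 = 0 := by rw [hP₂]; simp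
  have hsum := poly_vanish c ψ h S hvan P₁ P₂ hd1 hd2 hc0
  rw [Finset.sum_eq_single x₀] at hsum
  · have hne1 : P₁.eval (ψ x₀) ≠ 0 := by
      rw [hP₁, Polynomial.eval_prod, Finset.prod_ne_zero_iff]
      intro y hy
      rw [hY, Finset.mem_erase] at hy
      simp only [eval_sub, eval_X, eval_C]
      exact sub_ne_zero.2 hy.1.symm
    have hne2 : P₂.eval (cexp (ψ x₀)) ≠ 0 := by
      rw [hP₂, Polynomial.eval_mul, Polynomial.eval_prod]
      apply mul_ne_zero
      · rw [eval_X]; exact Complex.exp_ne_zero _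
      · rw [Finset.prod_ne_zero_iff]
        intro y hy
        rw [hW, Finset.mem_erase] at hy
        simp only [eval_sub, eval_X, eval_C]
        exact sub_ne_zero.2 hy.1.symm
    rcases mul_eq_zero.1 hsum with h0 | h0
    · rcases mul_eq_zero.1 h0 with h0 | h0
      · exact h0
      · exact absurd h0 hne1
    · exact absurd h0 hne2
  · intro x _ hx
    by_cases hxF : cexp (ψ x) = cexp (ψ x₀)
    · have : P₁.eval (ψ x) = 0 := by
        rw [hP₁, Polynomial.eval_prod]
        apply Finset.prod_eq_zero (i := ψ x)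
        · rw [hY, Finset.mem_erase]
          refine ⟨fun h0 => hx (hinj h0), Finset.mem_image_of_mem _ ?_⟩
          rw [hF, Finset.mem_filter]
          exact ⟨Finset.mem_univ _, hxF⟩
        · simp
      rw [this, mul_zero, zero_mul]
    · have : P₂.eval (cexp (ψ x)) = 0 := by
        rw [hP₂, Polynomial.eval_mul, Polynomial.eval_prod]
        rw [Finset.prod_eq_zero (i := cexp (ψ x))]
        · rw [mul_zero]
        · rw [hW, Finset.mem_erase]
          exact ⟨hxF, Finset.mem_image_of_mem (fun x => cexp (ψ x)) (Finset.mem_univ _)⟩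
        · simp
      rw [this, mul_zero]
  · intro h0
    exact absurd (Finset.mem_univ _) h0

end Pool.Agent.H297R2
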