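import Mathlib
import Pool.Agent.H297R2.Step
import Pool.Agent.H297R2.Vander

namespace Pool.Agent.H297R2

open NumberField Complex Finset Filter

/-- Siegel's lemma over the ring of integers, in a convenient form. -/
theorem siegel (K : Type*) [Field K] [NumberField K] : ∃ C : ℝ, 1 ≤ C ∧
    ∀ (α β : Type) [Fintype α] [Fintype β] (a : Matrix α β (𝓞 K)), a ≠ 0 →
      0 < Fintype.card α → 2 * Fintype.card α ≤ Fintype.card β → ∀ A : ℝ, 1 ≤ A →
      (∀ k l, house (a k l : K) ≤ A) →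
      ∃ ξ : β → 𝓞 K, ξ ≠ 0 ∧ a.mulVec ξ = 0 ∧
        ∀ l, house (ξ l : K) ≤ C * (C * Fintype.card β * A) := by
  classical
  obtain ⟨c, hc⟩ : ∃ c : ℝ, ∀ (α β : Type) [Fintype α] [Fintype β] (a : Matrix α β (𝓞 K)), a ≠ 0 →
      0 < Fintype.card α → Fintype.card α < Fintype.card β → ∀ A : ℝ,
      (∀ k l, house (a k l : K) ≤ A) →
      ∃ ξ : β → 𝓞 K, ξ ≠ 0 ∧ a.mulVec ξ = 0 ∧
        ∀ l, house (ξ l : K) ≤ c * ((c * (Fintype.card β : ℕ) * A) ^
          (((Fintype.card α : ℕ) : ℝ) / ((Fintype.card β : ℕ) - (Fintype.card α : ℕ)))) :=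
    ⟨_, fun α β _ _ a ha h0 hpq A habs =>
      NumberField.house.exists_ne_zero_int_vec_house_le K a ha h0 hpq rfl habs rfl⟩
  refine ⟨max 1 |c|, le_max_left _ _, ?_⟩
  intro α β _ _ a ha h0 hpq A hA habs
  obtain ⟨ξ, h1, h2, h3⟩ := hc α β a ha h0 (by omega) A habs
  refine ⟨ξ, h1, h2, fun l => (h3 l).trans ?_⟩
  set C := max 1 |c| with hC
  have hC1 : 1 ≤ C := le_max_left _ _
  have hcC : |c| ≤ C := le_max_right _ _
  set q : ℝ := ((Fintype.card β : ℕ) : ℝ) with hq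
  set p : ℝ := ((Fintype.card α : ℕ) : ℝ) with hp
  have hp1 : (1 : ℝ) ≤ p := by rw [hp]; exact_mod_cast h0
  have hpq' : 2 * p ≤ q := by rw [hp, hq]; exact_mod_cast hpq
  have hq1 : 1 ≤ q := by linarith
  set e : ℝ := p / (q - p) with he
  have he0 : 0 ≤ e := by rw [he]; apply div_nonneg <;> linarith
  have he1 : e ≤ 1 := by rw [he, div_le_one (by linarith)]; linarith
  have hbig : 1 ≤ C * q * A := by
    calc (1 : ℝ) = 1 * 1 * 1 := by ring
      _ ≤ C * q * A := by gcongr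
  calc c * (c * q * A) ^ e ≤ |c * (c * q * A) ^ e| := le_abs_self _
    _ = |c| * |(c * q * A) ^ e| := abs_mul _ _
    _ ≤ C * |c * q * A| ^ e := by
        gcongr
        exact Real.abs_rpow_le_abs_rpow _ _
    _ ≤ C * (C * q * A) ^ e := by
        gcongr
        rw [abs_mul, abs_mul, abs_of_nonneg (by linarith : (0 : ℝ) ≤ q), abs_of_nonneg (by linarith : (0 : ℝ) ≤ A)]
        gcongr
    _ ≤ C * (C * q * A) ^ (1 : ℝ) := by
        gcongr
    _ = C * (C * q * A) := by rw [Real.rpow_one]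

/-- Choice of parameters. -/
theorem exists_param (n J : ℕ) (c₁ c₂ c₃ : ℝ) : ∃ T : ℕ, 2 ≤ T ∧ c₁ ≤ T ∧
    c₂ * Real.log (c₃ * (T : ℝ) ^ (2 * n + 2)) ≤ T / 4 ∧ 2 * 2 ^ ((J + 1) * n) ≤ T := by
  have hlog : ∀ c : ℝ, ∀ᶠ T : ℕ in atTop, c * Real.log T ≤ T / 8 := by
    intro c
    have h1 := (Real.isLittleO_log_id_atTop.const_mul_left c).bound (show (0 : ℝ) < 1 / 8 by norm_num)
    have h2 := tendsto_natCast_atTop_atTop.eventually h1
    filter_upwards [h2] with T hT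
    have h3 : c * Real.log T ≤ ‖c * Real.log T‖ := le_abs_self _
    have h4 : ‖id (T : ℝ)‖ = T := by simp
    rw [h4] at hT
    linarith
  have hbig : ∀ c : ℝ, ∀ᶠ T : ℕ in atTop, c ≤ T :=
    fun c => tendsto_natCast_atTop_atTop.eventually (eventually_ge_atTop c)
  obtain ⟨T, h1, h2, h3, h4, h5⟩ := ((eventually_ge_atTop 2).and ((hbig c₁).and
    ((hlog (c₂ * (2 * n + 2))).and ((hbig (8 * (c₂ * Real.log c₃))).and
      (eventually_ge_atTop (2 * 2 ^ ((J + 1) * n))))))).exists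
  refine ⟨T, h1, h2, ?_, h5⟩
  have hT0 : (T : ℝ) ≠ 0 := by
    have : (2 : ℝ) ≤ T := by exact_mod_cast h1
    positivity
  by_cases hc : c₃ = 0
  · rw [hc, zero_mul, Real.log_zero, mul_zero]; positivity
  · rw [Real.log_mul hc (pow_ne_zero _ hT0), Real.log_pow]
    push_cast
    have : c₂ * (Real.log c₃ + (2 * n + 2) * Real.log T) =
      c₂ * Real.log c₃ + c₂ * (2 * n + 2) * Real.log T := by ring
    rw [this]
    linarith

/-- The arithmetic inequality behind the extrapolation. -/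
theorem num_ineq (n J j T : ℕ) (hj : j < J) (d B₀ C : ℝ) (hd : 1 ≤ d) (hB₀ : 1 ≤ B₀) (hC : 1 ≤ C)
    (hT : 2 ≤ T)
    (h1 : 4 * (d * (2 * (n + 1) + 2 * Real.log C + 2 * (n + 1) * Real.log B₀) + 4 * (n + 1) * B₀) ≤ T)
    (h2 : (d * (n + 1) * 2 ^ J) * Real.log ((2 * B₀) * (T : ℝ) ^ (2 * n + 2)) ≤ T / 4) :
    d * (((n + 1) * (T : ℝ) ^ (2 * n + 2)) +
      (2 * Real.log C + (n + 1) * (T : ℝ) ^ (2 * n + 2) +
        n * (2 ^ J * (T : ℝ) ^ (2 * n + 4)) * Real.log ((2 * B₀) * (T : ℝ) ^ (2 * n + 2)) +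
        T * ((n + 1) * (T : ℝ) ^ (2 * n + 2) * Real.log B₀)) +
      (2 ^ (J - j - 1) * (T : ℝ) ^ (2 * n + 4)) * Real.log ((2 * B₀) * (T : ℝ) ^ (2 * n + 2)) +
      (T : ℝ) ^ (2 + j) * ((n + 1) * (T : ℝ) ^ (2 * n + 2) * Real.log B₀)) +
      4 * ((n + 1) * B₀ * (T : ℝ) ^ (2 * n + 2)) * (T : ℝ) ^ (2 + j) <
      (T : ℝ) ^ (1 + j) * (2 ^ (J - j - 1) * (T : ℝ) ^ (2 * n + 4)) := by
  have hT2 : (2 : ℝ) ≤ T := by exact_mod_cast hT
  have hT1 : (1 : ℝ) ≤ T := by linarith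
  set t : ℝ := (T : ℝ) with ht
  set g : ℝ := Real.log ((2 * B₀) * t ^ (2 * n + 2)) with hg
  have hg0 : 0 ≤ g := by
    rw [hg]; apply Real.log_nonneg
    calc (1 : ℝ) = 1 * 1 := by ring
      _ ≤ (2 * B₀) * t ^ (2 * n + 2) := by
        gcongr
        · linarith
        · exact one_le_pow₀ hT1
  have hlC : 0 ≤ Real.log C := Real.log_nonneg hC
  have hlB : 0 ≤ Real.log B₀ := Real.log_nonneg hB₀
  set L : ℝ := t ^ (2 * n + 2) with hL
  have hL1 : 1 ≤ L := one_le_pow₀ hT1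
  set H' : ℝ := t ^ (2 + j) with hH'
  have hH'1 : 1 ≤ H' := one_le_pow₀ hT1
  have hH't : t ≤ H' := by
    calc t = t ^ 1 := (pow_one t).symm
      _ ≤ t ^ (2 + j) := pow_le_pow_right₀ hT1 (by omega)
  set S' : ℝ := t ^ (2 * n + 4) with hS'
  have hS'0 : 0 < S' := by positivity
  set Z : ℝ := t ^ (2 * n + 4 + j) with hZ
  have hZ1 : L * H' = Z := by rw [hL, hH', hZ, ← pow_add]; congr 1; ring
  have hZ0 : 0 < Z := by positivity
  have hS'Z : S' ≤ Z := pow_le_pow_right₀ hT1 (by omega)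
  have hn : (0 : ℝ) ≤ n := Nat.cast_nonneg n
  have hpow : (2 : ℝ) ^ (J - j - 1) ≤ 2 ^ J := pow_le_pow_right₀ (by norm_num) (by omega)
  have hpow1 : (1 : ℝ) ≤ 2 ^ (J - j - 1) := one_le_pow₀ (by norm_num)
  have hpowJ : (0 : ℝ) < 2 ^ J := by positivity
  -- right hand side
  have hR : t * Z ≤ t ^ (1 + j) * (2 ^ (J - j - 1) * S') := by
    have : t * Z = t ^ (1 + j) * (1 * S') := by
      rw [hZ, hS', one_mul, ← pow_succ', ← pow_add]; congr 1; ring
    rw [this]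
    gcongr
  refine lt_of_lt_of_le ?_ hR
  have hLZ : L ≤ Z := by rw [← hZ1]; nlinarith
  have hone : (1 : ℝ) ≤ Z := hL1.trans hLZ
  have b1 : (n + 1) * L ≤ (n + 1) * Z := by gcongr
  have b2 : 2 * Real.log C ≤ 2 * Real.log C * Z := by
    nlinarith
  have b3 : t * ((n + 1) * L * Real.log B₀) ≤ (n + 1) * Real.log B₀ * Z := by
    calc t * ((n + 1) * L * Real.log B₀) = (n + 1) * Real.log B₀ * (L * t) := by ring
      _ ≤ (n + 1) * Real.log B₀ * (L * H') := by gcongr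
      _ = _ := by rw [hZ1]
  have b4 : H' * ((n + 1) * L * Real.log B₀) = (n + 1) * Real.log B₀ * Z := by
    rw [← hZ1]; ring
  have b5 : 4 * ((n + 1) * B₀ * L) * H' = 4 * (n + 1) * B₀ * Z := by rw [← hZ1]; ring
  have b6 : n * (2 ^ J * S') * g + 2 ^ (J - j - 1) * S' * g ≤ (n + 1) * 2 ^ J * g * Z := by
    calc n * (2 ^ J * S') * g + 2 ^ (J - j - 1) * S' * g
        ≤ n * (2 ^ J * S') * g + 2 ^ J * S' * g := by gcongr
      _ = (n + 1) * 2 ^ J * g * S' := by ring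
      _ ≤ (n + 1) * 2 ^ J * g * Z := by gcongr
  have b7 : d * ((n + 1) * 2 ^ J * g * Z) ≤ t / 4 * Z := by
    calc d * ((n + 1) * 2 ^ J * g * Z) = (d * (n + 1) * 2 ^ J * g) * Z := by ring
      _ ≤ t / 4 * Z := by gcongr
  have b8 : (d * (2 * (n + 1) + 2 * Real.log C + 2 * (n + 1) * Real.log B₀) + 4 * (n + 1) * B₀) * Z ≤ t / 4 * Z := by
    gcongr
    linarith
  rw [b4, b5]
  have b9 : ((n + 1) * L) + (2 * Real.log C + (n + 1) * L + n * (2 ^ J * S') * g + t * ((n + 1) * L * Real.log B₀)) +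
      (2 ^ (J - j - 1) * S') * g + (n + 1) * Real.log B₀ * Z ≤
      (2 * (n + 1) + 2 * Real.log C + 2 * (n + 1) * Real.log B₀) * Z + (n + 1) * 2 ^ J * g * Z := by
    linarith
  have b10 := mul_le_mul_of_nonneg_left b9 (show (0 : ℝ) ≤ d by linarith)
  have b11 : d * ((2 * (n + 1) + 2 * Real.log C + 2 * (n + 1) * Real.log B₀) * Z + (n + 1) * 2 ^ J * g * Z) +
      4 * (n + 1) * B₀ * Z ≤ t / 2 * Z := by
    linarith
  have b12 : t / 2 * Z < t * Z := by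
    have : 0 < t * Z := by positivity
    linarith
  linarith

end Pool.Agent.H297R2
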