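import Mathlib
import Pool.Agent.H297R2.Core

namespace Pool.Agent.H297R2

open NumberField Complex Finset Filter

/-- The heart of Baker's theorem: no linear relation with integral coefficients. -/
theorem baker_core {K : Type*} [Field K] [NumberField K] (σ : K →+* ℂ) {ι : Type} [Fintype ι]
    [DecidableEq ι] (ω : Option ι → ℂ) (hω : LinearIndependent ℚ ω) (b : ι → 𝓞 K)
    (hb : ω none = ∑ i, σ (b i : K) * ω (some i)) (α : Option ι → K)
    (hα : ∀ k, σ (α k) = cexp (ω k)) : False := by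
  classical
  -- common denominator
  have : Algebra.IsAlgebraic ℤ K :=
    ⟨fun x => (IsFractionRing.isAlgebraic_iff ℤ ℚ K).2 (Algebra.IsAlgebraic.isAlgebraic x)⟩
  obtain ⟨a, ha0, haint⟩ := Algebra.IsAlgebraic.exists_integral_multiples ℤ (A := K)
    (univ.image α)
  have haint' : ∀ k, IsIntegral ℤ (a • α k) := fun k => haint _ (Finset.mem_image_of_mem _ (mem_univ _))
  set α' : Option ι → 𝓞 K := fun k => ⟨a • α k, haint' k⟩ with hα'
  have hα'v : ∀ k, ((α' k : 𝓞 K) : K) = (a : K) * α k := by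
    intro k
    rw [hα']
    simp [zsmul_eq_mul]
  -- constants
  obtain ⟨C, hC1, hsiegel⟩ := siegel K
  set n := Fintype.card ι with hn
  set B₀ : ℝ := 1 + |(a : ℝ)| + ∑ i, house (b i : K) + ∑ k, house (α' k : K) + ∑ k, ‖ω k‖ with hB₀
  have hsb : 0 ≤ ∑ i, house (b i : K) := Finset.sum_nonneg (fun i _ => house_nonneg _)
  have hsα : 0 ≤ ∑ k, house (α' k : K) := Finset.sum_nonneg (fun i _ => house_nonneg _)
  have hsω : 0 ≤ ∑ k, ‖ω k‖ := Finset.sum_nonneg (fun i _ => norm_nonneg _)
  have hB1 : 1 ≤ B₀ := by rw [hB₀]; linarith [abs_nonneg (a : ℝ)]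
  have hBa : |(a : ℝ)| ≤ B₀ := by rw [hB₀]; linarith [abs_nonneg (a : ℝ)]
  have hBb : ∀ i, house (b i : K) ≤ B₀ := by
    intro i
    have : house (b i : K) ≤ ∑ i, house (b i : K) :=
      Finset.single_le_sum (f := fun i => house (b i : K)) (fun i _ => house_nonneg _) (mem_univ i)
    rw [hB₀]; linarith [abs_nonneg (a : ℝ)]
  have hBα : ∀ k, house (α' k : K) ≤ B₀ := by
    intro i
    have : house (α' i : K) ≤ ∑ k, house (α' k : K) :=
      Finset.single_le_sum (f := fun i => house (α' i : K)) (fun i _ => house_nonneg _) (mem_univ i)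
    rw [hB₀]; linarith [abs_nonneg (a : ℝ)]
  have hBω : ∀ k, ‖ω k‖ ≤ B₀ := by
    intro i
    have : ‖ω i‖ ≤ ∑ k, ‖ω k‖ :=
      Finset.single_le_sum (f := fun i => ‖ω i‖) (fun i _ => norm_nonneg _) (mem_univ i)
    rw [hB₀]; linarith [abs_nonneg (a : ℝ)]
  set d : ℝ := (Module.finrank ℚ K : ℝ) with hd
  have hd1 : 1 ≤ d := by rw [hd]; exact_mod_cast Module.finrank_pos
  set J : ℕ := (2 * n + 3) * (n + 1) with hJ
  obtain ⟨T, hT2, hT3, hT4, hT5⟩ := exists_param n J
    (4 * (d * (2 * (n + 1) + 2 * Real.log C + 2 * (n + 1) * Real.log B₀) + 4 * (n + 1) * B₀))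
    (d * (n + 1) * 2 ^ J) (2 * B₀)
  have hTr : (2 : ℝ) ≤ T := by exact_mod_cast hT2
  set L : ℕ := T ^ (2 * n + 2) with hL
  have hL1 : 1 ≤ L := Nat.one_le_pow _ _ (by omega)
  have hLr : (1 : ℝ) ≤ L := by exact_mod_cast hL1
  have hLcast : (L : ℝ) = (T : ℝ) ^ (2 * n + 2) := by rw [hL]; push_cast; rfl
  -- the data
  set γ : (Option ι → Fin (L + 1)) → ι → 𝓞 K :=
    fun x i => ((x (some i) : ℕ) : 𝓞 K) + ((x none : ℕ) : 𝓞 K) * b i with hγ
  set A : (Option ι → Fin (L + 1)) → 𝓞 K :=
    fun x => ∏ k, (a : 𝓞 K) ^ (L - (x k : ℕ)) * α' k ^ (x k : ℕ) with hA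
  set ψ : (Option ι → Fin (L + 1)) → ℂ := fun x => ∑ k, ((x k : ℕ) : ℂ) * ω k with hψ
  set E : ℂ := ((a : ℂ) ^ L) ^ (n + 1) with hE
  have hac : (a : ℂ) ≠ 0 := by exact_mod_cast ha0
  have hE0 : E ≠ 0 := pow_ne_zero _ (pow_ne_zero _ hac)
  have hcardO : Fintype.card (Option ι) = n + 1 := by rw [Fintype.card_option]
  have hψγ : ∀ x, ψ x = ∑ i, σ (γ x i : K) * ω (some i) := by
    intro x
    rw [hψ, hγ]
    simp only [Fintype.sum_option, hb, Finset.mul_sum]
    rw [← Finset.sum_add_distrib]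
    apply Finset.sum_congr rfl
    intro i _
    push_cast
    simp only [map_add, map_mul, map_natCast]
    ring
  have hAσ : ∀ x, σ (A x : K) = E * cexp (ψ x) := by
    intro x
    rw [hA]
    have e1 : ((∏ k, (a : 𝓞 K) ^ (L - (x k : ℕ)) * α' k ^ (x k : ℕ) : 𝓞 K) : K) =
        ∏ k, (a : K) ^ (L - (x k : ℕ)) * ((a : K) * α k) ^ (x k : ℕ) := by
      rw [show ((∏ k, (a : 𝓞 K) ^ (L - (x k : ℕ)) * α' k ^ (x k : ℕ) : 𝓞 K) : K) =
        algebraMap (𝓞 K) K (∏ k, (a : 𝓞 K) ^ (L - (x k : ℕ)) * α' k ^ (x k : ℕ)) from rfl, map_prod]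
      apply Finset.prod_congr rfl
      intro k _
      rw [map_mul, map_pow, map_pow, map_intCast,
        show algebraMap (𝓞 K) K (α' k) = (a : K) * α k from hα'v k]
    rw [e1, map_prod]
    have e2 : ∀ k, σ ((a : K) ^ (L - (x k : ℕ)) * ((a : K) * α k) ^ (x k : ℕ)) =
        (a : ℂ) ^ L * cexp (((x k : ℕ) : ℂ) * ω k) := by
      intro k
      rw [map_mul, map_pow, map_pow, map_mul, map_intCast, hα, mul_pow, Complex.exp_nat_mul,
        ← mul_assoc, ← pow_add, Nat.sub_add_cancel (by have := (x k).isLt; omega)]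
    rw [Finset.prod_congr rfl (fun k _ => e2 k), Finset.prod_mul_distrib, ← Complex.exp_sum,
      Finset.prod_const, Finset.card_univ, hcardO]
  -- bounds
  have hxk : ∀ (x : Option ι → Fin (L + 1)) k, ((x k : ℕ) : ℝ) ≤ L := by
    intro x k
    have := (x k).isLt
    exact_mod_cast (by omega : (x k : ℕ) ≤ L)
  have hxkN : ∀ (x : Option ι → Fin (L + 1)) k, (x k : ℕ) ≤ L := by
    intro x k
    have := (x k).isLt
    omega
  set g : ℝ := Real.log ((2 * B₀) * (T : ℝ) ^ (2 * n + 2)) with hg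
  have hg_arg : 1 ≤ (2 * B₀) * (T : ℝ) ^ (2 * n + 2) := by
    rw [← hLcast]
    calc (1 : ℝ) = 1 * 1 := by ring
      _ ≤ (2 * B₀) * L := by gcongr; linarith
  have hg0 : 0 ≤ g := Real.log_nonneg hg_arg
  have hexpg : Real.exp g = 2 * B₀ * L := by
    rw [hg, Real.exp_log (by linarith), hLcast]
  set H : ℝ := (n + 1) * (T : ℝ) ^ (2 * n + 2) * Real.log B₀ with hH
  have hlB : 0 ≤ Real.log B₀ := Real.log_nonneg hB1
  have hH0 : 0 ≤ H := by rw [hH]; positivity
  have hexpH : Real.exp H = (B₀ ^ L) ^ (n + 1) := by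
    have : H = ((L * (n + 1) : ℕ) : ℝ) * Real.log B₀ := by rw [hH, ← hLcast]; push_cast; ring
    rw [this, Real.exp_nat_mul, Real.exp_log (by linarith), pow_mul]
  have hhnat : ∀ m : ℕ, house (m : K) = m := by
    intro m
    have := house_intCast (K := K) (m : ℤ)
    simpa using this
  have hγb : ∀ x i, house (γ x i : K) ≤ Real.exp g := by
    intro x i
    rw [hexpg, hγ]
    push_cast
    refine (house_add_le _ _).trans ?_
    calc house (((x (some i) : ℕ) : K)) + house (((x none : ℕ) : K) * (b i : K))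
        ≤ ((x (some i) : ℕ) : ℝ) + ((x none : ℕ) : ℝ) * house (b i : K) := by
          gcongr
          · rw [hhnat]
          · refine (house_mul_le _ _).trans ?_
            rw [hhnat]
      _ ≤ L * B₀ + L * B₀ := by
          gcongr
          · calc ((x (some i) : ℕ) : ℝ) ≤ L := hxk _ _
              _ = L * 1 := by ring
              _ ≤ L * B₀ := by gcongr
          · exact house_nonneg _
          · exact hxkN _ _
          · exact hBb i
      _ = 2 * B₀ * L := by ring
  have hAb : ∀ x, house (A x : K) ≤ Real.exp H := by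
    intro x
    rw [hexpH, hA]
    push_cast
    have h1 : house (∏ k, (a : K) ^ (L - (x k : ℕ)) * (α' k : K) ^ (x k : ℕ)) ≤
        ∏ _k : Option ι, B₀ ^ L := by
      simp only [house, map_prod]
      refine (Finset.norm_prod_le _ _).trans ?_
      apply Finset.prod_le_prod
      · intro i _; exact norm_nonneg _
      · intro k _
        have h2 : house ((a : K) ^ (L - (x k : ℕ)) * (α' k : K) ^ (x k : ℕ)) ≤ B₀ ^ L := by
          calc house ((a : K) ^ (L - (x k : ℕ)) * (α' k : K) ^ (x k : ℕ))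
              ≤ house ((a : K) ^ (L - (x k : ℕ))) * house ((α' k : K) ^ (x k : ℕ)) :=
                house_mul_le _ _
            _ ≤ house (a : K) ^ (L - (x k : ℕ)) * house (α' k : K) ^ (x k : ℕ) := by
                gcongr
                · exact house_nonneg _
                · exact pow_nonneg (house_nonneg _) _
                · exact house_pow_le _ _
                · exact house_pow_le _ _
            _ ≤ B₀ ^ (L - (x k : ℕ)) * B₀ ^ (x k : ℕ) := by
                gcongr
                · exact pow_nonneg (house_nonneg _) _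
                · exact house_nonneg _
                · rw [house_intCast]; exact_mod_cast hBa
                · exact house_nonneg _
                · exact hBα k
            _ = B₀ ^ L := by
                rw [← pow_add, Nat.sub_add_cancel (by have := (x k).isLt; omega)]
        exact h2
    refine h1.trans ?_
    rw [Finset.prod_const, Finset.card_univ, hcardO]
  have hEb : ‖E‖ ≤ Real.exp H := by
    rw [hexpH, hE, norm_pow, norm_pow]
    have : ‖(a : ℂ)‖ = |(a : ℝ)| := Complex.norm_intCast a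
    rw [this]
    gcongr
  set Ψ : ℝ := (n + 1) * B₀ * (T : ℝ) ^ (2 * n + 2) with hΨ
  have hΨ0 : 0 ≤ Ψ := by rw [hΨ]; positivity
  have hψb : ∀ x, ‖ψ x‖ ≤ Ψ := by
    intro x
    rw [hψ, hΨ, ← hLcast]
    refine (norm_sum_le _ _).trans ?_
    calc ∑ k, ‖((x k : ℕ) : ℂ) * ω k‖ ≤ ∑ _k : Option ι, (L : ℝ) * B₀ := by
          apply Finset.sum_le_sum
          intro k _
          rw [norm_mul, Complex.norm_natCast]
          gcongr
          · exact hxkN x k
          · exact hBω k
      _ = (n + 1) * B₀ * L := by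
          rw [Finset.sum_const, Finset.card_univ, hcardO, nsmul_eq_mul]; push_cast; ring
  set N : ℝ := (n + 1) * (T : ℝ) ^ (2 * n + 2) with hN
  have hcardΛ : Fintype.card (Option ι → Fin (L + 1)) = (L + 1) ^ (n + 1) := by
    rw [Fintype.card_fun, Fintype.card_fin, hcardO]
  have hNb : (Fintype.card (Option ι → Fin (L + 1)) : ℝ) ≤ Real.exp N := by
    rw [hcardΛ]
    push_cast
    have : N = ((n + 1 : ℕ) : ℝ) * (L : ℝ) := by rw [hN, hLcast]; push_cast; ring
    rw [this, Real.exp_nat_mul]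
    gcongr
    exact Real.add_one_le_exp _
  -- Siegel's lemma
  set S₀ : ℕ := 2 ^ J * T ^ (2 * n + 4) with hS₀
  set a' : Matrix ((ι → Fin (S₀ + 1)) × Fin T) (Option ι → Fin (L + 1)) (𝓞 K) :=
    fun k x => (∏ i, γ x i ^ (k.1 i : ℕ)) * A x ^ ((k.2 : ℕ) + 1) with ha'
  have hA0 : ∀ x, A x ≠ 0 := by
    intro x h0
    have h1 := hAσ x
    rw [h0] at h1
    simp only [map_zero] at h1
    exact (mul_ne_zero hE0 (Complex.exp_ne_zero _)) h1.symm
  have ha'0 : a' ≠ 0 := by
    intro h0
    have h1 : a' (fun _ => 0, ⟨0, by omega⟩) (fun _ => 0) = 0 := by rw [h0]; rfl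
    rw [ha'] at h1
    simp only [Fin.val_zero, pow_zero, Finset.prod_const_one, one_mul, zero_add, pow_one] at h1
    exact hA0 _ h1
  have hcard1 : Fintype.card ((ι → Fin (S₀ + 1)) × Fin T) = (S₀ + 1) ^ n * T := by
    rw [Fintype.card_prod, Fintype.card_fun, Fintype.card_fin, Fintype.card_fin]
  have hS₀1 : 1 ≤ S₀ := by
    rw [hS₀]; exact Nat.one_le_iff_ne_zero.2 (by positivity)
  have hcount : 2 * Fintype.card ((ι → Fin (S₀ + 1)) × Fin T) ≤
      Fintype.card (Option ι → Fin (L + 1)) := by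
    rw [hcard1, hcardΛ]
    calc 2 * ((S₀ + 1) ^ n * T) ≤ 2 * ((2 * S₀) ^ n * T) := by gcongr; omega
      _ = (2 * 2 ^ ((J + 1) * n)) * T ^ ((2 * n + 4) * n + 1) := by
          rw [hS₀, show 2 * (2 ^ J * T ^ (2 * n + 4)) = 2 ^ (J + 1) * T ^ (2 * n + 4) by ring,
            mul_pow, ← pow_mul, ← pow_mul]
          ring
      _ ≤ T * T ^ ((2 * n + 4) * n + 1) := by gcongr
      _ = (T ^ (2 * n + 2)) ^ (n + 1) := by
          rw [← pow_succ', ← pow_mul]; congr 1; ring
      _ ≤ (L + 1) ^ (n + 1) := by rw [hL]; gcongr; omega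
  set A₀ : ℝ := Real.exp (n * (2 ^ J * (T : ℝ) ^ (2 * n + 4)) * g + T * H) with hA₀
  have hA₀1 : 1 ≤ A₀ := by
    rw [hA₀]; apply Real.one_le_exp; positivity
  have hentry : ∀ k x, house (a' k x : K) ≤ A₀ := by
    intro k x
    rw [ha', hA₀]
    push_cast
    have h1 : house (∏ i, (γ x i : K) ^ (k.1 i : ℕ)) ≤ Real.exp (n * (2 ^ J * (T : ℝ) ^ (2 * n + 4)) * g) := by
      have h2 : house (∏ i, (γ x i : K) ^ (k.1 i : ℕ)) ≤ ∏ _i : ι, Real.exp (S₀ * g) := by
        simp only [house, map_prod]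
        refine (Finset.norm_prod_le _ _).trans ?_
        apply Finset.prod_le_prod
        · intro i _; exact norm_nonneg _
        · intro i _
          have h3 := house_pow_le (γ x i : K) (k.1 i : ℕ)
          refine h3.trans ?_
          calc house (γ x i : K) ^ (k.1 i : ℕ) ≤ Real.exp g ^ (k.1 i : ℕ) :=
                pow_le_pow_left₀ (house_nonneg _) (hγb x i) _
            _ ≤ Real.exp g ^ S₀ := by
                apply pow_le_pow_right₀ (Real.one_le_exp hg0)
                have := (k.1 i).isLt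
                omega
            _ = Real.exp (S₀ * g) := by rw [Real.exp_nat_mul]
      refine h2.trans (le_of_eq ?_)
      rw [Finset.prod_const, Finset.card_univ, ← hn, ← Real.exp_nat_mul, hS₀]
      push_cast
      ring_nf
    have h4 : house ((A x : K) ^ ((k.2 : ℕ) + 1)) ≤ Real.exp (T * H) := by
      refine (house_pow_le _ _).trans ?_
      calc house (A x : K) ^ ((k.2 : ℕ) + 1) ≤ Real.exp H ^ ((k.2 : ℕ) + 1) :=
            pow_le_pow_left₀ (house_nonneg _) (hAb x) _
        _ ≤ Real.exp H ^ T := by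
            apply pow_le_pow_right₀ (Real.one_le_exp hH0)
            have := k.2.isLt
            omega
        _ = Real.exp (T * H) := by rw [Real.exp_nat_mul]
    rw [Real.exp_add]
    refine (house_mul_le _ _).trans ?_
    gcongr
    exact house_nonneg _
  obtain ⟨p, hp0, hpa, hpb⟩ := hsiegel _ _ a' ha'0 (by rw [hcard1]; positivity) hcount A₀ hA₀1 hentry
  set P : ℝ := 2 * Real.log C + (n + 1) * (T : ℝ) ^ (2 * n + 2) +
        n * (2 ^ J * (T : ℝ) ^ (2 * n + 4)) * g + T * H with hP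
  have hpP : ∀ x, house (p x : K) ≤ Real.exp P := by
    intro x
    refine (hpb x).trans ?_
    have e1 : Real.exp P = C * (C * Real.exp N * A₀) := by
      rw [hP, hA₀]
      have : Real.exp (2 * Real.log C) = C * C := by
        rw [two_mul, Real.exp_add, Real.exp_log (by linarith)]
      rw [show 2 * Real.log C + (n + 1) * (T : ℝ) ^ (2 * n + 2) +
        n * (2 ^ J * (T : ℝ) ^ (2 * n + 4)) * g + T * H = 2 * Real.log C + (N +
        (n * (2 ^ J * (T : ℝ) ^ (2 * n + 4)) * g + T * H)) by rw [hN]; ring, Real.exp_add,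
        Real.exp_add, this]
      ring
    rw [e1]
    gcongr
  -- the initial vanishing
  have hinit : ∀ m : ι → ℕ, ∑ i, m i ≤ S₀ → ∀ l ∈ Icc 1 T, auxQ p γ A m l = 0 := by
    intro m hm l hl
    rw [Finset.mem_Icc] at hl
    have hmi : ∀ i, m i < S₀ + 1 := by
      intro i
      have := Finset.single_le_sum (f := m) (fun i _ => Nat.zero_le _) (mem_univ i)
      omega
    have h1 := congrFun hpa (fun i => ⟨m i, hmi i⟩, ⟨l - 1, by omega⟩)
    rw [Matrix.mulVec, dotProduct] at h1
    simp only [ha', Pi.zero_apply] at h1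
    unfold auxQ
    rw [← h1]
    apply Finset.sum_congr rfl
    intro x _
    rw [Nat.sub_add_cancel hl.1]
    ring
  -- the induction
  have hind : ∀ j ≤ J, ∀ m : ι → ℕ, ∑ i, m i ≤ 2 ^ (J - j) * T ^ (2 * n + 4) →
      ∀ l ∈ Icc 1 (T ^ (1 + j)), auxQ p γ A m l = 0 := by
    intro j
    induction j with
    | zero =>
      intro _ m hm l hl
      apply hinit m _ l
      · simpa using hl
      · simpa [hS₀] using hm
    | succ j ih =>
      intro hj
      have ih' := ih (by omega)
      have hsplit : 2 ^ (J - j) * T ^ (2 * n + 4) =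
          2 ^ (J - j - 1) * T ^ (2 * n + 4) + 2 ^ (J - j - 1) * T ^ (2 * n + 4) := by
        obtain ⟨e, he⟩ : ∃ e, J - j = e + 1 := ⟨J - j - 1, by omega⟩
        rw [he, Nat.add_sub_cancel, pow_succ]
        ring
      rw [hsplit] at ih'
      have e2 : J - (j + 1) = J - j - 1 := by omega
      have e3 : 1 + (j + 1) = 2 + j := by ring
      rw [e2, e3]
      refine step σ p γ A (fun i => ω (some i)) ψ hψγ E hE0 hAσ N P g H Ψ hNb hpP hg0 hH0 hΨ0 hγb
        hAb hEb hψb (2 ^ (J - j - 1) * T ^ (2 * n + 4)) (2 ^ (J - j - 1) * T ^ (2 * n + 4))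
        (T ^ (1 + j)) (T ^ (2 + j)) (Nat.pow_le_pow_right (by omega) (by omega)) ih' ?_
      have := num_ineq n J j T (by omega) d B₀ C hd1 hB1 hC1 hT2 hT3 hT4
      push_cast
      exact this
  -- conclusion
  have hlast := hind J le_rfl
  rw [Nat.sub_self, pow_zero, one_mul] at hlast
  have hbigT : Fintype.card (Option ι → Fin (L + 1)) ≤ T ^ (1 + J) := by
    rw [hcardΛ]
    calc (L + 1) ^ (n + 1) ≤ (T ^ (2 * n + 3)) ^ (n + 1) := by
          gcongr
          rw [hL]
          calc T ^ (2 * n + 2) + 1 ≤ T ^ (2 * n + 2) + T ^ (2 * n + 2) := by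
                have := Nat.one_le_pow (2 * n + 2) T (by omega)
                omega
            _ = T ^ (2 * n + 2) * 2 := by ring
            _ ≤ T ^ (2 * n + 2) * T := by gcongr
            _ = T ^ (2 * n + 3) := by ring
      _ = T ^ J := by rw [← pow_mul]
      _ ≤ T ^ (1 + J) := Nat.pow_le_pow_right (by omega) (by omega)
  have hLS : L ≤ T ^ (2 * n + 4) := Nat.pow_le_pow_right (by omega) (by omega)
  have hfin := final_step L ω hω ψ (fun x => rfl) (fun x => σ (p x : K)) (T ^ (1 + J))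
    (T ^ (2 * n + 4)) hbigT hLS (by
      intro j hj l hl
      have h1 := step_deriv σ p γ A (fun i => ω (some i)) ψ hψγ E hE0 hAσ (T ^ (2 * n + 4))
        (T ^ (1 + J)) hlast l hl j (fun _ => 0) (by simpa using hj)
      simpa [expPoly] using h1)
  apply hp0
  funext x
  have h1 := hfin x
  have h2 : ((p x : 𝓞 K) : K) = 0 := (map_eq_zero σ).1 h1
  exact_mod_cast h2

end Pool.Agent.H297R2
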