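import Mathlib
import Pool.Agent.H297R2.Baker

namespace Pool.Agent.H297R2

open NumberField Complex Finset

/-- **Baker's theorem** (homogeneous form): logarithms of algebraic numbers which are linearly
independent over `ℚ` satisfy no nontrivial linear relation with algebraic coefficients. -/
theorem baker {ι : Type} [Fintype ι] (ω : ι → ℂ) (halg : ∀ i, IsAlgebraic ℚ (cexp (ω i)))
    (hω : LinearIndependent ℚ ω) (c : ι → ℂ) (hc : ∀ i, IsAlgebraic ℚ (c i))
    (hsum : ∑ i, c i * ω i = 0) : ∀ i, c i = 0 := by
  classical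
  by_contra hcon
  push Not at hcon
  obtain ⟨i₀, hi₀⟩ := hcon
  -- normalised coefficients
  set β : {i // i ≠ i₀} → ℂ := fun i => -c i / c i₀ with hβ
  have hβalg : ∀ i, IsAlgebraic ℚ (β i) := by
    intro i
    rw [hβ]
    simp only [div_eq_mul_inv]
    exact ((hc _).neg).mul (hc _).inv
  have hrel : ω i₀ = ∑ i, β i * ω i := by
    have h1 : ∑ i, c i * ω i = c i₀ * ω i₀ + ∑ i : {i // i ≠ i₀}, c i * ω i := by
      rw [← Finset.add_sum_erase _ _ (mem_univ i₀)]
      congr 1
      rw [← Finset.sum_subtype (univ.erase i₀) (by simp) (fun i => c i * ω i)]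
    rw [h1] at hsum
    have h2 : ∑ i, β i * ω i = -(∑ i : {i // i ≠ i₀}, c i * ω i) / c i₀ := by
      rw [hβ, eq_div_iff hi₀, Finset.sum_mul, ← Finset.sum_neg_distrib]
      apply Finset.sum_congr rfl
      intro i _
      field_simp
    rw [h2, eq_div_iff hi₀]
    linear_combination hsum
  -- clear denominators
  have hβZ : ∀ i, IsAlgebraic ℤ (β i) := fun i => (IsFractionRing.isAlgebraic_iff ℤ ℚ ℂ).2 (hβalg i)
  choose D₁ hD₁ hD₁' using fun i => (hβZ i).exists_integral_multiple
  set D : ℤ := ∏ i, D₁ i with hD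
  have hD0 : D ≠ 0 := by rw [hD, Finset.prod_ne_zero_iff]; exact fun i _ => hD₁ i
  have hDβ : ∀ i, IsIntegral ℤ (D • β i) := by
    intro i
    rw [hD, ← Finset.prod_erase_mul _ _ (mem_univ i), mul_smul]
    exact (hD₁' i).smul _
  -- new family
  set ω' : Option {i // i ≠ i₀} → ℂ := fun k => k.elim ((D : ℂ) * ω i₀) (fun i => ω i) with hω'
  have hω'li : LinearIndependent ℚ ω' := by
    rw [Fintype.linearIndependent_iff] at hω ⊢
    intro g hg
    rw [Fintype.sum_option] at hg
    simp only [hω', Option.elim] at hg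
    have h1 := hω (fun i => if h : i = i₀ then g none * D else g (some ⟨i, h⟩)) (by
      rw [← Finset.add_sum_erase _ _ (mem_univ i₀)]
      rw [Finset.sum_subtype (p := fun i => i ≠ i₀) (univ.erase i₀) (by simp)]
      simp only [dite_true]
      rw [← hg]
      congr 1
      · simp only [Algebra.smul_def]
        push_cast
        simp
        ring
      · apply Finset.sum_congr rfl
        intro i _
        rw [dif_neg i.2])
    intro k
    rcases k with _ | i
    · have h2 := h1 i₀
      simp only [dite_true] at h2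
      have hDq : (D : ℚ) ≠ 0 := by exact_mod_cast hD0
      rcases mul_eq_zero.1 h2 with h3 | h3
      · exact h3
      · exact absurd h3 hDq
    · have h2 := h1 i
      rw [dif_neg i.2] at h2
      exact h2
  have hω'alg : ∀ k, IsAlgebraic ℚ (cexp (ω' k)) := by
    intro k
    rcases k with _ | i
    · simp only [hω', Option.elim]
      rw [Complex.exp_int_mul]
      rcases D with m | m
      · rw [Int.ofNat_eq_natCast, zpow_natCast]; exact (halg i₀).pow _
      · rw [zpow_negSucc]; exact ((halg i₀).pow _).inv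
    · exact halg i
  -- the number field
  set S : Set ℂ := Set.range (fun i => D • β i) ∪ Set.range (fun k => cexp (ω' k)) with hS
  have hSfin : Finite S := by
    rw [hS]; exact Set.Finite.to_subtype ((Set.finite_range _).union (Set.finite_range _))
  have hSint : ∀ x ∈ S, IsIntegral ℚ x := by
    intro x hx
    rcases hx with ⟨i, rfl⟩ | ⟨k, rfl⟩
    · exact (hDβ i).tower_top
    · exact (hω'alg k).isIntegral
  have hfd : FiniteDimensional ℚ (IntermediateField.adjoin ℚ S) :=
    IntermediateField.finiteDimensional_adjoin hSint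
  have hnf : NumberField (IntermediateField.adjoin ℚ S) := { to_charZero := inferInstance, to_finiteDimensional := hfd }
  set K := IntermediateField.adjoin ℚ S with hK
  have hmem : ∀ x ∈ S, x ∈ K := fun x hx => IntermediateField.subset_adjoin ℚ S hx
  have hm1 : ∀ i, D • β i ∈ K := fun i => hmem _ (Or.inl ⟨i, rfl⟩)
  have hm2 : ∀ k, cexp (ω' k) ∈ K := fun k => hmem _ (Or.inr ⟨k, rfl⟩)
  have hint : ∀ i, IsIntegral ℤ (⟨D • β i, hm1 i⟩ : K) := by
    intro i
    have h1 := hDβ i
    exact (isIntegral_algHom_iff (K.val.restrictScalars ℤ) (K.val.injective)).1 h1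
  refine baker_core (K := K) (K.val : K →+* ℂ) ω' hω'li (fun i => ⟨⟨D • β i, hm1 i⟩, hint i⟩) ?_
    (fun k => ⟨cexp (ω' k), hm2 k⟩) ?_
  · simp only [hω', Option.elim]
    rw [hrel, Finset.mul_sum]
    apply Finset.sum_congr rfl
    intro i _
    simp [zsmul_eq_mul]
    ring
  · intro k
    rfl

end Pool.Agent.H297R2
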