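import Mathlib

namespace Pool.Agent.H297R2

open Polynomial Bivariate

section

variable {κ L : Type*} [Field κ] [Field L] [Algebra κ L]

/-- `y` is algebraic of degree `≤ d` over `κ(x)`, in polynomial form: there is a nonzero
`P ∈ κ[X][Y]` of degree `≤ d` in `Y` (and any degree in `X`) with `P(x, y) = 0`. -/
def DegLe (κ : Type*) {L : Type*} [Field κ] [Field L] [Algebra κ L] (d : ℕ) (x y : L) : Prop :=
  ∃ P : κ[X][Y], P ≠ 0 ∧ P.natDegree ≤ d ∧ aevalAeval x y P = 0

theorem aevalAeval_eq_eval₂ (x y : L) (P : κ[X][Y]) :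
    aevalAeval x y P = P.eval₂ (aeval x : κ[X] →ₐ[κ] L).toRingHom y := by
  induction P using Polynomial.induction_on' with
  | add p q hp hq => rw [map_add, hp, hq, eval₂_add]
  | monomial n a =>
    rw [eval₂_monomial, ← C_mul_X_pow_eq_monomial, map_mul, map_pow, aevalAeval_Y, aevalAeval_C]
    rfl

theorem coeff_swap (P : κ[X][Y]) (i j : ℕ) : ((swap P).coeff i).coeff j = (P.coeff j).coeff i := by
  induction P using Polynomial.induction_on' with
  | add p q hp hq => simp only [map_add, coeff_add, hp, hq]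
  | monomial n a =>
    induction a using Polynomial.induction_on' with
    | add p q hp hq => simp only [map_add, coeff_add, hp, hq]
    | monomial m r =>
      rw [swap_monomial_monomial]
      simp only [coeff_monomial]
      by_cases h1 : m = i <;> by_cases h2 : n = j <;> simp [h1, h2, coeff_monomial]

theorem natDegree_coeff_le (P : κ[X][Y]) (j : ℕ) : (P.coeff j).natDegree ≤ (swap P).natDegree := by
  rw [natDegree_le_iff_coeff_eq_zero]
  intro N hN
  rw [← coeff_swap]
  rw [coeff_eq_zero_of_natDegree_lt hN, coeff_zero]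

theorem natDegree_swap_le (P : κ[X][Y]) (e : ℕ) (h : ∀ j, (P.coeff j).natDegree ≤ e) :
    (swap P).natDegree ≤ e := by
  rw [natDegree_le_iff_coeff_eq_zero]
  intro N hN
  ext j
  rw [coeff_swap, coeff_zero]
  exact coeff_eq_zero_of_natDegree_lt (lt_of_le_of_lt (h j) hN)

theorem swap_ne_zero {P : κ[X][Y]} (h : P ≠ 0) : swap P ≠ 0 := by
  intro h0
  apply h
  rw [← swap_swap_apply P, h0, map_zero]

theorem aeval_injective_of_transcendental {x : L} (hx : Transcendental κ x) :
    Function.Injective (aeval x : κ[X] →ₐ[κ] L) :=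
  transcendental_iff_injective.1 hx

/-- An irreducible relation divides all relations. -/
theorem irreducible_dvd (x y : L) (hx : Transcendental κ x) (P Q : κ[X][Y]) (hP : Irreducible P)
    (hPxy : aevalAeval x y P = 0) (hQxy : aevalAeval x y Q = 0) : P ∣ Q := by
  have hinj := aeval_injective_of_transcendental hx
  have hdeg : P.natDegree ≠ 0 := by
    intro h0
    rw [natDegree_eq_zero] at h0
    obtain ⟨p, rfl⟩ := h0
    rw [aevalAeval_C] at hPxy
    have : p = 0 := hinj (by rw [hPxy, map_zero])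
    rw [this, C_0] at hP
    exact hP.ne_zero rfl
  have hprim : P.IsPrimitive := hP.isPrimitive hdeg
  have hirr := (hprim.irreducible_iff_irreducible_map_fraction_map (K := FractionRing κ[X])).1 hP
  rw [hprim.dvd_iff_fraction_map_dvd_fraction_map (K := FractionRing κ[X])]
  by_contra hnd
  have hcop := (hirr.coprime_iff_not_dvd).2 hnd
  obtain ⟨a, b, hab⟩ := hcop
  set g : FractionRing κ[X] →+* L := IsFractionRing.lift (A := κ[X])
    (g := (aeval x : κ[X] →ₐ[κ] L).toRingHom) hinj with hg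
  have hcomp : g.comp (algebraMap κ[X] (FractionRing κ[X])) = (aeval x : κ[X] →ₐ[κ] L).toRingHom := by
    apply RingHom.ext
    intro p
    rw [hg]
    exact IsFractionRing.lift_algebraMap hinj p
  have h1 : ∀ R : κ[X][Y], (R.map (algebraMap κ[X] (FractionRing κ[X]))).eval₂ g y =
      aevalAeval x y R := by
    intro R
    rw [eval₂_map, hcomp, aevalAeval_eq_eval₂]
  have h2 := congrArg (fun R => R.eval₂ g y) hab
  simp only [eval₂_add, eval₂_mul, h1, hPxy, hQxy, mul_zero, add_zero, eval₂_one] at h2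
  exact zero_ne_one h2

/-- Simultaneous control of both degrees. -/
theorem simul (x y : L) (hx : Transcendental κ x) (d e : ℕ) (h1 : DegLe κ d x y)
    (h2 : DegLe κ e y x) :
    ∃ P : κ[X][Y], P ≠ 0 ∧ P.natDegree ≤ d ∧ (swap P).natDegree ≤ e ∧ aevalAeval x y P = 0 := by
  obtain ⟨P₁, hP₁0, hP₁d, hP₁⟩ := h1
  obtain ⟨P₂, hP₂0, hP₂d, hP₂⟩ := h2
  have hP₂' : aevalAeval x y (swap P₂) = 0 := by rw [aevalAeval_swap, hP₂]
  -- an irreducible factor
  obtain ⟨P, hP, hPP₁, hPxy⟩ : ∃ P, Irreducible P ∧ P ∣ P₁ ∧ aevalAeval x y P = 0 := by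
    have hk : ∀ Q : κ[X][Y], Q ≠ 0 → aevalAeval x y Q = 0 →
        ∃ P, Irreducible P ∧ P ∣ Q ∧ aevalAeval x y P = 0 := by
      intro Q
      refine WfDvdMonoid.induction_on_irreducible Q ?_ ?_ ?_
      · intro h; exact absurd rfl h
      · intro u hu _ h0
        obtain ⟨v, hv⟩ := hu.exists_right_inv
        have := congrArg (aevalAeval x y) hv
        rw [map_mul, h0, zero_mul, map_one] at this
        exact absurd this zero_ne_one
      · intro a i ha hi ih _ h0
        rw [map_mul] at h0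
        rcases mul_eq_zero.1 h0 with h3 | h3
        · exact ⟨i, hi, Dvd.intro _ rfl, h3⟩
        · obtain ⟨P, hP, hPa, hP0⟩ := ih ha h3
          exact ⟨P, hP, hPa.trans (Dvd.intro_left _ rfl), hP0⟩
    exact hk P₁ hP₁0 hP₁
  refine ⟨P, hP.ne_zero, (natDegree_le_of_dvd hPP₁ hP₁0).trans hP₁d, ?_, hPxy⟩
  have hdvd := irreducible_dvd x y hx P (swap P₂) hP hPxy hP₂'
  have h3 : swap P ∣ P₂ := by
    have := map_dvd (swap (R := κ)) hdvd
    rwa [swap_swap_apply] at this
  exact (natDegree_le_of_dvd h3 hP₂0).trans hP₂d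

theorem DegLe.mono {d e : ℕ} (hde : d ≤ e) {x y : L} (h : DegLe κ d x y) : DegLe κ e x y := by
  obtain ⟨P, h1, h2, h3⟩ := h
  exact ⟨P, h1, h2.trans hde, h3⟩

theorem DegLe.neg {d : ℕ} {x y : L} (h : DegLe κ d x y) : DegLe κ d x (-y) := by
  obtain ⟨P, h1, h2, h3⟩ := h
  refine ⟨P.comp (-X), ?_, ?_, ?_⟩
  · intro h0
    apply h1
    have := congrArg (fun Q => Q.comp (-X)) h0
    simpa using this
  · refine (natDegree_comp_le).trans ?_
    simpa using h2
  · rw [aevalAeval_eq_eval₂] at h3 ⊢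
    rw [eval₂_comp]
    simpa using h3

theorem DegLe.add_aeval {d : ℕ} {x y : L} (h : DegLe κ d x y) (p : κ[X]) :
    DegLe κ d x (y + aeval x p) := by
  obtain ⟨P, h1, h2, h3⟩ := h
  refine ⟨taylor (-p) P, ?_, ?_, ?_⟩
  · rwa [Ne, taylor_eq_zero]
  · rwa [natDegree_taylor]
  · rw [aevalAeval_eq_eval₂] at h3 ⊢
    rw [taylor_apply, eval₂_comp]
    have : eval₂ (aeval x : κ[X] →ₐ[κ] L).toRingHom (y + aeval x p) (X + C (-p)) = y := by
      simp
    rw [this]
    exact h3

theorem DegLe.add_self {d : ℕ} {x y : L} (h : DegLe κ d x y) : DegLe κ d x (y + x) := by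
  simpa using h.add_aeval X

theorem DegLe.sub_self {d : ℕ} {x y : L} (h : DegLe κ d x y) : DegLe κ d x (y - x) := by
  simpa [sub_eq_add_neg] using h.add_aeval (-X)

theorem aevalAeval_eq_eval₂' {A : Type*} [CommRing A] [Algebra κ A] (x y : A) (P : κ[X][Y]) :
    aevalAeval x y P = P.eval₂ (aeval x : κ[X] →ₐ[κ] A).toRingHom y := by
  induction P using Polynomial.induction_on' with
  | add p q hp hq => rw [map_add, hp, hq, eval₂_add]
  | monomial n a =>
    rw [eval₂_monomial, ← C_mul_X_pow_eq_monomial, map_mul, map_pow, aevalAeval_Y, aevalAeval_C]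
    rfl

/-- The substitution `P(A, B) ↦ P(A, A + W)`. -/
theorem subst_deg {a b : L} (P : κ[X][Y]) (hP0 : P ≠ 0) (d e : ℕ) (hd : P.natDegree ≤ d)
    (he : (swap P).natDegree ≤ e) (hP : aevalAeval a b P = 0) : DegLe κ (d + e) (b - a) a := by
  refine ⟨aevalAeval (A := κ[X][Y]) Y (Y + C X) P, ?_, ?_, ?_⟩
  · intro h0
    apply hP0
    have h1 : aevalAeval (A := κ[X][Y]) (Y - C X) (C X) (aevalAeval (A := κ[X][Y]) Y (Y + C X) P) =
        P := by
      have h2 : (aevalAeval (R := κ) (A := κ[X][Y]) (Y - C X) (C X)).comp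
          (aevalAeval (R := κ) (A := κ[X][Y]) Y (Y + C X)) = AlgHom.id κ κ[X][Y] := by
        ext n m <;> simp
      exact DFunLike.congr_fun h2 P
    rw [h0, map_zero] at h1
    exact h1.symm
  · rw [aevalAeval_eq_eval₂', eval₂_eq_sum_range]
    apply natDegree_sum_le_of_forall_le
    intro j hj
    rw [Finset.mem_range] at hj
    refine (natDegree_mul_le).trans ?_
    have h1 : ((aeval (Y : κ[X][Y]) : κ[X] →ₐ[κ] κ[X][Y]).toRingHom (P.coeff j)).natDegree ≤ e := by
      have h2 : (aeval (Y : κ[X][Y]) : κ[X] →ₐ[κ] κ[X][Y]).toRingHom (P.coeff j) =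
          (P.coeff j).map C := by
        have := aeval_X_left_eq_map (R := κ) (S := κ[X]) (P.coeff j)
        exact this
      rw [h2]
      exact (natDegree_map_le).trans ((natDegree_coeff_le P j).trans he)
    have h3 : ((Y + C X : κ[X][Y]) ^ j).natDegree ≤ d := by
      refine (natDegree_pow_le).trans ?_
      rw [natDegree_X_add_C, mul_one]
      omega
    omega
  · have h2 : (aevalAeval (R := κ) (A := L) (b - a) a).comp
        (aevalAeval (R := κ) (A := κ[X][Y]) Y (Y + C X)) = aevalAeval a b := by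
      ext n m <;> simp
    have := DFunLike.congr_fun h2 P
    rw [AlgHom.comp_apply] at this
    rw [this, hP]

end

end Pool.Agent.H297R2
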