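import Mathlib
import Pool.Agent.H297R2.BiDeg

namespace Pool.Agent.H297R2

open Polynomial Bivariate IntermediateField
open scoped IntermediateField.algebraAdjoinAdjoin

section

variable {κ L : Type*} [Field κ] [Field L] [Algebra κ L]

/-- A relation `P(x, y) = 0` gives algebraicity over any field containing `x`. -/
theorem DegLe.minpoly_le {d : ℕ} {x y : L} (hx : Transcendental κ x) (h : DegLe κ d x y)
    (E : Type*) [Field E] [Algebra κ E] [Algebra E L] [IsScalarTower κ E L] (x' : E)
    (hx' : algebraMap E L x' = x) : IsAlgebraic E y ∧ (minpoly E y).natDegree ≤ d := by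
  obtain ⟨P, h1, h2, h3⟩ := h
  set f : κ[X] →+* E := (aeval x' : κ[X] →ₐ[κ] E).toRingHom with hf
  have hcomp : (algebraMap E L).comp f = (aeval x : κ[X] →ₐ[κ] L).toRingHom := by
    apply RingHom.ext
    intro p
    rw [hf]
    simp only [RingHom.comp_apply, AlgHom.toRingHom_eq_coe, RingHom.coe_coe]
    rw [← hx', aeval_algebraMap_apply]
  have hinj : Function.Injective f := by
    intro p q hpq
    apply aeval_injective_of_transcendental hx
    have := congrArg (algebraMap E L) hpq
    have h4 := fun p => RingHom.congr_fun hcomp p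
    simp only [RingHom.comp_apply, AlgHom.toRingHom_eq_coe, RingHom.coe_coe] at h4
    rwa [h4, h4] at this
  have hne : P.map f ≠ 0 := by
    rwa [Ne, Polynomial.map_eq_zero_iff hinj]
  have hroot : aeval y (P.map f) = 0 := by
    rw [aeval_def, eval₂_map, hcomp, ← aevalAeval_eq_eval₂]
    exact h3
  refine ⟨⟨P.map f, hne, hroot⟩, ?_⟩
  exact (natDegree_le_of_dvd (minpoly.dvd E y hroot) hne).trans (natDegree_map_le.trans h2)

theorem degLe_of_minpoly {d : ℕ} {x y : L} (halg : IsAlgebraic κ⟮x⟯ y)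
    (hd : (minpoly κ⟮x⟯ y).natDegree ≤ d) : DegLe κ d x y := by
  classical
  set p := minpoly κ⟮x⟯ y with hp
  have hp0 : p ≠ 0 := minpoly.ne_zero halg.isIntegral
  have hpy : aeval y p = 0 := minpoly.aeval _ _
  set R := Algebra.adjoin κ {x} with hR
  have hfr : IsFractionRing R κ⟮x⟯ := inferInstance
  set q : R[X] := IsLocalization.integerNormalization (nonZeroDivisors R) p with hq
  obtain ⟨b, hb, hbp⟩ := IsLocalization.integerNormalization_spec (nonZeroDivisors R) p
  have hq0 : q ≠ 0 := by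
    rw [hq, Ne, IsLocalization.integerNormalization_eq_zero_iff le_rfl]
    exact hp0
  have hqd : q.natDegree ≤ d := by
    refine le_trans ?_ hd
    apply natDegree_le_natDegree
    have := IsLocalization.integerNormalization_support (nonZeroDivisors R) p
    exact Finset.sup_mono this
  -- lift to κ[X]
  set f : κ[X] →ₐ[κ] R := aeval (⟨x, Algebra.self_mem_adjoin_singleton κ x⟩ : R) with hf
  have hfs : Function.Surjective f := by
    intro r
    obtain ⟨r, hr⟩ := r
    have hr' := hr
    rw [hR, Algebra.adjoin_singleton_eq_range_aeval] at hr'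
    obtain ⟨s, hs⟩ := hr'
    refine ⟨s, Subtype.ext ?_⟩
    rw [hf]
    simp only at hs ⊢
    rw [← hs]
    have := aeval_algebraMap_apply (A := R) L (⟨x, Algebra.self_mem_adjoin_singleton κ x⟩ : R) s
    exact this.symm
  have hql : q ∈ lifts (f : κ[X] →+* R) := by
    rw [lifts_iff_coeff_lifts]
    intro n
    obtain ⟨s, hs⟩ := hfs (q.coeff n)
    exact ⟨s, hs⟩
  obtain ⟨P, hPq, hPd⟩ := exists_degree_eq_of_mem_lifts hql
  refine ⟨P, ?_, ?_, ?_⟩
  · rintro rfl
    rw [Polynomial.map_zero] at hPq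
    exact hq0 hPq.symm
  · rw [natDegree_eq_of_degree_eq hPd]; exact hqd
  · rw [aevalAeval_eq_eval₂]
    have hcomp : (algebraMap R L).comp (f : κ[X] →+* R) = (aeval x : κ[X] →ₐ[κ] L).toRingHom := by
      apply RingHom.ext
      intro s
      simp only [RingHom.comp_apply, AlgHom.toRingHom_eq_coe, RingHom.coe_coe]
      rw [hf]
      have := aeval_algebraMap_apply (A := R) L (⟨x, Algebra.self_mem_adjoin_singleton κ x⟩ : R) s
      exact this.symm
    rw [← hcomp, ← eval₂_map, hPq]
    have h2 : (algebraMap R L) = (algebraMap κ⟮x⟯ L).comp (algebraMap R κ⟮x⟯) :=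
      IsScalarTower.algebraMap_eq R κ⟮x⟯ L
    rw [h2, ← eval₂_map, hbp, ← aeval_def, Algebra.smul_def, map_mul, hpy, mul_zero]

theorem DegLe.trans {d e : ℕ} {x y z : L} (hx : Transcendental κ x) (hy : Transcendental κ y)
    (h1 : DegLe κ d x y) (h2 : DegLe κ e y z) : DegLe κ (d * e) x z := by
  obtain ⟨halg1, hd1⟩ := h1.minpoly_le hx κ⟮x⟯ (AdjoinSimple.gen κ x)
    (AdjoinSimple.algebraMap_gen κ x)
  set E₀ := κ⟮x⟯ with hE₀
  set E₁ := E₀⟮y⟯ with hE₁
  have hfd1 : FiniteDimensional E₀ E₁ := adjoin.finiteDimensional halg1.isIntegral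
  have hfr1 : Module.finrank E₀ E₁ ≤ d := by
    rw [hE₁, adjoin.finrank halg1.isIntegral]; exact hd1
  have hst : IsScalarTower κ E₁ L := IsScalarTower.of_algebraMap_eq (fun _ => rfl)
  obtain ⟨halg2, hd2⟩ := h2.minpoly_le hy E₁ (AdjoinSimple.gen E₀ y)
    (AdjoinSimple.algebraMap_gen E₀ y)
  set E₂ := E₁⟮z⟯ with hE₂
  have hfd2 : FiniteDimensional E₁ E₂ := adjoin.finiteDimensional halg2.isIntegral
  have hfr2 : Module.finrank E₁ E₂ ≤ e := by
    rw [hE₂, adjoin.finrank halg2.isIntegral]; exact hd2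
  have hfd3 : FiniteDimensional E₀ E₂ := FiniteDimensional.trans E₀ E₁ E₂
  have hfr3 : Module.finrank E₀ E₂ ≤ d * e := by
    rw [← Module.finrank_mul_finrank E₀ E₁ E₂]
    exact Nat.mul_le_mul hfr1 hfr2
  set z' : E₂ := AdjoinSimple.gen E₁ z with hz'
  have hz'z : algebraMap E₂ L z' = z := AdjoinSimple.algebraMap_gen E₁ z
  have hst2 : IsScalarTower E₀ E₂ L := IsScalarTower.of_algebraMap_eq (fun _ => rfl)
  have hint : IsIntegral E₀ z' := Algebra.IsIntegral.isIntegral z'
  have hmin : minpoly E₀ z = minpoly E₀ z' := by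
    rw [← hz'z]
    exact minpoly.algebraMap_eq (algebraMap E₂ L).injective z'
  apply degLe_of_minpoly
  · rw [← hz'z]
    exact (hint.map (IsScalarTower.toAlgHom E₀ E₂ L)).isAlgebraic
  · rw [hmin]
    exact (minpoly.natDegree_le z').trans hfr3

end

end Pool.Agent.H297R2
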