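import Mathlib

namespace Pool.Agent.H297R2

open Polynomial

/-- Functions all of whose `d+1`-fold differences vanish. -/
def DegLE {V κ : Type*} [AddCommGroup V] [CommRing κ] : ℕ → (V → κ) → Prop
  | 0, f => ∃ c, f = fun _ => c
  | (d + 1), f => ∀ u, DegLE d (fun x => f (x + u) - f x)

/-- Functions which are polynomial along lines. -/
def LinePoly {V κ : Type*} [AddCommGroup V] [CommRing κ] [Module κ V] (f : V → κ) : Prop :=
  ∀ x u, ∃ p : κ[X], ∀ s : κ, f (x + s • u) = p.eval s

section Deg

variable {V κ : Type*} [AddCommGroup V] [CommRing κ]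

theorem DegLE.const (d : ℕ) : ∀ c : κ, DegLE d (fun _ : V => c) := by
  induction d with
  | zero => intro c; exact ⟨c, rfl⟩
  | succ d ih => intro c u; simpa using ih 0

theorem DegLE.succ {d : ℕ} : ∀ {f : V → κ}, DegLE d f → DegLE (d + 1) f := by
  induction d with
  | zero =>
    rintro f ⟨c, rfl⟩ u
    exact ⟨0, by simp⟩
  | succ d ih => intro f hf u; exact ih (hf u)

theorem DegLE.mono {d e : ℕ} (h : d ≤ e) {f : V → κ} (hf : DegLE d f) : DegLE e f := by
  induction e, h using Nat.le_induction with
  | base => exact hf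
  | succ e _ ih => exact ih.succ

theorem DegLE.add {d : ℕ} : ∀ {f g : V → κ}, DegLE d f → DegLE d g → DegLE d (fun x => f x + g x) := by
  induction d with
  | zero =>
    rintro f g ⟨c, rfl⟩ ⟨c', rfl⟩
    exact ⟨c + c', rfl⟩
  | succ d ih =>
    intro f g hf hg u
    have := ih (hf u) (hg u)
    convert this using 2
    ring

theorem DegLE.const_mul {d : ℕ} (a : κ) : ∀ {f : V → κ}, DegLE d f → DegLE d (fun x => a * f x) := by
  induction d with
  | zero =>
    rintro f ⟨c, rfl⟩
    exact ⟨a * c, rfl⟩
  | succ d ih =>
    intro f hf u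
    have := ih (hf u)
    convert this using 2
    ring

theorem DegLE.shift {d : ℕ} (v : V) : ∀ {f : V → κ}, DegLE d f → DegLE d (fun x => f (x + v)) := by
  induction d with
  | zero =>
    rintro f ⟨c, rfl⟩
    exact ⟨c, rfl⟩
  | succ d ih =>
    intro f hf u
    have := ih (hf u)
    convert this using 2
    rw [add_right_comm]

theorem DegLE.mul_aux (n : ℕ) : ∀ {d e : ℕ} {f g : V → κ}, d + e = n → DegLE d f → DegLE e g →
    DegLE n (fun x => f x * g x) := by
  induction n with
  | zero =>
    intro d e f g h hf hg
    obtain ⟨rfl, rfl⟩ : d = 0 ∧ e = 0 := by omega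
    obtain ⟨c, rfl⟩ := hf
    obtain ⟨c', rfl⟩ := hg
    exact ⟨c * c', rfl⟩
  | succ n ih =>
    intro d e f g h hf hg
    rcases d with _ | d
    · obtain ⟨c, rfl⟩ := hf
      have : e = n + 1 := by omega
      subst this
      exact hg.const_mul c
    · rcases e with _ | e
      · obtain ⟨c, rfl⟩ := hg
        have : d + 1 = n + 1 := by omega
        rw [this] at hf
        have := hf.const_mul c
        convert this using 2
        ring
      · intro u
        have h1 := ih (d := d) (e := e + 1) (by omega) (hf u) hg
        have h2 := ih (d := d + 1) (e := e) (by omega) (hf.shift u) (hg u)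
        have := h1.add h2
        convert this using 2
        ring

theorem DegLE.mul {d e : ℕ} {f g : V → κ} (hf : DegLE d f) (hg : DegLE e g) :
    DegLE (d + e) (fun x => f x * g x) := DegLE.mul_aux _ rfl hf hg

theorem DegLE.prod {ι : Type*} (s : Finset ι) (d : ℕ) (f : ι → V → κ) (hf : ∀ i ∈ s, DegLE d (f i)) :
    DegLE (s.card * d) (fun x => ∏ i ∈ s, f i x) := by
  classical
  induction s using Finset.induction_on with
  | empty => simp only [Finset.card_empty, zero_mul, Finset.prod_empty]; exact DegLE.const 0 1
  | insert a s ha ih =>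
    rw [Finset.card_insert_of_notMem ha, add_mul, one_mul, add_comm]
    simp only [Finset.prod_insert ha]
    exact (hf a (Finset.mem_insert_self _ _)).mul (ih (fun i hi => hf i (Finset.mem_insert_of_mem hi)))

theorem DegLE.sum {ι : Type*} (s : Finset ι) (d : ℕ) (f : ι → V → κ) (hf : ∀ i ∈ s, DegLE d (f i)) :
    DegLE d (fun x => ∑ i ∈ s, f i x) := by
  classical
  induction s using Finset.induction_on with
  | empty => simp only [Finset.sum_empty]; exact DegLE.const d 0
  | insert a s ha ih =>
    simp only [Finset.sum_insert ha]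
    exact (hf a (Finset.mem_insert_self _ _)).add (ih (fun i hi => hf i (Finset.mem_insert_of_mem hi)))

theorem DegLE.pow {f : V → κ} (hf : DegLE 1 f) (b : ℕ) : DegLE b (fun x => f x ^ b) := by
  induction b with
  | zero => simp only [pow_zero]; exact DegLE.const 0 1
  | succ b ih =>
    simp only [pow_succ]
    exact ih.mul hf

end Deg

section Line

variable {V κ : Type*} [AddCommGroup V] [CommRing κ] [Module κ V]

theorem LinePoly.const (c : κ) : LinePoly (fun _ : V => c) := fun _ _ => ⟨C c, by simp⟩

theorem LinePoly.add {f g : V → κ} (hf : LinePoly f) (hg : LinePoly g) :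
    LinePoly (fun x => f x + g x) := by
  intro x u
  obtain ⟨p, hp⟩ := hf x u
  obtain ⟨q, hq⟩ := hg x u
  exact ⟨p + q, fun s => by simp only [hp, hq, eval_add]⟩

theorem LinePoly.mul {f g : V → κ} (hf : LinePoly f) (hg : LinePoly g) :
    LinePoly (fun x => f x * g x) := by
  intro x u
  obtain ⟨p, hp⟩ := hf x u
  obtain ⟨q, hq⟩ := hg x u
  exact ⟨p * q, fun s => by simp only [hp, hq, eval_mul]⟩

theorem LinePoly.sum {ι : Type*} (s : Finset ι) (f : ι → V → κ) (hf : ∀ i ∈ s, LinePoly (f i)) :
    LinePoly (fun x => ∑ i ∈ s, f i x) := by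
  classical
  induction s using Finset.induction_on with
  | empty => simp only [Finset.sum_empty]; exact LinePoly.const 0
  | insert a s ha ih =>
    simp only [Finset.sum_insert ha]
    exact (hf a (Finset.mem_insert_self _ _)).add (ih (fun i hi => hf i (Finset.mem_insert_of_mem hi)))

theorem LinePoly.prod {ι : Type*} (s : Finset ι) (f : ι → V → κ) (hf : ∀ i ∈ s, LinePoly (f i)) :
    LinePoly (fun x => ∏ i ∈ s, f i x) := by
  classical
  induction s using Finset.induction_on with
  | empty => simp only [Finset.prod_empty]; exact LinePoly.const 1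
  | insert a s ha ih =>
    simp only [Finset.prod_insert ha]
    exact (hf a (Finset.mem_insert_self _ _)).mul (ih (fun i hi => hf i (Finset.mem_insert_of_mem hi)))

theorem LinePoly.pow {f : V → κ} (hf : LinePoly f) (b : ℕ) : LinePoly (fun x => f x ^ b) := by
  induction b with
  | zero => simp only [pow_zero]; exact LinePoly.const 1
  | succ b ih =>
    simp only [pow_succ]
    exact ih.mul hf

theorem LinePoly.diff {f : V → κ} (hf : LinePoly f) (v : V) : LinePoly (fun x => f (x + v) - f x) := by
  intro x u
  obtain ⟨p, hp⟩ := hf (x + v) u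
  obtain ⟨q, hq⟩ := hf x u
  refine ⟨p - q, fun s => ?_⟩
  simp only [eval_sub]
  rw [add_right_comm, hp, hq]

theorem DegLE.coord {ι : Type*} (j : ι) : DegLE 1 (fun x : ι → κ => x j) := by
  intro u
  exact ⟨u j, by funext x; simp⟩

theorem LinePoly.coord {ι : Type*} (j : ι) : LinePoly (fun x : ι → κ => x j) := by
  intro x u
  exact ⟨C (x j) + X * C (u j), fun s => by simp; ring⟩

end Line

/-- A function polynomial along lines and invariant under a spanning set of translations is
constant. -/
theorem constant_of_invariant {V κ : Type*} [AddCommGroup V] [Field κ] [CharZero κ] [Module κ V]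
    (f : V → κ) (hf : LinePoly f) {ι : Type*} (β : ι → V)
    (hβ : Submodule.span κ (Set.range β) = ⊤) (hinv : ∀ i x, f (x + β i) = f x) (x y : V) :
    f x = f y := by
  -- invariance under scalar multiples of the generators
  have h1 : ∀ i, ∀ (s : κ) (x : V), f (x + s • β i) = f x := by
    intro i s x
    obtain ⟨p, hp⟩ := hf x (β i)
    have hnat : ∀ m : ℕ, f (x + (m : κ) • β i) = f x := by
      intro m
      induction m with
      | zero => simp
      | succ m ih =>
        push_cast
        rw [add_smul, one_smul, ← add_assoc, hinv, ih]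
    have hroot : ∀ m : ℕ, (p - C (f x)).eval (m : κ) = 0 := by
      intro m
      rw [eval_sub, eval_C, ← hp, hnat, sub_self]
    have hzero : p - C (f x) = 0 := by
      apply Polynomial.eq_zero_of_infinite_isRoot
      apply Set.Infinite.mono (s := Set.range (fun m : ℕ => (m : κ)))
      · rintro _ ⟨m, rfl⟩
        exact hroot m
      · exact Set.infinite_range_of_injective Nat.cast_injective
    rw [hp, sub_eq_zero.1 hzero, eval_C]
  have h2 : ∀ u ∈ Submodule.span κ (Set.range β), ∀ (s : κ) (x : V), f (x + s • u) = f x := by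
    intro u hu
    induction hu using Submodule.span_induction with
    | mem u hu =>
      obtain ⟨i, rfl⟩ := hu
      exact h1 i
    | zero => intro s x; simp
    | add u v _ _ hu hv =>
      intro s x
      rw [smul_add, ← add_assoc, hv, hu]
    | smul a u _ hu =>
      intro s x
      rw [smul_smul, hu]
  have h3 := h2 (x - y) (by rw [hβ]; trivial) 1 y
  rw [one_smul] at h3
  rw [← h3]
  congr 1
  abel

/-- A nonzero polynomial function of degree `≤ d` does not vanish on a cube built from `d`
spanning blocks. -/
theorem cube_nonvanish {V κ : Type*} [AddCommGroup V] [Field κ] [CharZero κ] [Module κ V]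
    {ι : Type*} (d : ℕ) :
    ∀ (f : V → κ), DegLE d f → LinePoly f → (∃ x, f x ≠ 0) → ∀ (β : Fin d → ι → V),
      (∀ g, Submodule.span κ (Set.range (β g)) = ⊤) → ∀ b : V,
      ∃ η : Fin d → Option ι, f (b + ∑ g, (η g).elim 0 (β g)) ≠ 0 := by
  induction d with
  | zero =>
    rintro f ⟨c, rfl⟩ _ ⟨x, hx⟩ β _ b
    exact ⟨Fin.elim0, hx⟩
  | succ d ih =>
    intro f hf hl hne β hβ b
    by_cases h : ∃ i x, f (x + β 0 i) - f x ≠ 0
    · obtain ⟨i, x, hx⟩ := h
      obtain ⟨η, hη⟩ := ih (fun x => f (x + β 0 i) - f x) (hf (β 0 i)) (hl.diff _) ⟨x, hx⟩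
        (fun g => β g.succ) (fun g => hβ _) b
      by_cases h2 : f (b + ∑ g, (η g).elim 0 (β g.succ)) = 0
      · refine ⟨Fin.cons (some i) η, ?_⟩
        rw [Fin.sum_univ_succ]
        simp only [Fin.cons_zero, Fin.cons_succ, Option.elim]
        intro h0
        apply hη
        rw [h2, sub_zero, ← h0]
        congr 1
        rw [add_right_comm]
        exact (add_assoc _ _ _).trans rfl
      · refine ⟨Fin.cons none η, ?_⟩
        rw [Fin.sum_univ_succ]
        simpa using h2
    · push Not at h
      obtain ⟨x, hx⟩ := hne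
      refine ⟨fun _ => none, ?_⟩
      rw [constant_of_invariant f hl (β 0) (hβ 0) (fun i x => sub_eq_zero.1 (h i x)) _ x]
      exact hx

end Pool.Agent.H297R2
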