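import Mathlib
import Pool.Agent.H297R2.NoRel

namespace Pool.Agent.H297R2

open Finset Polynomial Module

/-- monomials of an `Option` family, in the variable-coefficient form -/
theorem prod_option {C σ : Type*} [CommRing C] [Fintype σ] (v : C) (t : σ → C)
    (s : Option σ →₀ ℕ) : ∏ o, (Option.elim o v t) ^ (s o) =
      v ^ (s none) * ∏ i, t i ^ (s (some i)) := by
  rw [Fintype.prod_option]
  rfl

/-- If `t` has no relation of degree `≤ D`, the monomials `t^a X^b` are linearly independent. -/
theorem monomials_indep {κ A σ : Type*} [Field κ] [CommRing A] [Algebra κ A] [Fintype σ] (D : ℕ)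
    (t : σ → A) (ht : NoRel κ D t) (c : Ex (Option σ) D → κ)
    (hc : ∑ s, c s • ((X : A[X]) ^ (s.1 none) * ∏ i, (C (t i)) ^ (s.1 (some i))) = 0) :
    ∀ s, c s = 0 := by
  classical
  intro s₀
  have hdeg : ∀ s : Ex (Option σ) D, (s.1.some).degree ≤ D := by
    intro s
    refine le_trans ?_ s.2
    rw [Finsupp.degree_eq_sum, Finsupp.degree_eq_sum, Fintype.sum_option]
    simp only [Finsupp.some_apply]
    omega
  have h1 : ∑ s ∈ univ.filter (fun s : Ex (Option σ) D => s.1 none = s₀.1 none),
      MvPolynomial.monomial (s.1.some) (c s) = 0 := by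
    apply ht
    · exact totalDegree_sum_monomial_le D _ _ (fun s _ => hdeg s) c
    · have h2 := congrArg (fun p => coeff p (s₀.1 none)) hc
      simp only [finsetSum_coeff, coeff_zero] at h2
      rw [map_sum, Finset.sum_filter]
      refine Eq.trans ?_ h2
      apply Finset.sum_congr rfl
      intro s _
      rw [MvPolynomial.aeval_monomial, Finsupp.prod_fintype _ _ (by simp)]
      simp only [Finsupp.some_apply]
      have h5 : (∏ i, (C (t i) : A[X]) ^ (s.1 (some i))) = C (∏ i, t i ^ (s.1 (some i))) := by
        simp only [map_prod, map_pow]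
      rw [h5, coeff_smul, mul_comm (X ^ _) (C _), coeff_C_mul_X_pow, Algebra.smul_def]
      by_cases h6 : s.1 none = s₀.1 none
      · rw [if_pos h6, if_pos h6.symm]
      · rw [if_neg h6, if_neg (fun h => h6 h.symm), mul_zero]
  have h3 := congrArg (MvPolynomial.coeff s₀.1.some) h1
  rw [MvPolynomial.coeff_sum, MvPolynomial.coeff_zero, Finset.sum_eq_single s₀] at h3
  · simpa using h3
  · intro s hs hne
    rw [MvPolynomial.coeff_monomial, if_neg]
    intro h4
    rw [Finset.mem_filter] at hs
    apply hne
    apply Subtype.ext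
    ext o
    rcases o with _ | i
    · exact hs.2
    · have := DFunLike.congr_fun h4 i
      simpa [Finsupp.some_apply] using this
  · intro h4
    exact absurd (by simp) h4

/-- The evaluation determinant. -/
noncomputable def evalDet {κ σ : Type*} [Field κ] [Fintype σ] (D : ℕ)
    (u : Ex (Option σ) D → σ → κ) (x : Ex (Option σ) D → κ) : κ := by
  classical
  exact Matrix.det (Matrix.of fun (s : Ex (Option σ) D) (j : Ex (Option σ) D) =>
    x j ^ (s.1 none) * ∏ i, u j i ^ (s.1 (some i)))

theorem evalDet_degLE {κ σ : Type*} [Field κ] [Fintype σ] (D : ℕ)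
    (u : Ex (Option σ) D → σ → κ) :
    DegLE (Fintype.card (Ex (Option σ) D) * D) (evalDet D u) := by
  classical
  have : evalDet D u = fun x => ∑ π : Equiv.Perm (Ex (Option σ) D),
      ((Equiv.Perm.sign π : ℤ) : κ) * ∏ j, (x j ^ ((π j).1 none) * ∏ i, u j i ^ ((π j).1 (some i))) := by
    funext x
    unfold evalDet
    rw [Matrix.det_apply']
    rfl
  rw [this]
  apply DegLE.sum
  intro π _
  apply DegLE.const_mul
  have h := DegLE.prod (univ : Finset (Ex (Option σ) D)) D
    (fun j (x : Ex (Option σ) D → κ) => x j ^ ((π j).1 none) * ∏ i, u j i ^ ((π j).1 (some i))) (by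
      intro j _
      have h1 : DegLE ((π j).1 none) (fun x : Ex (Option σ) D → κ => x j ^ ((π j).1 none)) :=
        (DegLE.coord j).pow _
      have h2 : (π j).1 none ≤ D := (Finsupp.le_degree none _).trans (π j).2
      have h3 := (h1.const_mul (∏ i, u j i ^ ((π j).1 (some i)))).mono h2
      convert h3 using 2
      ring)
  rw [Finset.card_univ] at h
  exact h

theorem evalDet_linePoly {κ σ : Type*} [Field κ] [Fintype σ] (D : ℕ)
    (u : Ex (Option σ) D → σ → κ) : LinePoly (evalDet D u) := by
  classical
  have : evalDet D u = fun x => ∑ π : Equiv.Perm (Ex (Option σ) D),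
      ((Equiv.Perm.sign π : ℤ) : κ) * ∏ j, (x j ^ ((π j).1 none) * ∏ i, u j i ^ ((π j).1 (some i))) := by
    funext x
    unfold evalDet
    rw [Matrix.det_apply']
    rfl
  rw [this]
  apply LinePoly.sum
  intro π _
  apply LinePoly.mul (LinePoly.const _)
  apply LinePoly.prod
  intro j _
  exact ((LinePoly.coord j).pow _).mul (LinePoly.const _)

/-- Existence of good evaluation points. -/
theorem exists_eval {κ C σ : Type*} [Field κ] [IsAlgClosed κ] [Field C] [Algebra κ C] [Fintype σ]
    (D : ℕ) (t : σ → C) (ht : NoRel κ D t) {G : Type*} [Fintype G]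
    (w : G → Ex (Option σ) D → C) (hw : ∀ g, LinearIndependent κ (w g)) (U : Set C) (hU : U.Finite)
    (htU : ∀ i, t i ∈ U) (hwU : ∀ g i, w g i ∈ U) :
    ∃ τ : Ex (Option σ) D → (Algebra.adjoin κ U →ₐ[κ] κ),
      (∃ x₀, evalDet D (fun j i => τ j ⟨t i, Algebra.subset_adjoin (htU i)⟩) x₀ ≠ 0) ∧
      ∀ g, Submodule.span κ (Set.range (fun i j => τ j ⟨w g i, Algebra.subset_adjoin (hwU g i)⟩)) = ⊤ := by
  classical
  set A := Algebra.adjoin κ U with hA
  have hAfg : Algebra.FiniteType κ A := by
    rw [← Subalgebra.fg_iff_finiteType]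
    exact ⟨hU.toFinset, by simp [hA]⟩
  set N := Fintype.card (Ex (Option σ) D) with hN
  set tA : σ → A := fun i => ⟨t i, Algebra.subset_adjoin (htU i)⟩ with htA
  set wA : G → Ex (Option σ) D → A := fun g i => ⟨w g i, Algebra.subset_adjoin (hwU g i)⟩ with hwA
  have htA' : NoRel κ D tA := by
    intro P hP hx
    apply ht P hP
    have h1 : MvPolynomial.aeval t P = A.val (MvPolynomial.aeval tA P) :=
      (MvPolynomial.comp_aeval_apply (f := tA) A.val P).symm
    rw [h1, hx, map_zero]
  -- the families
  set fam : Option G → Ex (Option σ) D → A[X] := fun o s =>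
    o.elim ((X : A[X]) ^ (s.1 none) * ∏ i, (Polynomial.C (tA i)) ^ (s.1 (some i)))
      (fun g => Polynomial.C (wA g s)) with hfam
  set W : Option G → Submodule κ A[X] := fun o => Submodule.span κ (Set.range (fam o)) with hW
  have hfin : ∀ o, Module.Finite κ (W o) := fun o =>
    FiniteDimensional.span_of_finite κ (Set.finite_range _)
  obtain ⟨φ, hφ⟩ := exists_points κ A[X] N W (fun o => by
    rw [hW]
    exact finrank_range_le_card (fam o))
  have e : Fin N ≃ Ex (Option σ) D := (Fintype.equivFin _).symm
  -- independence of the families tested at the points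
  have hkey : ∀ o (c : Ex (Option σ) D → κ), (∀ j, ∑ s, c s * φ (e.symm j) (fam o s) = 0) →
      ∑ s, c s • fam o s = 0 := by
    intro o c hc
    apply hφ o
    · apply Submodule.sum_mem
      intro s _
      exact Submodule.smul_mem _ _ (Submodule.subset_span ⟨s, rfl⟩)
    · intro j
      have := hc (e j)
      rw [Equiv.symm_apply_apply] at this
      rw [map_sum, ← this]
      apply Finset.sum_congr rfl
      intro s _
      rw [map_smul, smul_eq_mul]
  let τ : Ex (Option σ) D → (A →ₐ[κ] κ) := fun j => (φ (e.symm j)).comp (Polynomial.CAlgHom)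
  refine ⟨τ, ?_, ?_⟩
  · refine ⟨fun j => φ (e.symm j) X, ?_⟩
    intro hdet
    unfold evalDet at hdet
    rw [← Matrix.exists_vecMul_eq_zero_iff] at hdet
    obtain ⟨c, hc0, hc⟩ := hdet
    apply hc0
    funext s
    refine monomials_indep D tA htA' c ?_ s
    apply hkey none c
    intro j
    have h1 := congrFun hc j
    rw [Matrix.vecMul, dotProduct] at h1
    rw [Pi.zero_apply] at h1
    rw [← h1]
    apply Finset.sum_congr rfl
    intro s _
    rw [hfam]
    simp only [Option.elim, map_mul, map_pow, map_prod, Matrix.of_apply]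
    rfl
  · intro g
    have hli : LinearIndependent κ (fun (i : Ex (Option σ) D) (j : Ex (Option σ) D) => τ j (wA g i)) := by
      rw [Fintype.linearIndependent_iff]
      intro c hc
      have h1 : ∑ s, c s • fam (some g) s = 0 := by
        apply hkey
        intro j
        have h2 := congrFun hc j
        rw [Finset.sum_apply] at h2
        rw [Pi.zero_apply] at h2
        rw [← h2]
        apply Finset.sum_congr rfl
        intro s _
        rfl
      have h2 : ∑ s, c s • w g s = 0 := by
        have h3 : Polynomial.C (∑ s, c s • wA g s) = (0 : A[X]) := by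
          rw [← h1, map_sum]
          apply Finset.sum_congr rfl
          intro s _
          rw [hfam]
          simp only [Option.elim]
          rw [← Polynomial.smul_C]
        have h4 := Polynomial.C_eq_zero.1 h3
        have h5 := congrArg A.val h4
        rw [map_sum, map_zero] at h5
        rw [← h5]
        apply Finset.sum_congr rfl
        intro s _
        rfl
      exact (Fintype.linearIndependent_iff.1 (hw g)) c h2
    apply hli.span_eq_top_of_card_eq_finrank'
    rw [Module.finrank_fintype_fun_eq_card]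

theorem noRel_of_evalDet {κ C σ : Type*} [Field κ] [Field C] [Algebra κ C] [Fintype σ]
    (D : ℕ) (t : σ → C) (U : Set C) (htU : ∀ i, t i ∈ U)
    (τ : Ex (Option σ) D → (Algebra.adjoin κ U →ₐ[κ] κ)) (v : Algebra.adjoin κ U)
    (h : evalDet D (fun j i => τ j ⟨t i, Algebra.subset_adjoin (htU i)⟩) (fun j => τ j v) ≠ 0) :
    NoRel κ D (fun o : Option σ => o.elim (v : C) t) := by
  classical
  rw [noRel_iff]
  intro c hc
  unfold evalDet at h
  have h1 : ∑ s : Ex (Option σ) D, c s • (v ^ (s.1 none) *
      ∏ i, (⟨t i, Algebra.subset_adjoin (htU i)⟩ : Algebra.adjoin κ U) ^ (s.1 (some i))) = 0 := by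
    apply Subtype.ext
    rw [ZeroMemClass.coe_zero, ← hc]
    push_cast
    apply Finset.sum_congr rfl
    intro s _
    rw [prod_option]
  have h2 := Matrix.eq_zero_of_vecMul_eq_zero h (v := c) (by
    funext j
    have h3 := congrArg (τ j) h1
    rw [map_sum, map_zero] at h3
    rw [Pi.zero_apply, ← h3, Matrix.vecMul, dotProduct]
    apply Finset.sum_congr rfl
    intro s _
    simp only [map_smul, map_mul, map_pow, map_prod, Matrix.of_apply, smul_eq_mul])
  intro s
  rw [h2]
  rfl

/-- **No cube is entirely exceptional.** -/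
theorem cube_free (κ C : Type*) [Field κ] [IsAlgClosed κ] [CharZero κ] [Field C] [Algebra κ C]
    (σ : Type*) [Fintype σ] (D : ℕ) : ∃ r : ℕ, ∀ t : σ → C, NoRel κ D t → ∀ (v₀ : C)
    (w : Fin r → C), LinearIndependent κ w →
    ∃ S : Finset (Fin r), NoRel κ D (fun o : Option σ => o.elim (v₀ + ∑ i ∈ S, w i) t) := by
  classical
  set I := Ex (Option σ) D with hI
  set d := Fintype.card I * D with hd
  refine ⟨Fintype.card (Fin d × I), ?_⟩
  intro t ht v₀ w hw
  have e : Fin (Fintype.card (Fin d × I)) ≃ Fin d × I := (Fintype.equivFin _).symm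
  set U : Set C := Set.range t ∪ Set.range w ∪ {v₀} with hU
  have hUf : U.Finite := ((Set.finite_range _).union (Set.finite_range _)).union (Set.finite_singleton _)
  have htU : ∀ i, t i ∈ U := fun i => Or.inl (Or.inl ⟨i, rfl⟩)
  have hwU : ∀ k, w k ∈ U := fun k => Or.inl (Or.inr ⟨k, rfl⟩)
  have hvU : v₀ ∈ U := Or.inr rfl
  obtain ⟨τ, hne, hspan⟩ := exists_eval D t ht (G := Fin d) (fun g i => w (e.symm (g, i)))
    (fun g => hw.comp _ (fun i j h => by
      have := e.symm.injective h
      exact (Prod.mk.inj this).2)) U hUf htU (fun g i => hwU _)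
  set vA : Algebra.adjoin κ U := ⟨v₀, Algebra.subset_adjoin hvU⟩ with hvA
  set wA : Fin (Fintype.card (Fin d × I)) → Algebra.adjoin κ U :=
    fun k => ⟨w k, Algebra.subset_adjoin (hwU k)⟩ with hwA
  obtain ⟨η, hη⟩ := cube_nonvanish d (evalDet D (fun j i => τ j ⟨t i, Algebra.subset_adjoin (htU i)⟩))
    (evalDet_degLE D _) (evalDet_linePoly D _) hne
    (fun g i j => τ j (wA (e.symm (g, i)))) hspan (fun j => τ j vA)
  refine ⟨univ.filter (fun k => η (e k).1 = some (e k).2), ?_⟩
  set S := univ.filter (fun k => η (e k).1 = some (e k).2) with hS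
  have hcoe : v₀ + ∑ i ∈ S, w i = ((vA + ∑ i ∈ S, wA i : Algebra.adjoin κ U) : C) := by
    push_cast
    rfl
  rw [hcoe]
  apply noRel_of_evalDet D t U htU τ
  convert hη using 2
  funext j
  rw [map_add, Pi.add_apply, map_sum]
  congr 1
  rw [Finset.sum_apply, hS, Finset.sum_filter]
  rw [← e.symm.sum_comp]
  rw [Fintype.sum_prod_type]
  apply Finset.sum_congr rfl
  intro g _
  simp only [Equiv.apply_symm_apply]
  rcases hηg : η g with _ | i₀
  · simp
  · rw [Finset.sum_eq_single i₀]
    · simp
    · intro i _ hi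
      rw [if_neg]
      intro h
      exact hi (Option.some.inj h).symm
    · intro h; exact absurd (mem_univ _) h

end Pool.Agent.H297R2
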