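import Mathlib
import Pool.Agent.H297R2.BakerThm
import Pool.Agent.H297R2.CubeFree
import Pool.Agent.H297R2.Dense

namespace Pool.Agent.H297R2

open Finset Complex

/-- Logarithms of distinct primes are linearly independent over `ℚ`. -/
theorem linearIndependent_log_prime {ι : Type*} [Fintype ι] (P : ι → ℕ) (hP : ∀ i, (P i).Prime)
    (hinj : Function.Injective P) : LinearIndependent ℚ (fun i => (Real.log (P i) : ℂ)) := by
  classical
  rw [← LinearIndependent.iff_fractionRing ℤ ℚ, Fintype.linearIndependent_iff]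
  intro c hc j
  have h1 : ∑ i, (c i : ℝ) * Real.log (P i) = 0 := by
    have h2 : ((∑ i, (c i : ℝ) * Real.log (P i) : ℝ) : ℂ) = 0 := by
      rw [← hc]
      push_cast
      apply Finset.sum_congr rfl
      intro i _
      rw [zsmul_eq_mul]
    exact_mod_cast h2
  -- positive and negative parts
  have h3 : ∑ i, (((c i).toNat : ℕ) : ℝ) * Real.log (P i) = ∑ i, (((-c i).toNat : ℕ) : ℝ) * Real.log (P i) := by
    rw [← sub_eq_zero, ← Finset.sum_sub_distrib, ← h1]
    apply Finset.sum_congr rfl
    intro i _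
    rw [← sub_mul]
    congr 1
    have : ((c i).toNat : ℤ) - ((-c i).toNat : ℤ) = c i := by omega
    exact_mod_cast this
  have hpos : ∀ i, (0 : ℝ) < P i := fun i => by exact_mod_cast (hP i).pos
  have h4 : ∀ e : ι → ℕ, ∑ i, (e i : ℝ) * Real.log (P i) = Real.log ((∏ i, P i ^ e i : ℕ) : ℝ) := by
    intro e
    push_cast
    rw [Real.log_prod (fun i _ => (pow_pos (hpos i) _).ne')]
    apply Finset.sum_congr rfl
    intro i _
    rw [Real.log_pow]
  rw [h4, h4] at h3
  have hpp : ∀ e : ι → ℕ, 0 < ∏ i, P i ^ e i := fun e =>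
    Finset.prod_pos (fun i _ => pow_pos (hP i).pos _)
  have h5 : ∏ i, P i ^ (c i).toNat = ∏ i, P i ^ (-c i).toNat := by
    have := Real.log_injOn_pos (Set.mem_Ioi.2 (by exact_mod_cast hpp _)) (Set.mem_Ioi.2 (by exact_mod_cast hpp _)) h3
    exact_mod_cast this
  have h6 : ∀ e : ι → ℕ, (∏ i, P i ^ e i).factorization (P j) = e j := by
    intro e
    rw [Nat.factorization_prod (fun i _ => (pow_pos (hP i).pos _).ne')]
    rw [Finsupp.finsetSum_apply, Finset.sum_eq_single j]
    · rw [(hP j).factorization_pow]; simp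
    · intro i _ hij
      rw [(hP i).factorization_pow, Finsupp.single_apply, if_neg]
      exact fun h => hij (hinj h)
    · intro h; exact absurd (mem_univ _) h
  have h7 := congrArg (fun n => n.factorization (P j)) h5
  simp only [h6] at h7
  omega

/-- The uniform one-variable density theorem. -/
theorem density_one (σ : Type) [Fintype σ] (D : ℕ) (ε : ℝ) (hε : 0 < ε) : ∃ x₀ : ℕ, ∀ x ≥ x₀,
    ∀ t : σ → ℂ, NoRel (algebraicClosure ℚ ℂ) D t → ∀ A : Finset ℕ, A ⊆ Ioc 0 x →
    (∀ n ∈ A, ¬ NoRel (algebraicClosure ℚ ℂ) D (fun o : Option σ => o.elim (Real.log n : ℂ) t)) →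
    (A.card : ℝ) ≤ ε * x := by
  classical
  have hac : IsAlgClosed (algebraicClosure ℚ ℂ) := (algebraicClosure.isAlgClosure ℚ ℂ).isAlgClosed
  obtain ⟨r, hr⟩ := cube_free (algebraicClosure ℚ ℂ) ℂ σ D
  obtain ⟨x₀, hx₀⟩ := dense_cube r ε hε 0
  refine ⟨x₀, fun x hx t ht A hA hbad => ?_⟩
  by_contra hcon
  push Not at hcon
  obtain ⟨a, p, q, ha, hp, hq, hinj, hcube⟩ := hx₀ x hx A hA hcon.le
  -- the family of prime logarithms
  set P : Fin r ⊕ Fin r → ℕ := Sum.elim p q with hPdef
  have hPprime : ∀ i, (P i).Prime := by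
    rintro (i | i)
    · exact (hp i).1
    · exact (hq i).1
  have hli := linearIndependent_log_prime P hPprime hinj
  set w : Fin r → ℂ := fun i => (Real.log (q i) : ℂ) - (Real.log (p i) : ℂ) with hw
  have hwli : LinearIndependent (algebraicClosure ℚ ℂ) w := by
    rw [Fintype.linearIndependent_iff]
    intro c hc
    have h1 := baker (fun i => (Real.log (P i) : ℂ)) (by
      intro i
      rw [← Complex.ofReal_exp, Real.exp_log (by exact_mod_cast (hPprime i).pos)]
      rw [Complex.ofReal_natCast]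
      exact isAlgebraic_natCast _) hli (Sum.elim (fun i => -(c i : ℂ)) (fun i => (c i : ℂ))) (by
      rintro (i | i)
      · exact ((mem_algebraicClosure_iff).1 (c i).2).neg
      · exact (mem_algebraicClosure_iff).1 (c i).2) (by
      rw [Fintype.sum_sum_type, ← hc, ← Finset.sum_add_distrib]
      apply Finset.sum_congr rfl
      intro i _
      simp only [Sum.elim_inl, Sum.elim_inr, hw, hPdef]
      rw [Algebra.smul_def]
      change _ = (c i : ℂ) * _
      ring)
    intro i
    have h2 := h1 (Sum.inr i)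
    simp only [Sum.elim_inr] at h2
    exact_mod_cast h2
  obtain ⟨S, hS⟩ := hr t ht (Real.log ((a * ∏ i, p i : ℕ) : ℝ) : ℂ) w hwli
  apply hbad _ (hcube S)
  have hap : (0 : ℝ) < a := by exact_mod_cast ha
  have hpp : ∀ i, (0 : ℝ) < p i := fun i => by exact_mod_cast (hp i).1.pos
  have hqp : ∀ i, (0 : ℝ) < q i := fun i => by exact_mod_cast (hq i).1.pos
  have key : Real.log ((a * ∏ i, (if i ∈ S then q i else p i) : ℕ) : ℝ) =
      Real.log ((a * ∏ i, p i : ℕ) : ℝ) + ∑ i ∈ S, (Real.log (q i) - Real.log (p i)) := by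
    push_cast
    rw [Real.log_mul hap.ne' (Finset.prod_ne_zero_iff.2 (fun i _ => by
      split_ifs
      · exact (hqp i).ne'
      · exact (hpp i).ne')),
      Real.log_mul hap.ne' (Finset.prod_ne_zero_iff.2 (fun i _ => (hpp i).ne')),
      Real.log_prod (fun i _ => by
        split_ifs
        · exact (hqp i).ne'
        · exact (hpp i).ne'), Real.log_prod (fun i _ => (hpp i).ne'), add_assoc]
    congr 1
    rw [← Finset.sum_filter_add_sum_filter_not univ (fun i => i ∈ S)
      (fun i => Real.log (if i ∈ S then (q i : ℝ) else (p i : ℝ))),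
      ← Finset.sum_filter_add_sum_filter_not univ (fun i => i ∈ S) (fun i => Real.log (p i : ℝ))]
    have e1 : univ.filter (fun i => i ∈ S) = S := by ext i; simp
    rw [e1]
    have e2 : ∑ i ∈ S, Real.log (if i ∈ S then (q i : ℝ) else (p i : ℝ)) = ∑ i ∈ S, Real.log (q i : ℝ) := by
      apply Finset.sum_congr rfl
      intro i hi
      rw [if_pos hi]
    have e3 : ∑ i ∈ univ.filter (fun i => i ∉ S), Real.log (if i ∈ S then (q i : ℝ) else (p i : ℝ)) =
        ∑ i ∈ univ.filter (fun i => i ∉ S), Real.log (p i : ℝ) := by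
      apply Finset.sum_congr rfl
      intro i hi
      rw [Finset.mem_filter] at hi
      rw [if_neg hi.2]
    rw [e2, e3, Finset.sum_sub_distrib]
    ring
  have key2 : (Real.log ((a * ∏ i, (if i ∈ S then q i else p i) : ℕ) : ℝ) : ℂ) =
      (Real.log ((a * ∏ i, p i : ℕ) : ℝ) : ℂ) + ∑ i ∈ S, w i := by
    rw [key, hw]
    push_cast
    rfl
  rw [key2]
  exact hS

end Pool.Agent.H297R2
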