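import Mathlib
import Pool.Agent.H297R2.Tuples
import Pool.Agent.H340R2.LW

namespace Pool.Agent.H297R2

open Finset Complex

/-- Lindemann–Weierstrass: no polynomial relations between exponentials of linearly independent
algebraic numbers. -/
theorem exp_noRel {σ : Type} [Fintype σ] (D : ℕ) (α : σ → ℂ) (halg : ∀ i, IsAlgebraic ℚ (α i))
    (hα : LinearIndependent ℚ α) : NoRel (algebraicClosure ℚ ℂ) D (fun i => cexp (α i)) := by
  classical
  intro P _ hP
  rw [MvPolynomial.aeval_def, MvPolynomial.eval₂_eq'] at hP
  have hint : ∀ v : σ → ℤ, ∑ k, (v k : ℂ) * α k = 0 → ∀ k, v k = 0 := by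
    intro v hv k
    rw [Fintype.linearIndependent_iff] at hα
    have := hα (fun k => (v k : ℚ)) (by
      rw [← hv]
      apply Finset.sum_congr rfl
      intro k _
      rw [Algebra.smul_def]
      simp) k
    exact_mod_cast this
  have h1 := Pool.Agent.H340R2.LW.lindemann_weierstrass P.support
    (fun s => ∑ i, ((s i : ℕ) : ℂ) * α i) (fun s => ((P.coeff s : algebraicClosure ℚ ℂ) : ℂ)) (by
      intro s _
      exact (IsIntegral.sum _ (fun i _ =>
        ((isAlgebraic_natCast (R := ℚ) (A := ℂ) (s i)).mul (halg i)).isIntegral)).isAlgebraic) (by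
      intro s _
      exact (mem_algebraicClosure_iff).1 (P.coeff s).2) (by
      intro s _ s' _ hss
      simp only at hss
      have h2 : ∑ k, (((s k : ℤ) - (s' k : ℤ) : ℤ) : ℂ) * α k = 0 := by
        push_cast
        simp only [sub_mul, Finset.sum_sub_distrib]
        rw [hss, sub_self]
      ext k
      have := hint _ h2 k
      omega) (by
      rw [← hP]
      apply Finset.sum_congr rfl
      intro s _
      congr 1
      rw [Complex.exp_sum]
      apply Finset.prod_congr rfl
      intro i _
      rw [Complex.exp_nat_mul])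
  ext s
  by_cases hs : s ∈ P.support
  · rw [h1 s hs]
    simp
  · rw [MvPolynomial.notMem_support_iff.1 hs]
    simp

end Pool.Agent.H297R2
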