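import Mathlib
import Pool.Agent.H297R2.AStep

namespace Pool.Agent.H297R2

open Complex Finset Polynomial

theorem degree_C_mul_le' (a : ℂ) (p : ℂ[X]) : (C a * p).degree ≤ p.degree := by
  by_cases h : a = 0
  · simp [h]
  · rw [degree_C_mul h]

/-- Generalised Vandermonde: exponential polynomials on an interval of integers. -/
theorem gen_vander (V : Finset ℂ) (hV : ∀ v ∈ V, v ≠ 0) (N : ℕ) :
    ∀ (d : ℂ → ℕ) (q : ℂ → ℂ[X]) (a h : ℕ), ∑ v ∈ V, d v = N → N ≤ h →
      (∀ v ∈ V, (q v).degree < d v) →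
      (∀ l ∈ Ioc a (a + h), ∑ v ∈ V, (q v).eval (l : ℂ) * v ^ l = 0) → ∀ v ∈ V, q v = 0 := by
  classical
  induction N with
  | zero =>
    intro d q a h hd _ hdeg _ v hv
    have : d v = 0 := (Finset.sum_eq_zero_iff.1 hd) v hv
    have h1 := hdeg v hv
    rw [this] at h1
    simpa using h1
  | succ N ih =>
    intro d q a h hd hNh hdeg hvan
    obtain ⟨v, hv, hdv⟩ : ∃ v ∈ V, d v ≠ 0 := by
      by_contra hcon
      push Not at hcon
      rw [Finset.sum_eq_zero hcon] at hd
      omega
    -- the operator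
    set q' : ℂ → ℂ[X] := fun u => C u * taylor 1 (q u) - C v * q u with hq'
    set d' : ℂ → ℕ := Function.update d v (d v - 1) with hd'
    have hdeg' : ∀ u ∈ V, (q' u).degree < d' u := by
      intro u hu
      by_cases huv : u = v
      · subst huv
        rw [hd', Function.update_self]
        by_cases h0 : q u = 0
        · rw [hq']; simp [h0]
        · have e1 : q' u = C u * (taylor 1 (q u) - q u) := by rw [hq']; ring
          rw [e1, degree_C_mul (hV u hu)]
          have h2 : (taylor 1 (q u) - q u).degree < (taylor 1 (q u)).degree :=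
            degree_sub_lt_left (degree_taylor _ _) (by rwa [Ne, taylor_eq_zero]) (leadingCoeff_taylor _ _)
          rw [degree_taylor] at h2
          refine lt_of_lt_of_le h2 ?_
          apply degree_le_of_natDegree_le
          have h3 := (natDegree_lt_iff_degree_lt h0).2 (hdeg u hu)
          omega
      · rw [hd', Function.update_of_ne huv]
        refine lt_of_le_of_lt (degree_sub_le _ _) (max_lt ?_ ?_)
        · refine lt_of_le_of_lt (degree_C_mul_le' _ _) ?_
          rw [degree_taylor]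
          exact hdeg u hu
        · exact lt_of_le_of_lt (degree_C_mul_le' _ _) (hdeg u hu)
    have hsum' : ∑ u ∈ V, d' u = N := by
      rw [hd', Finset.sum_update_of_mem hv]
      rw [← Finset.add_sum_erase _ _ hv] at hd
      rw [Finset.sdiff_singleton_eq_erase]
      omega
    have h4 := ih d' q' a (h - 1) hsum' (by omega) hdeg' (by
      intro l hl
      rw [Finset.mem_Ioc] at hl
      have e1 := hvan (l + 1) (by rw [Finset.mem_Ioc]; omega)
      have e2 := hvan l (by rw [Finset.mem_Ioc]; omega)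
      have e3 : ∑ u ∈ V, (q' u).eval (l : ℂ) * u ^ l =
          ∑ u ∈ V, (q u).eval ((l + 1 : ℕ) : ℂ) * u ^ (l + 1) -
          v * ∑ u ∈ V, (q u).eval (l : ℂ) * u ^ l := by
        rw [Finset.mul_sum, ← Finset.sum_sub_distrib]
        apply Finset.sum_congr rfl
        intro u _
        rw [hq']
        simp only [eval_sub, eval_mul, eval_C, taylor_eval]
        push_cast
        ring
      rw [e3, e1, e2, mul_zero, sub_zero])
    -- consequences
    have h5 : ∀ u ∈ V, u ≠ v → q u = 0 := by
      intro u hu huv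
      have e1 := h4 u hu
      have e2 : (C u * taylor 1 (q u)).leadingCoeff = (C v * q u).leadingCoeff := by
        rw [sub_eq_zero.1 e1]
      rw [leadingCoeff_mul, leadingCoeff_mul, leadingCoeff_C, leadingCoeff_C, leadingCoeff_taylor] at e2
      have e3 : (u - v) * (q u).leadingCoeff = 0 := by rw [sub_mul, e2, sub_self]
      rcases mul_eq_zero.1 e3 with h0 | h0
      · exact absurd (sub_eq_zero.1 h0) huv
      · exact leadingCoeff_eq_zero.1 h0
    have h6 : taylor 1 (q v) = q v := by
      have e1 := h4 v hv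
      have e2 : C v * (taylor 1 (q v) - q v) = 0 := by rw [mul_sub]; exact e1
      rcases mul_eq_zero.1 e2 with h0 | h0
      · exact absurd (C_eq_zero.1 h0) (hV v hv)
      · exact sub_eq_zero.1 h0
    have h7 : ∀ n : ℕ, (q v).eval (n : ℂ) = (q v).eval 0 := by
      intro n
      induction n with
      | zero => simp
      | succ n ihn =>
        rw [← ihn]
        conv_rhs => rw [← h6]
        rw [taylor_eval]
        push_cast
        rfl
    have h8 : q v = C ((q v).eval 0) := by
      apply Polynomial.eq_of_infinite_eval_eq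
      apply Set.infinite_of_injective_forall_mem (f := fun n : ℕ => (n : ℂ)) Nat.cast_injective
      intro n
      simp [h7 n]
    have h9 := hvan (a + 1) (by rw [Finset.mem_Ioc]; omega)
    rw [Finset.sum_eq_single_of_mem v hv (by
      intro u hu huv
      rw [h5 u hu huv, eval_zero, zero_mul])] at h9
    rcases mul_eq_zero.1 h9 with h0 | h0
    · rw [h7] at h0
      intro u hu
      by_cases huv : u = v
      · subst huv
        rw [h8, h0, C_0]
      · exact h5 u hu huv
    · exact absurd h0 (pow_ne_zero _ (hV v hv))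

theorem wt_degree (μ j : ℕ) (g : ℂ) : ((wt μ j (C g) X : ℂ[X])).natDegree ≤ μ := by
  induction j generalizing μ with
  | zero => rw [wt_zero]; simp
  | succ j ih =>
    rw [wt_succ]
    refine (natDegree_add_le _ _).trans (max_le ?_ ?_)
    · rw [show ((μ : ℕ) : ℂ[X]) = C (μ : ℂ) by simp]
      exact (natDegree_C_mul_le _ _).trans ((ih (μ - 1)).trans (by omega))
    · exact (natDegree_C_mul_le _ _).trans (ih μ)

theorem wt_coeff (μ j : ℕ) (g : ℂ) : ((wt μ j (C g) X : ℂ[X])).coeff μ = g ^ j := by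
  induction j generalizing μ with
  | zero => rw [wt_zero]; simp
  | succ j ih =>
    rw [wt_succ, coeff_add, coeff_C_mul, ih]
    rcases Nat.eq_zero_or_pos μ with h0 | h0
    · subst h0; simp; ring
    · rw [show ((μ : ℕ) : ℂ[X]) = C (μ : ℂ) by simp, coeff_C_mul,
        coeff_eq_zero_of_natDegree_lt (lt_of_le_of_lt (wt_degree (μ - 1) j g) (by omega))]
      ring

theorem wt_eval (μ j : ℕ) (g z : ℂ) : ((wt μ j (C g) X : ℂ[X])).eval z = wt μ j g z := by
  have := map_wt (evalRingHom z) j μ (C g) X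
  simpa using this

/-- Linear independence over `ℚ` of the `ω`: the points `ψ x` are distinct, and the fibres of
the exponential have at most `L + 1` elements. -/
theorem fibre_card {κ : Type*} [Fintype κ] [DecidableEq κ] (L : ℕ) (ω : κ → ℂ)
    (hω : LinearIndependent ℚ ω)
    (ψ : (κ → Fin (L + 1)) → ℂ) (hψ : ∀ x, ψ x = ∑ k, ((x k : ℕ) : ℂ) * ω k) :
    Function.Injective ψ ∧ ∀ x₀, (univ.filter (fun x => cexp (ψ x) = cexp (ψ x₀))).card ≤ L + 1 := by
  classical
  -- integer independence
  have hint : ∀ v : κ → ℤ, ∑ k, (v k : ℂ) * ω k = 0 → ∀ k, v k = 0 := by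
    intro v hv k
    rw [Fintype.linearIndependent_iff] at hω
    have := hω (fun k => (v k : ℚ)) (by
      rw [← hv]
      apply Finset.sum_congr rfl
      intro k _
      rw [Algebra.smul_def]
      simp) k
    exact_mod_cast this
  have hdiff : ∀ x y, ψ x - ψ y = ∑ k, (((x k : ℕ) : ℤ) - ((y k : ℕ) : ℤ) : ℤ) * ω k := by
    intro x y
    rw [hψ, hψ, ← Finset.sum_sub_distrib]
    apply Finset.sum_congr rfl
    intro k _
    push_cast
    ring
  have hinj : Function.Injective ψ := by
    intro x y hxy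
    have h1 : ψ x - ψ y = 0 := by rw [hxy, sub_self]
    rw [hdiff] at h1
    funext k
    have := hint _ h1 k
    apply Fin.ext
    omega
  refine ⟨hinj, ?_⟩
  intro x₀
  set F : Finset (κ → Fin (L + 1)) := univ.filter (fun x => cexp (ψ x) = cexp (ψ x₀)) with hF
  have hx₀F : x₀ ∈ F := by rw [hF]; simp
  -- fibres are small
  by_cases htriv : ∀ x ∈ F, x = x₀
  · have : F ⊆ {x₀} := fun x hx => by rw [Finset.mem_singleton]; exact htriv x hx
    exact (Finset.card_le_card this).trans (by simp)
  · push Not at htriv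
    obtain ⟨x₁, hx₁, hne⟩ := htriv
    obtain ⟨t, ht⟩ : ∃ t, x₁ t ≠ x₀ t := by
      by_contra hcon
      push Not at hcon
      exact hne (funext hcon)
    have hk : ∀ x ∈ F, ∃ n : ℤ, ψ x - ψ x₀ = n * (2 * Real.pi * I) := by
      intro x hx
      rw [hF, Finset.mem_filter] at hx
      obtain ⟨n, hn⟩ := (Complex.exp_eq_exp_iff_exists_int).1 hx.2
      exact ⟨n, by rw [hn]; ring⟩
    have hinjF : Set.InjOn (fun x : κ → Fin (L + 1) => x t) F := by
      intro x hx y hy hxy
      obtain ⟨n₁, hn₁⟩ := hk x₁ hx₁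
      obtain ⟨n, hn⟩ := hk x hx
      obtain ⟨n', hn'⟩ := hk y hy
      have hpar : ((n : ℂ) - n') * (ψ x₁ - ψ x₀) - n₁ * (ψ x - ψ y) = 0 := by
        have e3 : ψ x - ψ y = (n - n') * (2 * Real.pi * I) := by
          calc ψ x - ψ y = (ψ x - ψ x₀) - (ψ y - ψ x₀) := by ring
            _ = _ := by rw [hn, hn']; ring
        rw [e3, hn₁]
        ring
      rw [hdiff, hdiff] at hpar
      have hpar2 : ∑ k, (((n - n') * (((x₁ k : ℕ) : ℤ) - ((x₀ k : ℕ) : ℤ)) -
          n₁ * (((x k : ℕ) : ℤ) - ((y k : ℕ) : ℤ)) : ℤ) : ℂ) * ω k = 0 := by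
        rw [← hpar, Finset.mul_sum, Finset.mul_sum, ← Finset.sum_sub_distrib]
        apply Finset.sum_congr rfl
        intro k _
        push_cast
        ring
      have hpar3 := hint _ hpar2
      have ht2 := hpar3 t
      have hxt : ((x t : ℕ) : ℤ) = ((y t : ℕ) : ℤ) := by
        have : x t = y t := hxy
        rw [this]
      rw [hxt, sub_self, mul_zero, sub_zero] at ht2
      have ht3 : ((x₁ t : ℕ) : ℤ) - ((x₀ t : ℕ) : ℤ) ≠ 0 := by
        intro h0
        apply ht
        apply Fin.ext
        omega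
      have hnn : n - n' = 0 := by
        rcases mul_eq_zero.1 ht2 with h0 | h0
        · exact h0
        · exact absurd h0 ht3
      have hn1 : n₁ ≠ 0 := by
        intro h0
        rw [h0] at hn₁
        apply hne
        apply hinj
        have : ψ x₁ - ψ x₀ = 0 := by rw [hn₁]; push_cast; ring
        exact sub_eq_zero.1 this
      funext k
      have h5 := hpar3 k
      rw [hnn, zero_mul, zero_sub, neg_eq_zero] at h5
      rcases mul_eq_zero.1 h5 with h0 | h0
      · exact absurd h0 hn1
      · apply Fin.ext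
        omega
    calc F.card = (F.image (fun x : κ → Fin (L + 1) => x t)).card :=
          (Finset.card_image_of_injOn hinjF).symm
      _ ≤ (univ : Finset (Fin (L + 1))).card := Finset.card_le_card (Finset.subset_univ _)
      _ = L + 1 := by simp

/-- Vandermonde on a finite set. -/
theorem small_vander {Λ : Type*} [DecidableEq Λ] (F : Finset Λ) (ψ c : Λ → ℂ)
    (hψ : Set.InjOn ψ F) (S : ℕ) (hS : F.card ≤ S + 1)
    (hvan : ∀ j ≤ S, ∑ x ∈ F, c x * ψ x ^ j = 0) : ∀ x ∈ F, c x = 0 := by
  intro x₀ hx₀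
  set P : ℂ[X] := ∏ y ∈ F.erase x₀, (X - C (ψ y)) with hP
  have hdeg : P.natDegree ≤ S := by
    rw [hP, Polynomial.natDegree_prod_of_monic _ _ (fun y _ => Polynomial.monic_X_sub_C _)]
    simp only [Polynomial.natDegree_X_sub_C, Finset.sum_const, smul_eq_mul, mul_one]
    rw [Finset.card_erase_of_mem hx₀]
    omega
  have h1 : ∑ x ∈ F, c x * P.eval (ψ x) = 0 := by
    have e1 : ∀ x, P.eval (ψ x) = ∑ j ∈ range (S + 1), P.coeff j * ψ x ^ j := fun x =>
      Polynomial.eval_eq_sum_range' (by omega) _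
    simp only [e1, Finset.mul_sum]
    rw [Finset.sum_comm]
    apply Finset.sum_eq_zero
    intro j hj
    rw [Finset.mem_range] at hj
    have := hvan j (by omega)
    calc ∑ x ∈ F, c x * (P.coeff j * ψ x ^ j) = P.coeff j * ∑ x ∈ F, c x * ψ x ^ j := by
          rw [Finset.mul_sum]; apply Finset.sum_congr rfl; intro x _; ring
      _ = 0 := by rw [this, mul_zero]
  rw [Finset.sum_eq_single_of_mem x₀ hx₀] at h1
  · rcases mul_eq_zero.1 h1 with h0 | h0
    · exact h0
    · exfalso
      rw [hP, Polynomial.eval_prod, Finset.prod_eq_zero_iff] at h0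
      obtain ⟨y, hy, hy2⟩ := h0
      rw [Finset.mem_erase] at hy
      simp only [eval_sub, eval_X, eval_C] at hy2
      exact hy.1 (hψ hy.2 hx₀ (sub_eq_zero.1 hy2).symm)
  · intro x hx hxx
    rw [hP, Polynomial.eval_prod, Finset.prod_eq_zero (i := x)]
    · rw [mul_zero]
    · rw [Finset.mem_erase]; exact ⟨hxx, hx⟩
    · simp

/-- The final step with polynomial coefficients. -/
theorem final_step' {κ : Type*} [Fintype κ] [DecidableEq κ] (L : ℕ) (ω : κ → ℂ)
    (hω : LinearIndependent ℚ ω)
    (ψ : (κ → Fin (L + 1)) → ℂ) (hψ : ∀ x, ψ x = ∑ k, ((x k : ℕ) : ℂ) * ω k)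
    (c : Fin (L + 1) → (κ → Fin (L + 1)) → ℂ) (h S : ℕ)
    (hh : (L + 1) * Fintype.card (κ → Fin (L + 1)) ≤ h) (hS : L ≤ S)
    (hvan : ∀ j ≤ S, ∀ l ∈ Icc 1 h, ∑ x, ∑ μ : Fin (L + 1), c μ x * wt (μ : ℕ) j (ψ x) (l : ℂ) *
      cexp (ψ x * l) = 0) :
    ∀ μ x, c μ x = 0 := by
  classical
  obtain ⟨hinj, hcard⟩ := fibre_card L ω hω ψ hψ
  set V : Finset ℂ := univ.image (fun x => cexp (ψ x)) with hV
  have hV0 : ∀ v ∈ V, v ≠ 0 := by
    intro v hv
    rw [hV, Finset.mem_image] at hv
    obtain ⟨x, _, rfl⟩ := hv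
    exact Complex.exp_ne_zero _
  have hVcard : V.card ≤ Fintype.card (κ → Fin (L + 1)) := Finset.card_image_le
  -- grouped polynomials
  set q : ℕ → ℂ → ℂ[X] := fun j v => ∑ x ∈ univ.filter (fun x => cexp (ψ x) = v),
    ∑ μ : Fin (L + 1), C (c μ x) * wt (μ : ℕ) j (C (ψ x)) X with hq
  have hq0 : ∀ j ≤ S, ∀ v ∈ V, q j v = 0 := by
    intro j hj
    apply gen_vander V hV0 _ (fun _ => L + 1) (q j) 0 h rfl
    · rw [Finset.sum_const, smul_eq_mul, mul_comm]
      exact (Nat.mul_le_mul_left _ hVcard).trans hh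
    · intro v _
      rw [hq]
      refine lt_of_le_of_lt (degree_sum_le _ _) ?_
      rw [Finset.sup_lt_iff (WithBot.bot_lt_coe _)]
      intro x _
      refine lt_of_le_of_lt (degree_sum_le _ _) ?_
      rw [Finset.sup_lt_iff (WithBot.bot_lt_coe _)]
      intro μ _
      refine lt_of_le_of_lt (degree_C_mul_le' _ _) ?_
      refine lt_of_le_of_lt degree_le_natDegree ?_
      have h1 := wt_degree (μ : ℕ) j (ψ x)
      have h2 := μ.isLt
      exact_mod_cast (by omega : (wt (μ : ℕ) j (C (ψ x)) X : ℂ[X]).natDegree < L + 1)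
    · intro l hl
      rw [Finset.mem_Ioc] at hl
      have h1 := hvan j hj l (by rw [Finset.mem_Icc]; omega)
      rw [← h1]
      rw [← Finset.sum_fiberwise_of_maps_to (s := univ) (t := V) (g := fun x => cexp (ψ x))
        (fun x _ => Finset.mem_image_of_mem _ (Finset.mem_univ _))]
      apply Finset.sum_congr rfl
      intro v _
      rw [hq]
      simp only [eval_finsetSum, eval_mul, eval_C, wt_eval, Finset.sum_mul]
      apply Finset.sum_congr rfl
      intro x hx
      rw [Finset.mem_filter] at hx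
      apply Finset.sum_congr rfl
      intro μ _
      rw [← hx.2, ← Complex.exp_nat_mul, mul_comm (l : ℂ) (ψ x)]
  -- conclusion by descending induction on `μ`
  intro μ x
  by_contra hcon
  set F := univ.filter (fun y => cexp (ψ y) = cexp (ψ x)) with hF
  have hxF : x ∈ F := by rw [hF]; simp
  -- the maximal degree in the fibre
  have hne : (univ.filter (fun ν : Fin (L + 1) => ∃ y ∈ F, c ν y ≠ 0)).Nonempty :=
    ⟨μ, by rw [Finset.mem_filter]; exact ⟨Finset.mem_univ _, x, hxF, hcon⟩⟩
  obtain ⟨ν, hν, hmax⟩ := Finset.exists_max_image _ (fun ν : Fin (L + 1) => ν) hne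
  rw [Finset.mem_filter] at hν
  obtain ⟨_, y, hyF, hcy⟩ := hν
  have hbig : ∀ ν' : Fin (L + 1), ν < ν' → ∀ y ∈ F, c ν' y = 0 := by
    intro ν' hν' y hy
    by_contra h0
    have := hmax ν' (by rw [Finset.mem_filter]; exact ⟨Finset.mem_univ _, y, hy, h0⟩)
    exact absurd hν' (not_lt.2 this)
  apply hcy
  refine small_vander F ψ (fun y => c ν y) (hinj.injOn) S ((hcard x).trans (by omega)) ?_ y hyF
  intro j hj
  have h1 := hq0 j hj (cexp (ψ x)) (Finset.mem_image_of_mem _ (Finset.mem_univ _))
  have h2 : (q j (cexp (ψ x))).coeff (ν : ℕ) = ∑ y ∈ F, c ν y * ψ y ^ j := by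
    rw [hq]
    simp only [finsetSum_coeff, coeff_C_mul]
    apply Finset.sum_congr rfl
    intro y hy
    rw [Finset.sum_eq_single ν]
    · rw [wt_coeff]
    · intro ν' _ hne'
      rcases lt_or_gt_of_ne hne' with h3 | h3
      · rw [coeff_eq_zero_of_natDegree_lt (lt_of_le_of_lt (wt_degree _ j _) h3), mul_zero]
      · rw [hbig ν' h3 y hy, zero_mul]
    · intro h0; exact absurd (Finset.mem_univ _) h0
  rw [← h2, h1, coeff_zero]

end Pool.Agent.H297R2
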