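import Mathlib
import Pool.Agent.H297R2.Core
import Pool.Agent.H297R2.GVander

namespace Pool.Agent.H297R2

open NumberField Complex Finset

section

variable {Λ ι : Type*} [Fintype Λ] [Fintype ι] [DecidableEq ι]

/-- The auxiliary functions (inhomogeneous case). -/
noncomputable def auxF (p : Λ → ℂ) (μ : Λ → ℕ) (γ : Λ → Option ι → ℂ) (ψ : Λ → ℂ)
    (m : Option ι → ℕ) (z : ℂ) : ℂ :=
  ∑ x, p x * (∏ i, γ x (some i) ^ m (some i)) * wt (μ x) (m none) (γ x none) z * cexp (ψ x * z)

theorem auxF_hasDerivAt (p : Λ → ℂ) (μ : Λ → ℕ) (γ : Λ → Option ι → ℂ) (ψ : Λ → ℂ)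
    (η : Option ι → ℂ) (hη : η none = 1) (hψ : ∀ x, ψ x = ∑ k, γ x k * η k)
    (m : Option ι → ℕ) (z : ℂ) :
    HasDerivAt (auxF p μ γ ψ m) (∑ k, η k * auxF p μ γ ψ (m + Pi.single k 1) z) z := by
  have key : ∑ k, η k * auxF p μ γ ψ (m + Pi.single k 1) z =
      ∑ x, p x * (∏ i, γ x (some i) ^ m (some i)) *
        ((μ x : ℂ) * wt (μ x - 1) (m none) (γ x none) z + ψ x * wt (μ x) (m none) (γ x none) z) *
          cexp (ψ x * z) := by
    unfold auxF
    simp only [Finset.mul_sum]
    rw [Finset.sum_comm]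
    apply Finset.sum_congr rfl
    intro x _
    rw [Fintype.sum_option]
    have e1 : (m + Pi.single none 1 : Option ι → ℕ) none = m none + 1 := by simp
    have e2 : ∀ i, (m + Pi.single none 1 : Option ι → ℕ) (some i) = m (some i) := by intro i; simp
    have e3 : ∀ i, (m + Pi.single (some i) 1 : Option ι → ℕ) none = m none := by intro i; simp
    have e4 : ∀ i, ∏ j, γ x (some j) ^ (m + Pi.single (some i) 1 : Option ι → ℕ) (some j) =
        (∏ j, γ x (some j) ^ m (some j)) * γ x (some i) := by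
      intro i
      simp only [Pi.add_apply, pow_add, Finset.prod_mul_distrib]
      congr 1
      rw [Finset.prod_eq_single i]
      · simp
      · intro b _ hb
        rw [Pi.single_eq_of_ne (by simpa using hb), pow_zero]
      · simp
    rw [e1]
    simp only [e2, e3, e4]
    rw [wt_succ, hη, hψ x, Fintype.sum_option, hη]
    simp only [add_mul, Finset.sum_mul, mul_add, Finset.mul_sum]
    rw [← add_assoc]
    congr 1
    · ring
    · apply Finset.sum_congr rfl
      intro i _
      ring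
  rw [key]
  unfold auxF
  apply HasDerivAt.fun_sum
  intro x _
  have h1 : HasDerivAt (fun z : ℂ => ψ x * z) (ψ x) z := by
    simpa using (hasDerivAt_id z).const_mul (ψ x)
  have h2 := h1.cexp
  have h3 := wt_hasDerivAt (m none) (μ x) (γ x none) z
  have h4 := (h3.const_mul (p x * (∏ i, γ x (some i) ^ m (some i)))).mul h2
  refine h4.congr_deriv ?_
  ring

theorem norm_auxF_le (p : Λ → ℂ) (μ : Λ → ℕ) (γ : Λ → Option ι → ℂ) (ψ : Λ → ℂ) (L : ℕ)
    (hμ : ∀ x, μ x ≤ L) (N P g Ψ G : ℝ) (hN : (Fintype.card Λ : ℝ) ≤ Real.exp N)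
    (hP : ∀ x, ‖p x‖ ≤ Real.exp P) (hg0 : 0 ≤ g) (hγ : ∀ x i, ‖γ x (some i)‖ ≤ Real.exp g)
    (hγ0 : ∀ x, ‖γ x none‖ ≤ G) (hG : (L : ℝ) + G ≤ Real.exp g)
    (hΨ : ∀ x, ‖ψ x‖ ≤ Ψ) (S : ℕ) (m : Option ι → ℕ) (hm : ∑ k, m k ≤ S) (z : ℂ) (r : ℝ)
    (hr : 1 ≤ r) (hz : ‖z‖ ≤ r) :
    ‖auxF p μ γ ψ m z‖ ≤ Real.exp (N + P + S * g + L * Real.log r + Ψ * r) := by
  have hterm : ∀ x, ‖p x * (∏ i, γ x (some i) ^ m (some i)) * wt (μ x) (m none) (γ x none) z *
      cexp (ψ x * z)‖ ≤ Real.exp (P + S * g + L * Real.log r + Ψ * r) := by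
    intro x
    have hG0 : 0 ≤ G := (norm_nonneg _).trans (hγ0 x)
    have h2 : ‖∏ i, γ x (some i) ^ m (some i)‖ ≤ Real.exp ((∑ i, (m (some i) : ℝ)) * g) := by
      rw [norm_prod]
      calc ∏ i, ‖γ x (some i) ^ m (some i)‖ ≤ ∏ i, Real.exp (m (some i) * g) := by
            apply Finset.prod_le_prod
            · intro i _; positivity
            · intro i _
              rw [Real.exp_nat_mul, norm_pow]
              exact pow_le_pow_left₀ (norm_nonneg _) (hγ x i) _
        _ = Real.exp ((∑ i, (m (some i) : ℝ)) * g) := by rw [← Real.exp_sum, ← Finset.sum_mul]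
    have h3 : ‖wt (μ x) (m none) (γ x none) z‖ ≤ Real.exp (L * Real.log r + (m none : ℝ) * g) := by
      refine (norm_wt_le r hr G _ _ (hγ0 x) hz _ _).trans ?_
      rw [Real.exp_add, Real.exp_nat_mul, Real.exp_nat_mul, Real.exp_log (by linarith)]
      have h5 : ((μ x : ℕ) : ℝ) ≤ L := by exact_mod_cast hμ x
      gcongr
      · exact hμ x
      · linarith
    have h4 : ‖cexp (ψ x * z)‖ ≤ Real.exp (Ψ * r) := by
      rw [Complex.norm_exp]
      apply Real.exp_le_exp.2
      refine (Complex.re_le_norm _).trans ?_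
      rw [norm_mul]
      have := hΨ x
      gcongr
      exact (norm_nonneg _).trans this
    rw [norm_mul, norm_mul, norm_mul]
    calc ‖p x‖ * ‖∏ i, γ x (some i) ^ m (some i)‖ * ‖wt (μ x) (m none) (γ x none) z‖ *
          ‖cexp (ψ x * z)‖
        ≤ Real.exp P * Real.exp ((∑ i, (m (some i) : ℝ)) * g) *
          Real.exp (L * Real.log r + (m none : ℝ) * g) * Real.exp (Ψ * r) := by
          gcongr
          exact hP x
      _ = Real.exp (P + ((m none : ℝ) + ∑ i, (m (some i) : ℝ)) * g + L * Real.log r + Ψ * r) := by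
          rw [← Real.exp_add, ← Real.exp_add, ← Real.exp_add]; ring_nf
      _ ≤ _ := by
          apply Real.exp_le_exp.2
          have h6 : (m none : ℝ) + ∑ i, (m (some i) : ℝ) ≤ S := by
            rw [Fintype.sum_option] at hm
            exact_mod_cast hm
          have := mul_le_mul_of_nonneg_right h6 hg0
          linarith
  unfold auxF
  refine (norm_sum_le _ _).trans ((Finset.sum_le_sum (fun x _ => hterm x)).trans ?_)
  rw [Finset.sum_const, Finset.card_univ, nsmul_eq_mul]
  calc (Fintype.card Λ : ℝ) * Real.exp (P + S * g + L * Real.log r + Ψ * r)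
      ≤ Real.exp N * Real.exp (P + S * g + L * Real.log r + Ψ * r) := by gcongr
    _ = _ := by rw [← Real.exp_add]; ring_nf

variable {K : Type*} [Field K] [NumberField K]

/-- Their arithmetic values. -/
noncomputable def auxG (p : Λ → 𝓞 K) (μ : Λ → ℕ) (γ : Λ → Option ι → 𝓞 K) (A : Λ → 𝓞 K)
    (m : Option ι → ℕ) (l : ℕ) : 𝓞 K :=
  ∑ x, p x * (∏ i, γ x (some i) ^ m (some i)) * wt (μ x) (m none) (γ x none) (l : 𝓞 K) * A x ^ l

omit [DecidableEq ι] in
theorem map_auxG (σ : K →+* ℂ) (p : Λ → 𝓞 K) (μ : Λ → ℕ) (γ : Λ → Option ι → 𝓞 K) (A : Λ → 𝓞 K)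
    (ψ : Λ → ℂ) (E : ℂ) (hA : ∀ x, σ (A x : K) = E * cexp (ψ x)) (m : Option ι → ℕ) (l : ℕ) :
    σ (auxG p μ γ A m l : K) = E ^ l *
      auxF (fun x => σ (p x : K)) μ (fun x k => σ (γ x k : K)) ψ m l := by
  unfold auxG auxF
  rw [Finset.mul_sum]
  have hs : σ ((∑ x, p x * (∏ i, γ x (some i) ^ m (some i)) *
      wt (μ x) (m none) (γ x none) (l : 𝓞 K) * A x ^ l : 𝓞 K) : K) =
      ∑ x, σ (p x : K) * (∏ i, σ (γ x (some i) : K) ^ m (some i)) *
        wt (μ x) (m none) (σ (γ x none : K)) (l : ℂ) * σ (A x : K) ^ l := by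
    set τ : 𝓞 K →+* ℂ := σ.comp (algebraMap (𝓞 K) K) with hτ
    have : ∀ y : 𝓞 K, σ (y : K) = τ y := fun y => rfl
    simp only [this]
    simp only [map_sum, map_mul, map_prod, map_pow, map_wt, map_natCast]
  rw [hs]
  apply Finset.sum_congr rfl
  intro x _
  rw [hA, mul_pow, ← Complex.exp_nat_mul, mul_comm (l : ℂ) (ψ x)]
  ring

omit [DecidableEq ι] in
theorem house_auxG_le (p : Λ → 𝓞 K) (μ : Λ → ℕ) (γ : Λ → Option ι → 𝓞 K) (A : Λ → 𝓞 K) (L : ℕ)
    (hμ : ∀ x, μ x ≤ L) (N P g H G : ℝ) (hN : (Fintype.card Λ : ℝ) ≤ Real.exp N)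
    (hP : ∀ x, house (p x : K) ≤ Real.exp P) (hg0 : 0 ≤ g) (hH0 : 0 ≤ H)
    (hγ : ∀ x i, house (γ x (some i) : K) ≤ Real.exp g)
    (hγ0 : ∀ x, house (γ x none : K) ≤ G) (hG : (L : ℝ) + G ≤ Real.exp g)
    (hH : ∀ x, house (A x : K) ≤ Real.exp H) (S h' : ℕ) (m : Option ι → ℕ) (hm : ∑ k, m k ≤ S)
    (l : ℕ) (hl : l ∈ Icc 1 h') :
    house (auxG p μ γ A m l : K) ≤ Real.exp (N + P + S * g + L * Real.log h' + h' * H) := by
  rw [Finset.mem_Icc] at hl
  have hh1 : (1 : ℝ) ≤ h' := by exact_mod_cast hl.1.trans hl.2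
  have hhnat : ∀ m : ℕ, house (m : K) = m := by
    intro m
    have := house_intCast (K := K) (m : ℤ)
    simpa using this
  have hterm : ∀ x, house ((p x * (∏ i, γ x (some i) ^ m (some i)) *
      wt (μ x) (m none) (γ x none) (l : 𝓞 K) * A x ^ l : 𝓞 K) : K) ≤
      Real.exp (P + S * g + L * Real.log h' + h' * H) := by
    intro x
    have hG0 : 0 ≤ G := (house_nonneg _).trans (hγ0 x)
    push_cast
    have h1 : house (∏ i, (γ x (some i) : K) ^ m (some i)) ≤
        Real.exp ((∑ i, (m (some i) : ℝ)) * g) := by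
      have h2 : house (∏ i, (γ x (some i) : K) ^ m (some i)) ≤ ∏ i, Real.exp (m (some i) * g) := by
        simp only [house, map_prod]
        refine (Finset.norm_prod_le _ _).trans ?_
        apply Finset.prod_le_prod
        · intro i _; exact norm_nonneg _
        · intro i _
          have h3 := house_pow_le (γ x (some i) : K) (m (some i))
          rw [Real.exp_nat_mul]
          exact h3.trans (pow_le_pow_left₀ (house_nonneg _) (hγ x i) _)
      refine h2.trans (le_of_eq ?_)
      rw [← Real.exp_sum, ← Finset.sum_mul]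
    have h3 : house ((wt (μ x) (m none) (γ x none) (l : 𝓞 K) : 𝓞 K) : K) ≤
        Real.exp (L * Real.log h' + (m none : ℝ) * g) := by
      refine (house_wt_le (h' : ℝ) hh1 G _ _ (hγ0 x) (by
        push_cast
        rw [hhnat]
        exact_mod_cast hl.2) _ _).trans ?_
      rw [Real.exp_add, Real.exp_nat_mul, Real.exp_nat_mul, Real.exp_log (by linarith)]
      have h5 : ((μ x : ℕ) : ℝ) ≤ L := by exact_mod_cast hμ x
      gcongr
      · exact hμ x
      · linarith
    have h4 : house ((A x : K) ^ l) ≤ Real.exp (h' * H) := by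
      refine (house_pow_le _ _).trans ?_
      calc house (A x : K) ^ l ≤ Real.exp H ^ l := pow_le_pow_left₀ (house_nonneg _) (hH x) _
        _ = Real.exp (l * H) := by rw [Real.exp_nat_mul]
        _ ≤ Real.exp (h' * H) := by
            apply Real.exp_le_exp.2
            apply mul_le_mul_of_nonneg_right _ hH0
            exact_mod_cast hl.2
    calc house ((p x : K) * (∏ i, (γ x (some i) : K) ^ m (some i)) *
          (wt (μ x) (m none) (γ x none) (l : 𝓞 K) : 𝓞 K) * (A x : K) ^ l)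
        ≤ house ((p x : K) * (∏ i, (γ x (some i) : K) ^ m (some i)) *
          (wt (μ x) (m none) (γ x none) (l : 𝓞 K) : 𝓞 K)) * house ((A x : K) ^ l) := house_mul_le _ _
      _ ≤ (house ((p x : K) * (∏ i, (γ x (some i) : K) ^ m (some i))) *
            house ((wt (μ x) (m none) (γ x none) (l : 𝓞 K) : 𝓞 K) : K)) * house ((A x : K) ^ l) := by
          gcongr
          · exact house_nonneg _
          · exact house_mul_le _ _
      _ ≤ ((house (p x : K) * house (∏ i, (γ x (some i) : K) ^ m (some i))) *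
            house ((wt (μ x) (m none) (γ x none) (l : 𝓞 K) : 𝓞 K) : K)) * house ((A x : K) ^ l) := by
          gcongr
          · exact house_nonneg _
          · exact house_nonneg _
          · exact house_mul_le _ _
      _ ≤ ((Real.exp P * Real.exp ((∑ i, (m (some i) : ℝ)) * g)) *
            Real.exp (L * Real.log h' + (m none : ℝ) * g)) * Real.exp (h' * H) := by
          gcongr
          · exact house_nonneg _
          · exact house_nonneg _
          · exact house_nonneg _
          · exact hP x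
      _ = Real.exp (P + ((m none : ℝ) + ∑ i, (m (some i) : ℝ)) * g + L * Real.log h' + h' * H) := by
          rw [← Real.exp_add, ← Real.exp_add, ← Real.exp_add]; ring_nf
      _ ≤ _ := by
          apply Real.exp_le_exp.2
          have h6 : (m none : ℝ) + ∑ i, (m (some i) : ℝ) ≤ S := by
            rw [Fintype.sum_option] at hm
            exact_mod_cast hm
          have := mul_le_mul_of_nonneg_right h6 hg0
          linarith
  unfold auxG
  have h5 : ((∑ x, p x * (∏ i, γ x (some i) ^ m (some i)) *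
      wt (μ x) (m none) (γ x none) (l : 𝓞 K) * A x ^ l : 𝓞 K) : K) =
      ∑ x, ((p x * (∏ i, γ x (some i) ^ m (some i)) *
        wt (μ x) (m none) (γ x none) (l : 𝓞 K) * A x ^ l : 𝓞 K) : K) :=
    map_sum (algebraMap (𝓞 K) K) _ _
  rw [h5]
  refine (house_sum_le_sum_house _ _).trans ((Finset.sum_le_sum (fun x _ => hterm x)).trans ?_)
  rw [Finset.sum_const, Finset.card_univ, nsmul_eq_mul]
  calc (Fintype.card Λ : ℝ) * Real.exp (P + S * g + L * Real.log h' + h' * H)
      ≤ Real.exp N * Real.exp (P + S * g + L * Real.log h' + h' * H) := by gcongr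
    _ = _ := by rw [← Real.exp_add]; ring_nf

end

end Pool.Agent.H297R2
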