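import Mathlib
import Pool.Agent.H297R2.InAux

namespace Pool.Agent.H297R2

open NumberField Complex Finset Filter

/-- The heart of Baker's theorem, inhomogeneous case. -/
theorem baker_core' {K : Type*} [Field K] [NumberField K] (σ : K →+* ℂ) {ι : Type} [Fintype ι]
    [DecidableEq ι] (ω : Option ι → ℂ) (hω : LinearIndependent ℚ ω) (b₀ : 𝓞 K) (b : ι → 𝓞 K)
    (hb : ω none = σ (b₀ : K) + ∑ i, σ (b i : K) * ω (some i)) (α : Option ι → K)
    (hα : ∀ k, σ (α k) = cexp (ω k)) : False := by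
  classical
  -- common denominator
  have : Algebra.IsAlgebraic ℤ K :=
    ⟨fun x => (IsFractionRing.isAlgebraic_iff ℤ ℚ K).2 (Algebra.IsAlgebraic.isAlgebraic x)⟩
  obtain ⟨a, ha0, haint⟩ := Algebra.IsAlgebraic.exists_integral_multiples ℤ (A := K)
    (univ.image α)
  have haint' : ∀ k, IsIntegral ℤ (a • α k) := fun k => haint _ (Finset.mem_image_of_mem _ (mem_univ _))
  set α' : Option ι → 𝓞 K := fun k => ⟨a • α k, haint' k⟩ with hα'
  have hα'v : ∀ k, ((α' k : 𝓞 K) : K) = (a : K) * α k := by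
    intro k
    rw [hα']
    simp [zsmul_eq_mul]
  -- constants
  obtain ⟨C, hC1, hsiegel⟩ := siegel K
  set n := Fintype.card (Option ι) with hn
  set d : ℝ := (Module.finrank ℚ K : ℝ) with hd
  have hd1 : 1 ≤ d := by rw [hd]; exact_mod_cast Module.finrank_pos
  obtain ⟨J, hJ⟩ : ∃ J : ℕ, J = (2 * n + 3) * (n + 1) := ⟨_, rfl⟩
  obtain ⟨B₁, hB₁⟩ : ∃ B₁ : ℝ, B₁ = 1 + |(a : ℝ)| + house (b₀ : K) + ∑ i, house (b i : K) +
    ∑ k, house (α' k : K) + ∑ k, ‖ω k‖ := ⟨_, rfl⟩
  have hsb0 : 0 ≤ house (b₀ : K) := house_nonneg _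
  have hsb : 0 ≤ ∑ i, house (b i : K) := Finset.sum_nonneg (fun i _ => house_nonneg _)
  have hsα : 0 ≤ ∑ k, house (α' k : K) := Finset.sum_nonneg (fun i _ => house_nonneg _)
  have hsω : 0 ≤ ∑ k, ‖ω k‖ := Finset.sum_nonneg (fun i _ => norm_nonneg _)
  have haa : 0 ≤ |(a : ℝ)| := abs_nonneg _
  have hB₁1 : 1 ≤ B₁ := by rw [hB₁]; linarith
  obtain ⟨B₀, hB₀⟩ : ∃ B₀ : ℝ, B₀ = B₁ + (2 * d + 1) * (J + 3) := ⟨_, rfl⟩
  have hB₁0 : 0 ≤ B₁ := by linarith
  have hB₀₁ : B₁ ≤ B₀ := by
    rw [hB₀]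
    have : 0 ≤ (2 * d + 1) * ((J : ℝ) + 3) := by positivity
    linarith
  have hB1 : 1 ≤ B₀ := hB₁1.trans hB₀₁
  have hB₀0 : 0 ≤ B₀ := by linarith
  have hBa : |(a : ℝ)| ≤ B₀ := by linarith
  have hBb0 : house (b₀ : K) ≤ B₀ := by linarith
  have hBb : ∀ i, house (b i : K) ≤ B₀ := by
    intro i
    have : house (b i : K) ≤ ∑ i, house (b i : K) :=
      Finset.single_le_sum (f := fun i => house (b i : K)) (fun i _ => house_nonneg _) (mem_univ i)
    linarith
  have hBα : ∀ k, house (α' k : K) ≤ B₀ := by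
    intro i
    have : house (α' i : K) ≤ ∑ k, house (α' k : K) :=
      Finset.single_le_sum (f := fun i => house (α' i : K)) (fun i _ => house_nonneg _) (mem_univ i)
    linarith
  have hBω : ∀ k, ‖ω k‖ ≤ B₁ := by
    intro i
    have : ‖ω i‖ ≤ ∑ k, ‖ω k‖ :=
      Finset.single_le_sum (f := fun i => ‖ω i‖) (fun i _ => norm_nonneg _) (mem_univ i)
    linarith
  obtain ⟨T, hT2, hT3, hT4, hT5⟩ := exists_param n J
    (4 * (d * (2 * (n + 1) + 2 * Real.log C + 2 * (n + 1) * Real.log B₀) + 4 * (n + 1) * B₀))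
    (d * (n + 1) * 2 ^ J) (2 * B₀)
  have hTr : (2 : ℝ) ≤ T := by exact_mod_cast hT2
  set L : ℕ := T ^ (2 * n + 2) with hL
  have hL1 : 1 ≤ L := Nat.one_le_pow _ _ (by omega)
  have hLr : (1 : ℝ) ≤ L := by exact_mod_cast hL1
  have hLcast : (L : ℝ) = (T : ℝ) ^ (2 * n + 2) := by rw [hL]; push_cast; rfl
  -- the data
  set γ₁ : (Option ι → Fin (L + 1)) → Option ι → 𝓞 K :=
    fun x k => k.elim (((x none : ℕ) : 𝓞 K) * b₀)
      (fun i => ((x (some i) : ℕ) : 𝓞 K) + ((x none : ℕ) : 𝓞 K) * b i) with hγ₁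
  set A₁ : (Option ι → Fin (L + 1)) → 𝓞 K :=
    fun x => ∏ k, (a : 𝓞 K) ^ (L - (x k : ℕ)) * α' k ^ (x k : ℕ) with hA₁
  set ψ₁ : (Option ι → Fin (L + 1)) → ℂ := fun x => ∑ k, ((x k : ℕ) : ℂ) * ω k with hψ₁
  set η : Option ι → ℂ := fun k => k.elim 1 (fun i => ω (some i)) with hη
  set E : ℂ := ((a : ℂ) ^ L) ^ n with hE
  have hac : (a : ℂ) ≠ 0 := by exact_mod_cast ha0
  have hE0 : E ≠ 0 := pow_ne_zero _ (pow_ne_zero _ hac)
  have hψγ : ∀ x, ψ₁ x = ∑ k, σ (γ₁ x k : K) * η k := by
    intro x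
    rw [hψ₁, hγ₁, hη]
    simp only [Fintype.sum_option, hb, Finset.mul_sum, Option.elim]
    rw [mul_add, Finset.mul_sum, add_assoc, ← Finset.sum_add_distrib, mul_one]
    congr 1
    · push_cast
      simp only [map_mul, map_natCast]
    · apply Finset.sum_congr rfl
      intro i _
      push_cast
      simp only [map_add, map_mul, map_natCast]
      ring
  have hAσ : ∀ x, σ (A₁ x : K) = E * cexp (ψ₁ x) := by
    intro x
    rw [hA₁]
    have e1 : ((∏ k, (a : 𝓞 K) ^ (L - (x k : ℕ)) * α' k ^ (x k : ℕ) : 𝓞 K) : K) =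
        ∏ k, (a : K) ^ (L - (x k : ℕ)) * ((a : K) * α k) ^ (x k : ℕ) := by
      rw [show ((∏ k, (a : 𝓞 K) ^ (L - (x k : ℕ)) * α' k ^ (x k : ℕ) : 𝓞 K) : K) =
        algebraMap (𝓞 K) K (∏ k, (a : 𝓞 K) ^ (L - (x k : ℕ)) * α' k ^ (x k : ℕ)) from rfl, map_prod]
      apply Finset.prod_congr rfl
      intro k _
      rw [map_mul, map_pow, map_pow, map_intCast,
        show algebraMap (𝓞 K) K (α' k) = (a : K) * α k from hα'v k]
    rw [e1, map_prod]
    have e2 : ∀ k, σ ((a : K) ^ (L - (x k : ℕ)) * ((a : K) * α k) ^ (x k : ℕ)) =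
        (a : ℂ) ^ L * cexp (((x k : ℕ) : ℂ) * ω k) := by
      intro k
      rw [map_mul, map_pow, map_pow, map_mul, map_intCast, hα, mul_pow, Complex.exp_nat_mul,
        ← mul_assoc, ← pow_add, Nat.sub_add_cancel (by have := (x k).isLt; omega)]
    rw [Finset.prod_congr rfl (fun k _ => e2 k), Finset.prod_mul_distrib, ← Complex.exp_sum,
      Finset.prod_const, Finset.card_univ]
  -- bounds
  have hxk : ∀ (x : Option ι → Fin (L + 1)) k, ((x k : ℕ) : ℝ) ≤ L := by
    intro x k
    have := (x k).isLt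
    exact_mod_cast (by omega : (x k : ℕ) ≤ L)
  have hxkN : ∀ (x : Option ι → Fin (L + 1)) k, (x k : ℕ) ≤ L := by
    intro x k
    have := (x k).isLt
    omega
  set g : ℝ := Real.log ((2 * B₀) * (T : ℝ) ^ (2 * n + 2)) with hg
  have hg_arg : 1 ≤ (2 * B₀) * (T : ℝ) ^ (2 * n + 2) := by
    rw [← hLcast]
    calc (1 : ℝ) = 1 * 1 := by ring
      _ ≤ (2 * B₀) * L := by gcongr; linarith
  have hg0 : 0 ≤ g := Real.log_nonneg hg_arg
  have hexpg : Real.exp g = 2 * B₀ * L := by
    rw [hg, Real.exp_log (by linarith), hLcast]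
  set H : ℝ := (n + 1) * (T : ℝ) ^ (2 * n + 2) * Real.log B₀ with hH
  have hlB : 0 ≤ Real.log B₀ := Real.log_nonneg hB1
  have hH0 : 0 ≤ H := by rw [hH]; positivity
  have hexpH : Real.exp H = (B₀ ^ L) ^ (n + 1) := by
    have : H = ((L * (n + 1) : ℕ) : ℝ) * Real.log B₀ := by rw [hH, ← hLcast]; push_cast; ring
    rw [this, Real.exp_nat_mul, Real.exp_log (by linarith), pow_mul]
  have hexpH' : (B₀ ^ L) ^ n ≤ Real.exp H := by
    rw [hexpH]
    exact pow_le_pow_right₀ (one_le_pow₀ hB1) (by omega)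
  have hhnat : ∀ m : ℕ, house (m : K) = m := by
    intro m
    have := house_intCast (K := K) (m : ℤ)
    simpa using this
  have hγb : ∀ x i, house (γ₁ x (some i) : K) ≤ Real.exp g := by
    intro x i
    rw [hexpg, hγ₁]
    simp only [Option.elim]
    push_cast
    refine (house_add_le _ _).trans ?_
    calc house (((x (some i) : ℕ) : K)) + house (((x none : ℕ) : K) * (b i : K))
        ≤ ((x (some i) : ℕ) : ℝ) + ((x none : ℕ) : ℝ) * house (b i : K) := by
          gcongr
          · rw [hhnat]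
          · refine (house_mul_le _ _).trans ?_
            rw [hhnat]
      _ ≤ L * B₀ + L * B₀ := by
          gcongr
          · calc ((x (some i) : ℕ) : ℝ) ≤ L := hxk _ _
              _ = L * 1 := by ring
              _ ≤ L * B₀ := by gcongr
          · exact house_nonneg _
          · exact hxkN _ _
          · exact hBb i
      _ = 2 * B₀ * L := by ring
  have hγb0 : ∀ x, house (γ₁ x none : K) ≤ L * B₀ := by
    intro x
    rw [hγ₁]
    simp only [Option.elim]
    push_cast
    refine (house_mul_le _ _).trans ?_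
    rw [hhnat]
    exact mul_le_mul (hxk x none) hBb0 (house_nonneg _) (by positivity)
  have hGg : (L : ℝ) + L * B₀ ≤ Real.exp g := by
    rw [hexpg]
    nlinarith
  have hAb : ∀ x, house (A₁ x : K) ≤ Real.exp H := by
    intro x
    refine le_trans ?_ hexpH'
    rw [hA₁]
    push_cast
    have h1 : house (∏ k, (a : K) ^ (L - (x k : ℕ)) * (α' k : K) ^ (x k : ℕ)) ≤
        ∏ _k : Option ι, B₀ ^ L := by
      simp only [house, map_prod]
      refine (Finset.norm_prod_le _ _).trans ?_
      apply Finset.prod_le_prod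
      · intro i _; exact norm_nonneg _
      · intro k _
        have h2 : house ((a : K) ^ (L - (x k : ℕ)) * (α' k : K) ^ (x k : ℕ)) ≤ B₀ ^ L := by
          calc house ((a : K) ^ (L - (x k : ℕ)) * (α' k : K) ^ (x k : ℕ))
              ≤ house ((a : K) ^ (L - (x k : ℕ))) * house ((α' k : K) ^ (x k : ℕ)) :=
                house_mul_le _ _
            _ ≤ house (a : K) ^ (L - (x k : ℕ)) * house (α' k : K) ^ (x k : ℕ) := by
                gcongr
                · exact house_nonneg _
                · exact pow_nonneg (house_nonneg _) _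
                · exact house_pow_le _ _
                · exact house_pow_le _ _
            _ ≤ B₀ ^ (L - (x k : ℕ)) * B₀ ^ (x k : ℕ) := by
                gcongr
                · exact pow_nonneg (house_nonneg _) _
                · exact house_nonneg _
                · rw [house_intCast]; exact_mod_cast hBa
                · exact house_nonneg _
                · exact hBα k
            _ = B₀ ^ L := by
                rw [← pow_add, Nat.sub_add_cancel (by have := (x k).isLt; omega)]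
        exact h2
    refine h1.trans ?_
    rw [Finset.prod_const, Finset.card_univ]
  have hEb : ‖E‖ ≤ Real.exp H := by
    refine le_trans ?_ hexpH'
    rw [hE, norm_pow, norm_pow]
    have : ‖(a : ℂ)‖ = |(a : ℝ)| := Complex.norm_intCast a
    rw [this]
    gcongr
  set Ψ : ℝ := (n + 1) * B₁ * (T : ℝ) ^ (2 * n + 2) with hΨ
  have hΨ0 : 0 ≤ Ψ := by rw [hΨ]; positivity
  have hψb : ∀ x, ‖ψ₁ x‖ ≤ Ψ := by
    intro x
    rw [hψ₁, hΨ, ← hLcast]
    refine (norm_sum_le _ _).trans ?_
    calc ∑ k, ‖((x k : ℕ) : ℂ) * ω k‖ ≤ ∑ _k : Option ι, (L : ℝ) * B₁ := by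
          apply Finset.sum_le_sum
          intro k _
          rw [norm_mul, Complex.norm_natCast]
          gcongr
          · exact hxkN x k
          · exact hBω k
      _ = n * B₁ * L := by
          rw [Finset.sum_const, Finset.card_univ, nsmul_eq_mul]; ring
      _ ≤ (n + 1) * B₁ * L := by
          gcongr
          linarith
  set N : ℝ := (n + 1) * (T : ℝ) ^ (2 * n + 2) with hN
  have hcardΛ : Fintype.card (Fin (L + 1) × (Option ι → Fin (L + 1))) = (L + 1) ^ (n + 1) := by
    rw [Fintype.card_prod, Fintype.card_fun, Fintype.card_fin, pow_succ']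
  have hNb : (Fintype.card (Fin (L + 1) × (Option ι → Fin (L + 1))) : ℝ) ≤ Real.exp N := by
    rw [hcardΛ]
    push_cast
    have : N = ((n + 1 : ℕ) : ℝ) * (L : ℝ) := by rw [hN, hLcast]; push_cast; ring
    rw [this, Real.exp_nat_mul]
    gcongr
    exact Real.add_one_le_exp _
  -- the products
  set μ : Fin (L + 1) × (Option ι → Fin (L + 1)) → ℕ := fun y => (y.1 : ℕ) with hμ
  set γ : Fin (L + 1) × (Option ι → Fin (L + 1)) → Option ι → 𝓞 K := fun y => γ₁ y.2 with hγ
  set A : Fin (L + 1) × (Option ι → Fin (L + 1)) → 𝓞 K := fun y => A₁ y.2 with hA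
  set ψ : Fin (L + 1) × (Option ι → Fin (L + 1)) → ℂ := fun y => ψ₁ y.2 with hψ
  have hμL : ∀ y, μ y ≤ L := by
    intro y
    have := y.1.isLt
    rw [hμ]
    simp only
    omega
  set V : ℝ := (J + 3) * T * (T : ℝ) ^ (2 * n + 2) with hV
  have hV0 : 0 ≤ V := by rw [hV]; positivity
  have hVlog : ∀ j ≤ J, L * Real.log (4 * (T : ℝ) ^ (2 + j)) ≤ V := by
    intro j hj
    have hT0 : (T : ℝ) ≠ 0 := by positivity
    rw [Real.log_mul (by norm_num) (pow_ne_zero _ hT0), Real.log_pow, hLcast, hV]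
    have h4 : Real.log 4 ≤ T := by
      have h5 : Real.log 4 = 2 * Real.log 2 := by
        rw [show (4 : ℝ) = 2 ^ 2 by norm_num, Real.log_pow]; norm_num
      have := Real.log_two_lt_d9
      linarith
    have h6 : Real.log T ≤ T := (Real.log_le_sub_one_of_pos (by positivity)).trans (by linarith)
    have h7 : ((2 + j : ℕ) : ℝ) * Real.log T ≤ (J + 2) * T := by
      have hlT : 0 ≤ Real.log T := Real.log_nonneg (by linarith)
      have : ((2 + j : ℕ) : ℝ) ≤ J + 2 := by
        have : (j : ℝ) ≤ J := by exact_mod_cast hj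
        push_cast
        linarith
      gcongr
    calc (T : ℝ) ^ (2 * n + 2) * (Real.log 4 + ((2 + j : ℕ) : ℝ) * Real.log T)
        ≤ (T : ℝ) ^ (2 * n + 2) * (T + (J + 2) * T) := by gcongr
      _ = (J + 3) * T * (T : ℝ) ^ (2 * n + 2) := by ring
  -- Siegel's lemma
  set S₀ : ℕ := 2 ^ J * T ^ (2 * n + 4) with hS₀
  set a' : Matrix ((Option ι → Fin (S₀ + 1)) × Fin T) (Fin (L + 1) × (Option ι → Fin (L + 1)))
    (𝓞 K) :=
    fun k x => (∏ i, γ x (some i) ^ (k.1 (some i) : ℕ)) *
      wt (μ x) (k.1 none : ℕ) (γ x none) (((k.2 : ℕ) + 1 : ℕ) : 𝓞 K) * A x ^ ((k.2 : ℕ) + 1) with ha'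
  have hA0 : ∀ x, A x ≠ 0 := by
    intro x h0
    have h1 := hAσ x.2
    rw [hA] at h0
    simp only at h0
    rw [h0] at h1
    simp only [map_zero] at h1
    exact (mul_ne_zero hE0 (Complex.exp_ne_zero _)) h1.symm
  have ha'0 : a' ≠ 0 := by
    intro h0
    have h1 : a' (fun _ => 0, ⟨0, by omega⟩) (0, fun _ => 0) = 0 := by rw [h0]; rfl
    rw [ha'] at h1
    simp only [Fin.val_zero, pow_zero, Finset.prod_const_one, one_mul, zero_add, pow_one, wt_zero,
      hμ] at h1
    exact hA0 _ h1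
  have hcard1 : Fintype.card ((Option ι → Fin (S₀ + 1)) × Fin T) = (S₀ + 1) ^ n * T := by
    rw [Fintype.card_prod, Fintype.card_fun, Fintype.card_fin, Fintype.card_fin]
  have hS₀1 : 1 ≤ S₀ := by
    rw [hS₀]; exact Nat.one_le_iff_ne_zero.2 (by positivity)
  have hcount : 2 * Fintype.card ((Option ι → Fin (S₀ + 1)) × Fin T) ≤
      Fintype.card (Fin (L + 1) × (Option ι → Fin (L + 1))) := by
    rw [hcard1, hcardΛ]
    calc 2 * ((S₀ + 1) ^ n * T) ≤ 2 * ((2 * S₀) ^ n * T) := by gcongr; omega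
      _ = (2 * 2 ^ ((J + 1) * n)) * T ^ ((2 * n + 4) * n + 1) := by
          rw [hS₀, show 2 * (2 ^ J * T ^ (2 * n + 4)) = 2 ^ (J + 1) * T ^ (2 * n + 4) by ring,
            mul_pow, ← pow_mul, ← pow_mul]
          ring
      _ ≤ T * T ^ ((2 * n + 4) * n + 1) := by gcongr
      _ = (T ^ (2 * n + 2)) ^ (n + 1) := by
          rw [← pow_succ', ← pow_mul]; congr 1; ring
      _ ≤ (L + 1) ^ (n + 1) := by rw [hL]; gcongr; omega
  set A₀ : ℝ := Real.exp (n * (2 ^ J * (T : ℝ) ^ (2 * n + 4)) * g + V + T * H) with hA₀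
  have hA₀1 : 1 ≤ A₀ := by
    rw [hA₀]; apply Real.one_le_exp; positivity
  have hentry : ∀ k x, house (a' k x : K) ≤ A₀ := by
    intro k x
    -- use the general bound with a delta function
    have h1 := house_auxG_le (K := K) (Λ := Unit) (fun _ => 1) (fun _ => μ x) (fun _ => γ x)
      (fun _ => A x) L (fun _ => hμL x) 0 0 g H (L * B₀) (by simp)
      (fun _ => by
        have := house_intCast (K := K) 1
        simp only [Int.cast_one, Int.cast_abs, abs_one] at this
        simp [this]) hg0 hH0 (fun _ i => hγb x.2 i)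
      (fun _ => hγb0 x.2) hGg (fun _ => hAb x.2) (n * S₀) T (fun i => (k.1 i : ℕ)) (by
        calc ∑ i, (k.1 i : ℕ) ≤ ∑ _i : Option ι, S₀ := by
              apply Finset.sum_le_sum
              intro i _
              have := (k.1 i).isLt
              omega
          _ = n * S₀ := by rw [Finset.sum_const, Finset.card_univ, smul_eq_mul])
      ((k.2 : ℕ) + 1) (by rw [Finset.mem_Icc]; have := k.2.isLt; omega)
    have h2 : auxG (K := K) (Λ := Unit) (fun _ => 1) (fun _ => μ x) (fun _ => γ x)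
        (fun _ => A x) (fun i => (k.1 i : ℕ)) ((k.2 : ℕ) + 1) = a' k x := by
      rw [ha']
      unfold auxG
      simp
    rw [h2] at h1
    refine h1.trans ?_
    rw [hA₀]
    apply Real.exp_le_exp.2
    have h3 : L * Real.log (T : ℝ) ≤ V := by
      refine le_trans ?_ (hVlog 0 (by omega))
      have hT2' : (T : ℝ) ≤ 4 * (T : ℝ) ^ (2 + 0) := by
        rw [add_zero]; nlinarith
      gcongr
    have h4 : ((n * S₀ : ℕ) : ℝ) = n * (2 ^ J * (T : ℝ) ^ (2 * n + 4)) := by
      rw [hS₀]; push_cast; ring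
    rw [h4]
    linarith
  obtain ⟨p, hp0, hpa, hpb⟩ := hsiegel _ _ a' ha'0 (by rw [hcard1]; positivity) hcount A₀ hA₀1 hentry
  set P₀ : ℝ := 2 * Real.log C + (n + 1) * (T : ℝ) ^ (2 * n + 2) +
        n * (2 ^ J * (T : ℝ) ^ (2 * n + 4)) * g + T * H with hP₀
  set P : ℝ := P₀ + V with hP
  have hpP : ∀ x, house (p x : K) ≤ Real.exp P := by
    intro x
    refine (hpb x).trans ?_
    have e1 : Real.exp P = C * (C * Real.exp N * A₀) := by
      rw [hP, hP₀, hA₀]
      have : Real.exp (2 * Real.log C) = C * C := by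
        rw [two_mul, Real.exp_add, Real.exp_log (by linarith)]
      rw [show 2 * Real.log C + (n + 1) * (T : ℝ) ^ (2 * n + 2) +
        n * (2 ^ J * (T : ℝ) ^ (2 * n + 4)) * g + T * H + V = 2 * Real.log C + (N +
        (n * (2 ^ J * (T : ℝ) ^ (2 * n + 4)) * g + V + T * H)) by rw [hN]; ring, Real.exp_add,
        Real.exp_add, this]
      ring
    rw [e1]
    gcongr
  -- the initial vanishing
  have hinit : ∀ m : Option ι → ℕ, ∑ i, m i ≤ S₀ → ∀ l ∈ Icc 1 T, auxG p μ γ A m l = 0 := by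
    intro m hm l hl
    rw [Finset.mem_Icc] at hl
    have hmi : ∀ i, m i < S₀ + 1 := by
      intro i
      have := Finset.single_le_sum (f := m) (fun i _ => Nat.zero_le _) (mem_univ i)
      omega
    have h1 := congrFun hpa (fun i => ⟨m i, hmi i⟩, ⟨l - 1, by omega⟩)
    rw [Matrix.mulVec, dotProduct] at h1
    simp only [ha', Pi.zero_apply] at h1
    unfold auxG
    rw [← h1]
    apply Finset.sum_congr rfl
    intro x _
    rw [Nat.sub_add_cancel hl.1]
    ring
  -- the induction
  set f : (Option ι → ℕ) → ℂ → ℂ :=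
    auxF (fun x => σ (p x : K)) μ (fun x k => σ (γ x k : K)) ψ with hf
  have hfder : ∀ m z, HasDerivAt (f m) (∑ k, η k * f (m + Pi.single k 1) z) z := by
    intro m z
    exact auxF_hasDerivAt _ μ _ ψ η rfl (fun x => hψγ x.2) m z
  have hfQ : ∀ m (l : ℕ), σ (auxG p μ γ A m l : K) = E ^ l * f m l := by
    intro m l
    exact map_auxG σ p μ γ A ψ E (fun x => hAσ x.2) m l
  have hind : ∀ j ≤ J, ∀ m : Option ι → ℕ, ∑ i, m i ≤ 2 ^ (J - j) * T ^ (2 * n + 4) →
      ∀ l ∈ Icc 1 (T ^ (1 + j)), auxG p μ γ A m l = 0 := by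
    intro j
    induction j with
    | zero =>
      intro _ m hm l hl
      apply hinit m _ l
      · simpa using hl
      · simpa [hS₀] using hm
    | succ j ih =>
      intro hj
      have ih' := ih (by omega)
      have hsplit : 2 ^ (J - j) * T ^ (2 * n + 4) =
          2 ^ (J - j - 1) * T ^ (2 * n + 4) + 2 ^ (J - j - 1) * T ^ (2 * n + 4) := by
        obtain ⟨e, he⟩ : ∃ e, J - j = e + 1 := ⟨J - j - 1, by omega⟩
        rw [he, Nat.add_sub_cancel, pow_succ]
        ring
      rw [hsplit] at ih'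
      have e2 : J - (j + 1) = J - j - 1 := by omega
      have e3 : 1 + (j + 1) = 2 + j := by ring
      rw [e2, e3]
      have hT0 : (0 : ℝ) < T := by positivity
      have hT1j : (1 : ℝ) ≤ (T : ℝ) ^ (2 + j) := one_le_pow₀ (by linarith)
      have hlog1 : L * Real.log (((T ^ (2 + j) : ℕ) : ℝ)) ≤ V := by
        refine le_trans ?_ (hVlog j (by omega))
        push_cast
        gcongr
        linarith
      refine abs_step σ η f hfder (auxG p μ γ A) E hE0 hfQ
        (N + P + (2 ^ (J - j - 1) * T ^ (2 * n + 4) : ℕ) * g + V + (T ^ (2 + j) : ℕ) * H)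
        (N + P + (2 ^ (J - j - 1) * T ^ (2 * n + 4) : ℕ) * g + V + Ψ * (4 * (T ^ (2 + j) : ℕ))) H hH0 hEb
        (2 ^ (J - j - 1) * T ^ (2 * n + 4)) (2 ^ (J - j - 1) * T ^ (2 * n + 4))
        (T ^ (1 + j)) (T ^ (2 + j)) (Nat.pow_le_pow_right (by omega) (by omega)) ?_ ?_ ih' ?_
      · intro m hm l hl
        refine (house_auxG_le p μ γ A L hμL N P g H (L * B₀) hNb hpP hg0 hH0 (fun x i => hγb x.2 i)
          (fun x => hγb0 x.2) hGg (fun x => hAb x.2) _ _ m hm l hl).trans ?_
        apply Real.exp_le_exp.2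
        linarith
      · intro m hm z hz
        have hr : (1 : ℝ) ≤ 4 * ((T ^ (2 + j) : ℕ) : ℝ) := by push_cast; linarith
        refine (norm_auxF_le _ μ _ ψ L hμL N P g Ψ (L * B₀) hNb
          (fun x => (norm_embedding_le_house _ σ).trans (hpP x)) hg0
          (fun x i => (norm_embedding_le_house _ σ).trans (hγb x.2 i))
          (fun x => (norm_embedding_le_house _ σ).trans (hγb0 x.2)) hGg (fun x => hψb x.2) _ m hm z
          _ hr hz.le).trans ?_
        apply Real.exp_le_exp.2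
        have := hVlog j (by omega)
        push_cast
        push_cast at this
        linarith
      · have hnum := num_ineq n J j T (by omega) d B₀ C hd1 hB1 hC1 hT2 hT3 hT4
        rw [← hg, ← hH, ← hN] at hnum
        have hP₀' : 2 * Real.log C + N + n * (2 ^ J * (T : ℝ) ^ (2 * n + 4)) * g + T * H = P₀ := by
          rw [hP₀, hN]
        rw [hP₀'] at hnum
        push_cast
        refine lt_of_le_of_lt ?_ hnum
        have hkey : (2 * d + 1) * V + 4 * Ψ * (T : ℝ) ^ (2 + j) ≤
            4 * ((n + 1) * B₀ * (T : ℝ) ^ (2 * n + 2)) * (T : ℝ) ^ (2 + j) := by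
          have hTj : (T : ℝ) ≤ (T : ℝ) ^ (2 + j) := by
            calc (T : ℝ) = (T : ℝ) ^ 1 := (pow_one _).symm
              _ ≤ (T : ℝ) ^ (2 + j) := pow_le_pow_right₀ (by linarith) (by omega)
          rw [hV, hΨ, hB₀]
          have h8 : (2 * d + 1) * ((J + 3) * T * (T : ℝ) ^ (2 * n + 2)) ≤
              (4 * (n + 1)) * ((2 * d + 1) * (J + 3)) * (T : ℝ) ^ (2 * n + 2) * (T : ℝ) ^ (2 + j) := by
            calc (2 * d + 1) * ((J + 3) * T * (T : ℝ) ^ (2 * n + 2))
                = 1 * ((2 * d + 1) * (J + 3)) * (T : ℝ) ^ (2 * n + 2) * T := by ring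
              _ ≤ _ := by
                gcongr
                have : (0 : ℝ) ≤ n := Nat.cast_nonneg n
                linarith
          linarith
        rw [hP]
        linarith
  -- conclusion
  have hlast := hind J le_rfl
  rw [Nat.sub_self, pow_zero, one_mul] at hlast
  have hbigT : (L + 1) * Fintype.card (Option ι → Fin (L + 1)) ≤ T ^ (1 + J) := by
    rw [← Fintype.card_fin (L + 1)]
    conv_lhs => rw [Fintype.card_fin (L + 1)]
    have := hcardΛ
    rw [Fintype.card_prod, Fintype.card_fin] at this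
    rw [this]
    calc (L + 1) ^ (n + 1) ≤ (T ^ (2 * n + 3)) ^ (n + 1) := by
          gcongr
          rw [hL]
          calc T ^ (2 * n + 2) + 1 ≤ T ^ (2 * n + 2) + T ^ (2 * n + 2) := by
                have := Nat.one_le_pow (2 * n + 2) T (by omega)
                omega
            _ = T ^ (2 * n + 2) * 2 := by ring
            _ ≤ T ^ (2 * n + 2) * T := by gcongr
            _ = T ^ (2 * n + 3) := by ring
      _ = T ^ J := by rw [← pow_mul, hJ]
      _ ≤ T ^ (1 + J) := Nat.pow_le_pow_right (by omega) (by omega)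
  have hLS : L ≤ T ^ (2 * n + 4) := Nat.pow_le_pow_right (by omega) (by omega)
  -- iterated derivatives of `f 0`
  have hiter : ∀ j : ℕ, iteratedDeriv j (f (fun _ => 0)) = fun z =>
      ∑ x, σ (p x : K) * wt (μ x) j (ψ x) z * cexp (ψ x * z) := by
    intro j
    induction j with
    | zero =>
      rw [iteratedDeriv_zero, hf]
      funext z
      unfold auxF
      simp [wt_zero]
    | succ j ih =>
      rw [iteratedDeriv_succ, ih]
      funext z
      apply HasDerivAt.deriv
      apply HasDerivAt.fun_sum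
      intro x _
      have h1 : HasDerivAt (fun z : ℂ => ψ x * z) (ψ x) z := by
        simpa using (hasDerivAt_id z).const_mul (ψ x)
      have h2 := h1.cexp
      have h3 := wt_hasDerivAt j (μ x) (ψ x) z
      have h4 := (h3.const_mul (σ (p x : K))).mul h2
      refine h4.congr_deriv ?_
      rw [wt_succ]
      ring
  have hfin := final_step' L ω hω ψ₁ (fun x => rfl) (fun ν x => σ (p (ν, x) : K)) (T ^ (1 + J))
    (T ^ (2 * n + 4)) hbigT hLS (by
      intro j hj l hl
      have h1 := family_iteratedDeriv η f hfder (T ^ (2 * n + 4)) (l : ℂ) (by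
        intro m hm
        have h2 := hlast m hm l hl
        have h3 := hfQ m l
        rw [h2] at h3
        simp only [map_zero] at h3
        rcases mul_eq_zero.1 h3.symm with h4 | h4
        · exact absurd h4 (pow_ne_zero _ hE0)
        · exact h4) j (fun _ => 0) (by simpa using hj)
      rw [hiter] at h1
      simp only at h1
      rw [Fintype.sum_prod_type] at h1
      rw [Finset.sum_comm]
      exact h1)
  apply hp0
  funext x
  have h1 := hfin x.1 x.2
  have h2 : ((p x : 𝓞 K) : K) = 0 := (map_eq_zero σ).1 h1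
  exact_mod_cast h2

end Pool.Agent.H297R2
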