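import Mathlib
import Pool.Agent.H297R2.Tuples
import Pool.Agent.H297R2.InBakerThm

namespace Pool.Agent.H297R2

open Finset Module

/-- The number of exponents. -/
theorem card_Ex (k D : ℕ) : Fintype.card (Ex (Fin k) D) ≤ (D + k).choose k := by
  classical
  set T := (univ : Finset (Option (Fin k))).finsuppAntidiag D with hT
  have hcard : T.card = (D + k).choose k := by
    rw [hT, Finset.card_finsuppAntidiag_nat_eq_choose]
    rw [Finset.card_univ, Fintype.card_option, Fintype.card_fin]
    rw [show k + 1 + D - 1 = D + k by omega]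
    exact (Nat.choose_symm_of_eq_add rfl)
  rw [← hcard, ← Fintype.card_coe]
  apply Fintype.card_le_of_injective
    (fun s : Ex (Fin k) D => (⟨s.1.optionElim (D - s.1.degree), by
      rw [hT, Finset.mem_finsuppAntidiag]
      refine ⟨?_, Finset.subset_univ _⟩
      rw [Fintype.sum_option]
      simp only [Finsupp.optionElim_apply_none, Finsupp.optionElim_apply_some]
      have h1 : s.1.degree = ∑ i, s.1 i := Finsupp.degree_eq_sum _
      have h2 := s.2
      omega⟩ : T))
  intro s s' h
  apply Subtype.ext
  ext i
  have h1 := congrArg (fun z : T => z.1 (some i)) h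
  simpa using h1

/-- Substitution by polynomials of degree at most one. -/
theorem totalDegree_subst_le {κ σ τ : Type*} [CommRing κ] (f : σ → MvPolynomial τ κ)
    (hf : ∀ i, (f i).totalDegree ≤ 1) (P : MvPolynomial σ κ) :
    (MvPolynomial.aeval f P).totalDegree ≤ P.totalDegree := by
  classical
  conv_lhs => rw [P.as_sum, map_sum]
  apply MvPolynomial.totalDegree_finsetSum_le
  intro s hs
  rw [MvPolynomial.aeval_monomial]
  refine (MvPolynomial.totalDegree_mul _ _).trans ?_
  have h1 : ((algebraMap κ (MvPolynomial τ κ)) (MvPolynomial.coeff s P)).totalDegree = 0 :=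
    MvPolynomial.totalDegree_C _
  rw [h1, zero_add]
  refine le_trans ?_ (MvPolynomial.le_totalDegree hs)
  rw [Finsupp.prod]
  refine (MvPolynomial.totalDegree_finsetProd _ _).trans ?_
  rw [Finsupp.sum]
  apply Finset.sum_le_sum
  intro i _
  refine (MvPolynomial.totalDegree_pow _ _).trans ?_
  calc s i * (f i).totalDegree ≤ s i * 1 := Nat.mul_le_mul_left _ (hf i)
    _ = s i := mul_one _

theorem NoRel.shift {κ C σ : Type*} [CommRing κ] [CommRing C] [Algebra κ C] {D : ℕ}
    {v : σ → C} (h : NoRel κ D v) (c : σ → κ) : NoRel κ D (fun i => v i - algebraMap κ C (c i)) := by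
  intro P hP hx
  rcases subsingleton_or_nontrivial κ with hs | hs
  · exact Subsingleton.elim _ _
  set P' := MvPolynomial.aeval (fun i => MvPolynomial.X i - MvPolynomial.C (c i) : σ → MvPolynomial σ κ) P with hP'
  have h1 : P' = 0 := by
    apply h
    · refine (totalDegree_subst_le _ ?_ P).trans hP
      intro i
      refine (MvPolynomial.totalDegree_sub_C_le _ _).trans ?_
      rw [MvPolynomial.totalDegree_X]
    · rw [hP', ← hx, ← AlgHom.comp_apply]
      congr 1
      apply MvPolynomial.algHom_ext
      intro i
      simp [MvPolynomial.algebraMap_eq]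
  have h2 : MvPolynomial.aeval (fun i => MvPolynomial.X i + MvPolynomial.C (c i) : σ → MvPolynomial σ κ) P' = P := by
    rw [hP', ← AlgHom.comp_apply]
    conv_rhs => rw [← AlgHom.id_apply (R := κ) P]
    congr 1
    apply MvPolynomial.algHom_ext
    intro i
    simp
  rw [← h2, h1, map_zero]

section

variable {κ R : Type*} [Field κ] [IsAlgClosed κ] [CommRing R] [IsDomain R] [Algebra κ R]
  [Algebra.FiniteType κ R]

/-- Adjoining one more element of a large space of functions. -/
theorem exists_next {σ : Type*} [Fintype σ] (D : ℕ) (t : σ → R) (ht : NoRel κ D t)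
    (Λ : Submodule κ R) [Module.Finite κ Λ] (hcard : Fintype.card (Ex σ D) < finrank κ Λ) :
    ∃ u ∈ Λ, u ≠ 0 ∧ ∀ Q : Polynomial (MvPolynomial σ κ), (∀ j, (Q.coeff j).totalDegree ≤ D) →
      Q.eval₂ (MvPolynomial.aeval t : MvPolynomial σ κ →ₐ[κ] R).toRingHom u = 0 → Q = 0 := by
  classical
  set W₀ : Submodule κ R :=
    Submodule.span κ (Set.range (fun s : Ex σ D => ∏ i, t i ^ (s.1 i))) with hW₀
  have hfin : Module.Finite κ W₀ := FiniteDimensional.span_of_finite κ (Set.finite_range _)
  obtain ⟨φ, hφ⟩ := exists_points κ R (G := Unit) (Fintype.card (Ex σ D)) (fun _ => W₀) (fun g => by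
    rw [hW₀]
    exact finrank_range_le_card _)
  -- a nonzero function vanishing at the points
  set ev : Λ →ₗ[κ] (Fin (Fintype.card (Ex σ D)) → κ) :=
    (LinearMap.pi (fun j => (φ j).toLinearMap)).comp Λ.subtype with hev
  have hker : LinearMap.ker ev ≠ ⊥ := by
    apply LinearMap.ker_ne_bot_of_finrank_lt
    rw [Module.finrank_fintype_fun_eq_card, Fintype.card_fin]
    exact hcard
  obtain ⟨u, hu, hu0⟩ := (Submodule.ne_bot_iff _).1 hker
  have hφu : ∀ j, φ j (u : R) = 0 := by
    intro j
    have := congrFun (LinearMap.mem_ker.1 hu) j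
    simpa [hev] using this
  have hu0' : (u : R) ≠ 0 := fun h => hu0 (Subtype.ext h)
  refine ⟨u, u.2, hu0', ?_⟩
  -- the descent
  have hdesc : ∀ n : ℕ, ∀ Q : Polynomial (MvPolynomial σ κ), Q.natDegree ≤ n →
      (∀ j, (Q.coeff j).totalDegree ≤ D) →
      Q.eval₂ (MvPolynomial.aeval t : MvPolynomial σ κ →ₐ[κ] R).toRingHom (u : R) = 0 → Q = 0 := by
    have hcoef0 : ∀ Q : Polynomial (MvPolynomial σ κ),
        (∀ j, (Q.coeff j).totalDegree ≤ D) →
        Q.eval₂ (MvPolynomial.aeval t : MvPolynomial σ κ →ₐ[κ] R).toRingHom (u : R) = 0 →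
        Q.coeff 0 = 0 := by
      intro Q hQ hQ0
      apply ht _ (hQ 0)
      apply hφ ()
      · -- membership in the span of monomials
        rw [hW₀]
        rw [(Q.coeff 0).as_sum, map_sum]
        apply Submodule.sum_mem
        intro s hs
        rw [MvPolynomial.aeval_monomial, ← Algebra.smul_def, Finsupp.prod_fintype _ _ (by simp)]
        apply Submodule.smul_mem
        apply Submodule.subset_span
        exact ⟨⟨s, (MvPolynomial.le_totalDegree hs).trans (hQ 0)⟩, rfl⟩
      · intro j
        have h1 := congrArg (φ j) hQ0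
        rw [map_zero] at h1
        rw [← h1]
        have h2 : Q = Polynomial.X * Q.divX + Polynomial.C (Q.coeff 0) := (Polynomial.X_mul_divX_add Q).symm
        conv_rhs => rw [h2]
        rw [Polynomial.eval₂_add, Polynomial.eval₂_mul, Polynomial.eval₂_X, Polynomial.eval₂_C,
          map_add, map_mul, hφu, zero_mul, zero_add]
        rfl
    intro n
    induction n with
    | zero =>
      intro Q hn hQ hQ0
      have h1 := hcoef0 Q hQ hQ0
      rw [Polynomial.eq_C_of_natDegree_le_zero hn, h1, Polynomial.C_0]
    | succ n ih =>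
      intro Q hn hQ hQ0
      have h1 := hcoef0 Q hQ hQ0
      have h2 : Q = Polynomial.X * Q.divX := by
        conv_lhs => rw [← Polynomial.X_mul_divX_add Q, h1, Polynomial.C_0, add_zero]
      have h3 : Q.divX = 0 := by
        apply ih
        · rw [Polynomial.natDegree_divX_eq_natDegree_tsub_one]
          omega
        · intro j
          rw [Polynomial.coeff_divX]
          exact hQ _
        · rw [h2, Polynomial.eval₂_mul, Polynomial.eval₂_X] at hQ0
          rcases mul_eq_zero.1 hQ0 with h4 | h4
          · exact absurd h4 hu0'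
          · exact h4
      rw [h2, h3, mul_zero]
  exact fun Q hQ hQ0 => hdesc _ Q le_rfl hQ hQ0

theorem noRel_of_descent {σ : Type*} [Fintype σ] (D : ℕ) (t : σ → R) (u : R)
    (h : ∀ Q : Polynomial (MvPolynomial σ κ), (∀ j, (Q.coeff j).totalDegree ≤ D) →
      Q.eval₂ (MvPolynomial.aeval t : MvPolynomial σ κ →ₐ[κ] R).toRingHom u = 0 → Q = 0) :
    NoRel κ D (fun o : Option σ => o.elim u t) := by
  classical
  intro P hP hx
  have h1 : MvPolynomial.optionEquivLeft κ σ P = 0 := by
    apply h
    · intro j
      apply Finset.sup_le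
      intro m hm
      rw [MvPolynomial.mem_support_coeff_optionEquivLeft] at hm
      have h1 := (MvPolynomial.le_totalDegree hm).trans hP
      rw [Finsupp.sum_fintype _ _ (by simp), Fintype.sum_option] at h1
      rw [Finsupp.sum_fintype _ _ (by simp)]
      simp only [Finsupp.optionElim_apply_none, Finsupp.optionElim_apply_some] at h1
      omega
    · rw [← hx]
      have h2 : (Polynomial.eval₂RingHom (MvPolynomial.aeval t : MvPolynomial σ κ →ₐ[κ] R).toRingHom u).comp
          (MvPolynomial.optionEquivLeft κ σ : MvPolynomial (Option σ) κ →+* Polynomial (MvPolynomial σ κ)) =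
          (MvPolynomial.aeval (fun o : Option σ => o.elim u t) : MvPolynomial (Option σ) κ →ₐ[κ] R).toRingHom := by
        apply MvPolynomial.ringHom_ext
        · intro r
          simp
        · intro o
          rcases o with _ | i <;> simp
      exact RingHom.congr_fun h2 P
  exact (MvPolynomial.optionEquivLeft κ σ).injective (by rw [h1, map_zero])

/-- Iteration. -/
theorem exists_tuple (D : ℕ) (Λ : Submodule κ R) [Module.Finite κ Λ] (k : ℕ)
    (hk : ∀ i < k, Fintype.card (Ex (Fin i) D) < finrank κ Λ) :
    ∃ v : Fin k → R, (∀ i, v i ∈ Λ) ∧ NoRel κ D v := by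
  induction k with
  | zero =>
    refine ⟨Fin.elim0, fun i => Fin.elim0 i, ?_⟩
    intro P _ hx
    rw [MvPolynomial.eq_C_of_isEmpty P] at hx ⊢
    rw [MvPolynomial.aeval_C] at hx
    have := (map_eq_zero_iff _ (FaithfulSMul.algebraMap_injective κ R)).1 hx
    rw [this, MvPolynomial.C_0]
  | succ k ih =>
    obtain ⟨v, hv, hN⟩ := ih (fun i hi => hk i (by omega))
    obtain ⟨u, hu, _, hQ⟩ := exists_next D v hN Λ (hk k (by omega))
    have h1 := noRel_of_descent D v u hQ
    refine ⟨(fun o : Option (Fin k) => o.elim u v) ∘ (finSuccEquiv k), ?_, ?_⟩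
    · intro i
      refine Fin.cases ?_ (fun j => ?_) i
      · simpa using hu
      · simpa using hv j
    · rw [NoRel.reindex_iff]
      exact h1

end

/-- Openness of the absence of relations, with an explicit degree. -/
theorem generic_open {κ C : Type*} [Field κ] [IsAlgClosed κ] [Field C] [Algebra κ C] {k N : ℕ}
    (D : ℕ) (l : Fin N → C) (A₀ : Fin k × Fin N → κ)
    (h : NoRel κ D (fun i => ∑ j, algebraMap κ C (A₀ (i, j)) * l j)) :
    ∃ Δ : MvPolynomial (Fin k × Fin N) κ, Δ ≠ 0 ∧
      Δ.totalDegree ≤ D * (D + k).choose k ∧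
      ∀ A : Fin k × Fin N → κ, MvPolynomial.eval A Δ ≠ 0 →
        NoRel κ D (fun i => ∑ j, algebraMap κ C (A (i, j)) * l j) := by
  classical
  set U : Set C := Set.range l with hU
  set R := Algebra.adjoin κ U with hR
  have hRfg : Algebra.FiniteType κ R := by
    rw [← Subalgebra.fg_iff_finiteType]
    exact ⟨(Set.finite_range l).toFinset, by simp [hR, hU]⟩
  set lR : Fin N → R := fun j => ⟨l j, Algebra.subset_adjoin ⟨j, rfl⟩⟩ with hlR
  have hval : ∀ A : Fin k × Fin N → κ, ∀ i, ((∑ j, algebraMap κ R (A (i, j)) * lR j : R) : C) =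
      ∑ j, algebraMap κ C (A (i, j)) * l j := by
    intro A i
    push_cast
    rfl
  set I := Ex (Fin k) D with hI
  -- independence of the monomials at `A₀`
  set mono : (Fin k × Fin N → κ) → I → R := fun A s =>
    ∏ i, (∑ j, algebraMap κ R (A (i, j)) * lR j) ^ (s.1 i) with hmono
  have hmonoC : ∀ A s, ((mono A s : R) : C) =
      ∏ i, (∑ j, algebraMap κ C (A (i, j)) * l j) ^ (s.1 i) := by
    intro A s
    rw [hmono]
    push_cast
    apply Finset.prod_congr rfl
    intro i _
    rw [← hval A i]
  have hli : ∀ c : I → κ, ∑ s, c s • mono A₀ s = 0 → ∀ s, c s = 0 := by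
    rw [noRel_iff] at h
    intro c hc
    apply h c
    have h1 := congrArg (fun x : R => (x : C)) hc
    simp only [ZeroMemClass.coe_zero] at h1
    rw [← h1]
    push_cast
    apply Finset.sum_congr rfl
    intro s _
    rw [hmonoC]
  set W₀ : Submodule κ R := Submodule.span κ (Set.range (mono A₀)) with hW₀
  have hfin : Module.Finite κ W₀ := FiniteDimensional.span_of_finite κ (Set.finite_range _)
  obtain ⟨φ, hφ⟩ := exists_points κ R (G := Unit) (Fintype.card I) (fun _ => W₀) (fun g => by
    rw [hW₀]
    exact finrank_range_le_card _)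
  have e : I ≃ Fin (Fintype.card I) := Fintype.equivFin _
  -- the determinant
  set M : Matrix I I (MvPolynomial (Fin k × Fin N) κ) := Matrix.of fun s e' =>
    ∏ i, (∑ j, MvPolynomial.X (i, j) * MvPolynomial.C (φ (e e') (lR j))) ^ (s.1 i) with hM
  have hMeval : ∀ A : Fin k × Fin N → κ, ∀ s e', MvPolynomial.eval A (M s e') = φ (e e') (mono A s) := by
    intro A s e'
    rw [hM, hmono]
    simp only [Matrix.of_apply, map_prod, map_pow, map_sum, map_mul, MvPolynomial.eval_X,
      MvPolynomial.eval_C, AlgHom.commutes, Algebra.algebraMap_self, RingHom.id_apply]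
  have hdet : ∀ A : Fin k × Fin N → κ, MvPolynomial.eval A M.det =
      (Matrix.of fun s e' => φ (e e') (mono A s)).det := by
    intro A
    rw [RingHom.map_det]
    congr 1
    ext s e'
    rw [RingHom.mapMatrix_apply, Matrix.map_apply, hMeval, Matrix.of_apply]
  have hne : ∀ A : Fin k × Fin N → κ, MvPolynomial.eval A M.det ≠ 0 →
      ∀ c : I → κ, ∑ s, c s • mono A s = 0 → ∀ s, c s = 0 := by
    intro A hA c hc
    rw [hdet] at hA
    have h2 := Matrix.eq_zero_of_vecMul_eq_zero hA (v := c) (by
      funext j
      have h3 := congrArg (φ (e j)) hc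
      rw [map_sum, map_zero] at h3
      rw [Pi.zero_apply, ← h3, Matrix.vecMul, dotProduct]
      apply Finset.sum_congr rfl
      intro s _
      simp only [map_smul, Matrix.of_apply, smul_eq_mul])
    intro s
    rw [h2]
    rfl
  refine ⟨M.det, ?_, ?_, ?_⟩
  · intro h0
    have h1 : (Matrix.of fun s e' => φ (e e') (mono A₀ s)).det = 0 := by
      rw [← hdet, h0, map_zero]
    rw [← Matrix.exists_vecMul_eq_zero_iff] at h1
    obtain ⟨c, hc0, hc⟩ := h1
    apply hc0
    funext s
    apply hli c _ s
    apply hφ ()
    · apply Submodule.sum_mem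
      intro s _
      exact Submodule.smul_mem _ _ (Submodule.subset_span ⟨s, rfl⟩)
    · intro j
      have h2 := congrFun hc (e.symm j)
      rw [Pi.zero_apply, Matrix.vecMul, dotProduct] at h2
      rw [map_sum, ← h2]
      apply Finset.sum_congr rfl
      intro s _
      simp only [map_smul, Matrix.of_apply, smul_eq_mul, Equiv.apply_symm_apply]
  · rw [Matrix.det_apply]
    apply MvPolynomial.totalDegree_finsetSum_le
    intro π _
    refine le_trans ?_ (Nat.mul_le_mul_left D (card_Ex k D))
    have h1 : (Equiv.Perm.sign π • ∏ e', M (π e') e').totalDegree ≤ (∏ e', M (π e') e').totalDegree := by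
      rcases Int.units_eq_one_or (Equiv.Perm.sign π) with h2 | h2 <;> rw [h2]
      · simp
      · simp [MvPolynomial.totalDegree_neg]
    refine h1.trans ((MvPolynomial.totalDegree_finsetProd _ _).trans ?_)
    calc ∑ e', (M (π e') e').totalDegree ≤ ∑ _e' : I, D := by
          apply Finset.sum_le_sum
          intro e' _
          rw [hM, Matrix.of_apply]
          refine (MvPolynomial.totalDegree_finsetProd _ _).trans ?_
          refine le_trans ?_ (π e').2
          rw [Finsupp.degree_eq_sum]
          apply Finset.sum_le_sum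
          intro i _
          refine (MvPolynomial.totalDegree_pow _ _).trans ?_
          have h3 : (∑ j, MvPolynomial.X (i, j) * MvPolynomial.C (φ (e e') (lR j)) :
              MvPolynomial (Fin k × Fin N) κ).totalDegree ≤ 1 := by
            apply MvPolynomial.totalDegree_finsetSum_le
            intro j _
            refine (MvPolynomial.totalDegree_mul _ _).trans ?_
            rw [MvPolynomial.totalDegree_X, MvPolynomial.totalDegree_C]
          calc _ ≤ (π e').1 i * 1 := Nat.mul_le_mul_left _ h3
            _ = (π e').1 i := mul_one _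
      _ = D * Fintype.card I := by
          rw [Finset.sum_const, Finset.card_univ, smul_eq_mul, mul_comm]
  · intro A hA
    rw [noRel_iff]
    intro c hc
    apply hne A hA c
    apply Subtype.ext
    rw [ZeroMemClass.coe_zero, ← hc]
    push_cast
    apply Finset.sum_congr rfl
    intro s _
    rw [hmonoC]

/-- Logarithms of algebraic numbers: generic combinations. -/
theorem generic_combinations (k D N : ℕ) (hN : (D + k).choose k ≤ N) (l : Fin N → ℂ)
    (halg : ∀ j, IsAlgebraic ℚ (Complex.exp (l j))) (hli : LinearIndependent ℚ l) :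
    ∃ Δ : MvPolynomial (Fin (k + 1) × Fin N) (algebraicClosure ℚ ℂ), Δ ≠ 0 ∧
      Δ.totalDegree ≤ D * (D + (k + 1)).choose (k + 1) ∧
      ∀ A : Fin (k + 1) × Fin N → algebraicClosure ℚ ℂ, MvPolynomial.eval A Δ ≠ 0 →
        NoRel (algebraicClosure ℚ ℂ) D
          (fun i => ∑ j, algebraMap (algebraicClosure ℚ ℂ) ℂ (A (i, j)) * l j) := by
  classical
  have hac : IsAlgClosed (algebraicClosure ℚ ℂ) := (algebraicClosure.isAlgClosure ℚ ℂ).isAlgClosed
  set κ := algebraicClosure ℚ ℂ with hκ
  set U : Set ℂ := Set.range l with hU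
  set R := Algebra.adjoin κ U with hR
  have hRfg : Algebra.FiniteType κ R := by
    rw [← Subalgebra.fg_iff_finiteType]
    exact ⟨(Set.finite_range l).toFinset, by simp [hR, hU]⟩
  set lR : Fin N → R := fun j => ⟨l j, Algebra.subset_adjoin ⟨j, rfl⟩⟩ with hlR
  set f : Option (Fin N) → R := fun o => o.elim 1 lR with hf
  have hfli : LinearIndependent κ f := by
    rw [Fintype.linearIndependent_iff]
    intro c hc
    rw [Fintype.sum_option] at hc
    have h1 := congrArg (fun x : R => (x : ℂ)) hc
    simp only [hf, Option.elim, ZeroMemClass.coe_zero] at h1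
    push_cast at h1
    have h2 := baker_inhom l halg hli (c none : ℂ) ((mem_algebraicClosure_iff).1 (c none).2)
      (fun j => (c (some j) : ℂ)) (fun j => (mem_algebraicClosure_iff).1 (c (some j)).2) (by
        rw [← h1]
        congr 1
        · rw [Algebra.smul_def, mul_one]
          rfl)
    intro o
    rcases o with _ | j
    · exact_mod_cast h2.1
    · exact_mod_cast h2.2 j
  set Λ : Submodule κ R := Submodule.span κ (Set.range f) with hΛ
  have hΛfin : Module.Finite κ Λ := FiniteDimensional.span_of_finite κ (Set.finite_range _)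
  have hΛrank : finrank κ Λ = N + 1 := by
    rw [hΛ, finrank_span_eq_card hfli, Fintype.card_option, Fintype.card_fin]
  obtain ⟨v, hv, hvN⟩ := exists_tuple D Λ (k + 1) (by
    intro i hi
    rw [hΛrank]
    have h1 := card_Ex i D
    have h2 : (D + i).choose i ≤ (D + k).choose k := by
      rw [show (D + i).choose i = (D + i).choose D from Nat.choose_symm_add.symm,
        show (D + k).choose k = (D + k).choose D from Nat.choose_symm_add.symm]
      exact Nat.choose_le_choose _ (by omega)
    omega)
  have hv' : ∀ i, ∃ c : Option (Fin N) → κ, ∑ o, c o • f o = v i := by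
    intro i
    exact (Submodule.mem_span_range_iff_exists_fun κ).1 (hv i)
  choose c hc using hv'
  have hshift := hvN.shift (fun i => c i none)
  have hgood : NoRel κ D (fun i => ∑ j, algebraMap κ ℂ (c i (some j)) * l j) := by
    intro P hP hx
    apply hshift P hP
    apply Subtype.ext
    rw [ZeroMemClass.coe_zero, ← hx]
    have h3 : (fun i => ∑ j, algebraMap κ ℂ (c i (some j)) * l j) =
        (fun i => R.val (v i - algebraMap κ R (c i none))) := by
      funext i
      rw [← hc i, Fintype.sum_option]
      simp only [hf, Option.elim]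
      rw [Algebra.smul_def, mul_one, add_sub_cancel_left, map_sum]
      apply Finset.sum_congr rfl
      intro j _
      rw [Algebra.smul_def, map_mul]
      rfl
    rw [h3]
    exact MvPolynomial.comp_aeval_apply (f := fun i => v i - algebraMap κ R (c i none)) R.val P
  exact generic_open D l (fun ij => c ij.1 (some ij.2)) hgood

end Pool.Agent.H297R2
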