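import Mathlib
import Pool.Agent.H297R2.BiTrans
import Pool.Agent.H297R2.Density
import Pool.Agent.H297R2.InBakerThm

namespace Pool.Agent.H297R2

open Polynomial Bivariate Finset

section

variable {κ L : Type*} [Field κ] [Field L] [Algebra κ L]

theorem degLe_symm {d : ℕ} {x y : L} (h : DegLe κ d x y) : ∃ e, DegLe κ e y x := by
  obtain ⟨P, h1, _, h3⟩ := h
  exact ⟨(swap P).natDegree, swap P, swap_ne_zero h1, le_rfl, by rw [aevalAeval_swap, h3]⟩

theorem degLe_sub {d e : ℕ} {x y z : L} (hx : Transcendental κ x) (h1 : DegLe κ d x y)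
    (h2 : DegLe κ e x z) : ∃ n, DegLe κ n x (y - z) := by
  obtain ⟨a1, _⟩ := h1.minpoly_le hx (IntermediateField.adjoin κ {x})
    (IntermediateField.AdjoinSimple.gen κ x) (IntermediateField.AdjoinSimple.algebraMap_gen κ x)
  obtain ⟨a2, _⟩ := h2.minpoly_le hx (IntermediateField.adjoin κ {x})
    (IntermediateField.AdjoinSimple.gen κ x) (IntermediateField.AdjoinSimple.algebraMap_gen κ x)
  exact ⟨_, degLe_of_minpoly (a1.sub a2) le_rfl⟩

/-- The key degree bound: if `t` has degree `≤ D` over both `κ(v)` and `κ(v + w)`, then `v` has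
degree bounded in terms of `D` and the degree of `w` over `κ(t)`. -/
theorem degree_bound {D n : ℕ} {t v w : L} (ht : Transcendental κ t) (hv : Transcendental κ v)
    (hvw : Transcendental κ (v + w)) (hw : Transcendental κ w)
    (h1 : DegLe κ D v t) (h2 : DegLe κ D (v + w) t) (h3 : DegLe κ n t w) :
    DegLe κ (n * (D * n + D * n)) t v := by
  have a1 : DegLe κ (D * n) v w := h1.trans hv ht h3
  have a2 : DegLe κ (D * n) (v + w) w := h2.trans hvw ht h3
  have b1 : DegLe κ (D * n) v (v + w) := by
    have := a1.add_self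
    rwa [add_comm w v] at this
  have b2 : DegLe κ (D * n) (v + w) v := by
    have := a2.neg.add_self
    rwa [show -w + (v + w) = v by ring] at this
  obtain ⟨P, hP0, hP1, hP2, hP3⟩ := simul v (v + w) hv (D * n) (D * n) b1 b2
  have c := subst_deg P hP0 _ _ hP1 hP2 hP3
  rw [show v + w - v = w by ring] at c
  exact h3.trans ht hw c

/-- From a bivariate relation to a relation of bounded total degree. -/
theorem not_noRel {d e : ℕ} {t v : L} (ht : Transcendental κ t)
    (h1 : DegLe κ d t v) (h2 : DegLe κ e v t) :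
    ¬ NoRel κ (d + e) (fun o : Option Unit => o.elim v (fun _ => t)) := by
  obtain ⟨P, hP0, hP1, hP2, hP3⟩ := simul t v ht d e h1 h2
  intro hN
  set Φ : κ[X][Y] →ₐ[κ] MvPolynomial (Option Unit) κ :=
    aevalAeval (MvPolynomial.X (some ())) (MvPolynomial.X none) with hΦ
  set Ψ : MvPolynomial (Option Unit) κ →ₐ[κ] κ[X][Y] :=
    MvPolynomial.aeval (fun o => o.elim Y (fun _ => C X)) with hΨ
  have h0 : Φ P = 0 := by
    apply hN
    · rw [hΦ, aevalAeval_eq_eval₂', eval₂_eq_sum_range]
      apply MvPolynomial.totalDegree_finsetSum_le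
      intro j hj
      rw [Finset.mem_range] at hj
      refine (MvPolynomial.totalDegree_mul _ _).trans ?_
      have e1 : ((aeval (MvPolynomial.X (some ()) : MvPolynomial (Option Unit) κ) :
          κ[X] →ₐ[κ] _).toRingHom (P.coeff j)).totalDegree ≤ e := by
        change (aeval (MvPolynomial.X (some ()) : MvPolynomial (Option Unit) κ) (P.coeff j)).totalDegree ≤ e
        rw [aeval_eq_sum_range]
        apply MvPolynomial.totalDegree_finsetSum_le
        intro i hi
        rw [Finset.mem_range] at hi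
        refine (MvPolynomial.totalDegree_smul_le _ _).trans ?_
        refine (MvPolynomial.totalDegree_pow _ _).trans ?_
        rw [MvPolynomial.totalDegree_X, mul_one]
        have := natDegree_coeff_le P j
        omega
      have e2 : ((MvPolynomial.X none : MvPolynomial (Option Unit) κ) ^ j).totalDegree ≤ d := by
        refine (MvPolynomial.totalDegree_pow _ _).trans ?_
        rw [MvPolynomial.totalDegree_X, mul_one]
        omega
      omega
    · have h2 : (MvPolynomial.aeval (fun o : Option Unit => o.elim v (fun _ => t))).comp Φ =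
          aevalAeval (R := κ) t v := by
        rw [hΦ]
        ext <;> simp
      have := DFunLike.congr_fun h2 P
      rw [AlgHom.comp_apply] at this
      rw [this, hP3]
  apply hP0
  have h3 : Ψ.comp Φ = AlgHom.id κ κ[X][Y] := by
    rw [hΦ, hΨ]
    ext <;> simp
  have h4 := DFunLike.congr_fun h3 P
  rw [AlgHom.comp_apply, h0, map_zero] at h4
  exact h4.symm

end

theorem transcendental_of_log {z : ℂ} (hz : z ≠ 0) (h : IsAlgebraic ℚ (Complex.exp z)) :
    Transcendental (algebraicClosure ℚ ℂ) z := by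
  intro halg
  have h1 : IsAlgebraic ℚ z := by
    have : Algebra.IsAlgebraic ℚ (algebraicClosure ℚ ℂ) := algebraicClosure.isAlgebraic ℚ ℂ
    exact halg.restrictScalars ℚ
  have h2 := baker_inhom (ι := Unit) (fun _ => z) (fun _ => h) (by
    rw [linearIndependent_unique_iff]
    exact hz) (-z) h1.neg (fun _ => 1) (fun _ => isAlgebraic_one) (by simp)
  exact one_ne_zero (h2.2 ())

theorem isAlgebraic_exp_log {n : ℕ} (hn : 0 < n) :
    IsAlgebraic ℚ (Complex.exp (Real.log n : ℂ)) := by
  rw [← Complex.ofReal_exp, Real.exp_log (by exact_mod_cast hn)]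
  rw [Complex.ofReal_natCast]
  exact isAlgebraic_natCast _

theorem transcendental_log_nat {n : ℕ} (hn : 1 < n) :
    Transcendental (algebraicClosure ℚ ℂ) (Real.log n : ℂ) := by
  apply transcendental_of_log
  · have : 0 < Real.log n := Real.log_pos (by exact_mod_cast hn)
    exact_mod_cast this.ne'
  · exact isAlgebraic_exp_log (by omega)

/-- **Theorem J**: for a transcendental number `t`, the set of integers `n` such that `t` is
algebraic of degree `≤ D` over the field generated by `log n` has density zero. -/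
theorem thmJ (D : ℕ) (t : ℂ) (ht : Transcendental (algebraicClosure ℚ ℂ) t) (ε : ℝ) (hε : 0 < ε) :
    ∃ x₀ : ℕ, ∀ x ≥ x₀, ∀ A : Finset ℕ, A ⊆ Ioc 0 x →
    (∀ n ∈ A, DegLe (algebraicClosure ℚ ℂ) D (Real.log n : ℂ) t) → (A.card : ℝ) ≤ ε * x := by
  classical
  obtain ⟨P, δ', x₁, hδ', hP, hone⟩ := one_step ε hε 0
  -- the degrees of the finitely many differences
  have hw : ∃ n : ℕ, ∀ p ∈ P, ∀ q ∈ P,
      (∃ m, DegLe (algebraicClosure ℚ ℂ) m t ((Real.log q : ℂ) - (Real.log p : ℂ))) →
      DegLe (algebraicClosure ℚ ℂ) n t ((Real.log q : ℂ) - (Real.log p : ℂ)) := by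
    have hch : ∀ pq : ℕ × ℕ, ∃ n : ℕ,
        (∃ m, DegLe (algebraicClosure ℚ ℂ) m t ((Real.log pq.2 : ℂ) - (Real.log pq.1 : ℂ))) →
        DegLe (algebraicClosure ℚ ℂ) n t ((Real.log pq.2 : ℂ) - (Real.log pq.1 : ℂ)) := by
      intro pq
      by_cases h : ∃ m, DegLe (algebraicClosure ℚ ℂ) m t ((Real.log pq.2 : ℂ) - (Real.log pq.1 : ℂ))
      · obtain ⟨m, hm⟩ := h
        exact ⟨m, fun _ => hm⟩
      · exact ⟨0, fun h' => absurd h' h⟩
    choose f hf using hch
    refine ⟨∑ pq ∈ P ×ˢ P, f pq, fun p hp q hq h => ?_⟩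
    refine (hf (p, q) h).mono ?_
    exact Finset.single_le_sum (f := f) (fun _ _ => Nat.zero_le _) (Finset.mem_product.2 ⟨hp, hq⟩)
  obtain ⟨n, hn⟩ := hw
  obtain ⟨x₂, hx₂⟩ := density_one Unit (n * (D * n + D * n) + D) (δ' / 2) (by positivity)
  have htN : NoRel (algebraicClosure ℚ ℂ) (n * (D * n + D * n) + D) (fun _ : Unit => t) := by
    intro Q _ hQ
    have h1 : AlgebraicIndependent (algebraicClosure ℚ ℂ) (fun _ : Unit => t) := by
      rw [algebraicIndependent_unique_type_iff]
      exact ht
    exact (algebraicIndependent_iff.1 h1) Q hQ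
  refine ⟨max (max x₁ x₂) 1, fun x hx A hA hbad => ?_⟩
  by_contra hcon
  push Not at hcon
  have hx1 : x₁ ≤ x := by omega
  have hx2 : x₂ ≤ x := by omega
  have hx0 : (0 : ℝ) < x := by exact_mod_cast (by omega : 0 < x)
  obtain ⟨p, hp, q, hq, hpq, hcard⟩ := hone x hx1 A hA hcon.le
  set B := (Ioc 0 x).filter (fun m => p * m ∈ A ∧ q * m ∈ A) with hB
  have hpp := (hP p hp).1
  have hqp := (hP q hq).1
  have hB2 : ∀ m ∈ B, ¬ NoRel (algebraicClosure ℚ ℂ) (n * (D * n + D * n) + D)
      (fun o : Option Unit => o.elim (Real.log (p * m : ℕ) : ℂ) (fun _ => t)) := by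
    intro m hm
    rw [hB, Finset.mem_filter, Finset.mem_Ioc] at hm
    obtain ⟨⟨hm0, _⟩, hpm, hqm⟩ := hm
    set v : ℂ := (Real.log (p * m : ℕ) : ℂ) with hv
    set w : ℂ := (Real.log q : ℂ) - (Real.log p : ℂ) with hw
    have hp0 : (p : ℝ) ≠ 0 := by exact_mod_cast hpp.pos.ne'
    have hq0 : (q : ℝ) ≠ 0 := by exact_mod_cast hqp.pos.ne'
    have hm0' : (m : ℝ) ≠ 0 := by exact_mod_cast hm0.ne'
    have hvw : v + w = (Real.log (q * m : ℕ) : ℂ) := by
      rw [hv, hw]
      push_cast
      rw [Real.log_mul hp0 hm0', Real.log_mul hq0 hm0']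
      push_cast
      ring
    have h1 : DegLe (algebraicClosure ℚ ℂ) D v t := hbad _ hpm
    have h2 : DegLe (algebraicClosure ℚ ℂ) D (v + w) t := by rw [hvw]; exact hbad _ hqm
    have hp2 : 1 < p * m := lt_of_lt_of_le hpp.one_lt (Nat.le_mul_of_pos_right _ hm0)
    have hq2 : 1 < q * m := lt_of_lt_of_le hqp.one_lt (Nat.le_mul_of_pos_right _ hm0)
    have tv : Transcendental (algebraicClosure ℚ ℂ) v := transcendental_log_nat hp2
    have tvw : Transcendental (algebraicClosure ℚ ℂ) (v + w) := by
      rw [hvw]; exact transcendental_log_nat hq2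
    have tw : Transcendental (algebraicClosure ℚ ℂ) w := by
      apply transcendental_of_log
      · intro h0
        rw [hw, sub_eq_zero] at h0
        have h5 : Real.log q = Real.log p := by exact_mod_cast h0
        have h6 := Real.log_injOn_pos (Set.mem_Ioi.2 (by exact_mod_cast hqp.pos))
          (Set.mem_Ioi.2 (by exact_mod_cast hpp.pos)) h5
        apply hpq
        exact_mod_cast h6.symm
      · rw [hw, Complex.exp_sub]
        rw [div_eq_mul_inv]
        exact (isAlgebraic_exp_log hqp.pos).mul (isAlgebraic_exp_log hpp.pos).inv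
    have h3 : DegLe (algebraicClosure ℚ ℂ) n t w := by
      apply hn p hp q hq
      obtain ⟨e1, he1⟩ := degLe_symm h1
      obtain ⟨e2, he2⟩ := degLe_symm h2
      have := degLe_sub ht he2 he1
      rwa [show v + w - v = w by ring] at this
    exact not_noRel ht (degree_bound ht tv tvw tw h1 h2 h3) h1
  have h7 := hx₂ x hx2 (fun _ => t) htN (B.image (fun m => p * m)) (by
    intro y hy
    rw [Finset.mem_image] at hy
    obtain ⟨m, hm, rfl⟩ := hy
    rw [hB, Finset.mem_filter] at hm
    exact hA hm.2.1) (by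
    intro y hy
    rw [Finset.mem_image] at hy
    obtain ⟨m, hm, rfl⟩ := hy
    exact hB2 m hm)
  rw [Finset.card_image_of_injective _ (fun a b h => Nat.eq_of_mul_eq_mul_left hpp.pos h)] at h7
  have : δ' * x ≤ δ' / 2 * x := hcard.trans h7
  have h8 : 0 < δ' * x := by positivity
  linarith

end Pool.Agent.H297R2
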