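import Mathlib
import Pool.Agent.H297R2.Generic
import Pool.Agent.H297R2.ThmJ

namespace Pool.Agent.H297R2

open Finset Module Polynomial Bivariate IntermediateField

section

variable {κ R : Type*} [Field κ] [IsAlgClosed κ] [CommRing R] [IsDomain R] [Algebra κ R]
  [Algebra.FiniteType κ R]

/-- A function in a large space, over whose field `t` has large degree. -/
theorem exists_next1 (D : ℕ) (t : R) (ht : Transcendental κ t)
    (Λ : Submodule κ R) [Module.Finite κ Λ] (hcard : D + 1 < finrank κ Λ) :
    ∃ u ∈ Λ, u ≠ 0 ∧ ∀ Q : κ[X][Y], (∀ j, (Q.coeff j).natDegree ≤ D) →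
      Q.eval₂ (aeval t : κ[X] →ₐ[κ] R).toRingHom u = 0 → Q = 0 := by
  classical
  have htinj : Function.Injective (aeval t : κ[X] →ₐ[κ] R) := transcendental_iff_injective.1 ht
  set W₀ : Submodule κ R :=
    Submodule.span κ (Set.range (fun s : Fin (D + 1) => t ^ (s : ℕ))) with hW₀
  have hfin : Module.Finite κ W₀ := FiniteDimensional.span_of_finite κ (Set.finite_range _)
  obtain ⟨φ, hφ⟩ := exists_points κ R (G := Unit) (D + 1) (fun _ => W₀) (fun g => by
    rw [hW₀]
    exact (finrank_range_le_card _).trans (by simp))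
  -- a nonzero function vanishing at the points
  set ev : Λ →ₗ[κ] (Fin (D + 1) → κ) :=
    (LinearMap.pi (fun j => (φ j).toLinearMap)).comp Λ.subtype with hev
  have hker : LinearMap.ker ev ≠ ⊥ := by
    apply LinearMap.ker_ne_bot_of_finrank_lt
    rw [Module.finrank_fintype_fun_eq_card, Fintype.card_fin]
    exact hcard
  obtain ⟨u, hu, hu0⟩ := (Submodule.ne_bot_iff _).1 hker
  have hφu : ∀ j, φ j (u : R) = 0 := by
    intro j
    have := congrFun (LinearMap.mem_ker.1 hu) j
    simpa [hev] using this
  have hu0' : (u : R) ≠ 0 := fun h => hu0 (Subtype.ext h)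
  refine ⟨u, u.2, hu0', ?_⟩
  -- the descent
  have hdesc : ∀ n : ℕ, ∀ Q : κ[X][Y], Q.natDegree ≤ n →
      (∀ j, (Q.coeff j).natDegree ≤ D) →
      Q.eval₂ (aeval t : κ[X] →ₐ[κ] R).toRingHom (u : R) = 0 → Q = 0 := by
    have hcoef0 : ∀ Q : κ[X][Y], (∀ j, (Q.coeff j).natDegree ≤ D) →
        Q.eval₂ (aeval t : κ[X] →ₐ[κ] R).toRingHom (u : R) = 0 → Q.coeff 0 = 0 := by
      intro Q hQ hQ0
      apply htinj
      rw [map_zero]
      apply hφ ()
      · rw [hW₀]
        rw [aeval_eq_sum_range' (n := D + 1) (by have := hQ 0; omega)]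
        apply Submodule.sum_mem
        intro s hs
        rw [Finset.mem_range] at hs
        apply Submodule.smul_mem
        apply Submodule.subset_span
        exact ⟨⟨s, hs⟩, rfl⟩
      · intro j
        have h1 := congrArg (φ j) hQ0
        rw [map_zero] at h1
        rw [← h1]
        have h2 : Q = X * Q.divX + C (Q.coeff 0) := (X_mul_divX_add Q).symm
        conv_rhs => rw [h2]
        rw [eval₂_add, eval₂_mul, eval₂_X, eval₂_C,
          map_add, map_mul, hφu, zero_mul, zero_add]
        rfl
    intro n
    induction n with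
    | zero =>
      intro Q hn hQ hQ0
      have h1 := hcoef0 Q hQ hQ0
      rw [eq_C_of_natDegree_le_zero hn, h1, C_0]
    | succ n ih =>
      intro Q hn hQ hQ0
      have h1 := hcoef0 Q hQ hQ0
      have h2 : Q = X * Q.divX := by
        conv_lhs => rw [← X_mul_divX_add Q, h1, C_0, add_zero]
      have h3 : Q.divX = 0 := by
        apply ih
        · rw [natDegree_divX_eq_natDegree_tsub_one]
          omega
        · intro j
          rw [coeff_divX]
          exact hQ _
        · rw [h2, eval₂_mul, eval₂_X] at hQ0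
          rcases mul_eq_zero.1 hQ0 with h4 | h4
          · exact absurd h4 hu0'
          · exact h4
      rw [h2, h3, mul_zero]
  exact fun Q hQ hQ0 => hdesc _ Q le_rfl hQ hQ0

end

/-- **Generic combinations, one-sided degree.** -/
theorem generic_one_sided (D m : ℕ) (hD : D < m) (l : Fin m → ℂ)
    (halg : ∀ j, IsAlgebraic ℚ (Complex.exp (l j))) (hli : LinearIndependent ℚ l) (t : ℂ)
    (ht : Transcendental (algebraicClosure ℚ ℂ) t) :
    ∃ Δ : MvPolynomial (Fin m) (algebraicClosure ℚ ℂ), Δ ≠ 0 ∧
      ∀ a : Fin m → algebraicClosure ℚ ℂ, MvPolynomial.eval a Δ ≠ 0 →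
        ¬ DegLe (algebraicClosure ℚ ℂ) D (∑ j, algebraMap (algebraicClosure ℚ ℂ) ℂ (a j) * l j) t := by
  classical
  have hac : IsAlgClosed (algebraicClosure ℚ ℂ) := (algebraicClosure.isAlgClosure ℚ ℂ).isAlgClosed
  have hQalg : Algebra.IsAlgebraic ℚ (algebraicClosure ℚ ℂ) := algebraicClosure.isAlgebraic ℚ ℂ
  set κ := algebraicClosure ℚ ℂ with hκ
  set w : (Fin m → κ) → ℂ := fun a => ∑ j, algebraMap κ ℂ (a j) * l j with hw
  have hbaker : ∀ (c : κ) (a : Fin m → κ), algebraMap κ ℂ c + w a = 0 → c = 0 ∧ a = 0 := by
    intro c a h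
    have h2 := baker_inhom l halg hli (c : ℂ) ((mem_algebraicClosure_iff).1 c.2)
      (fun j => (a j : ℂ)) (fun j => (mem_algebraicClosure_iff).1 (a j).2) h
    refine ⟨by exact_mod_cast h2.1, ?_⟩
    funext j
    exact_mod_cast h2.2 j
  have hwtr : ∀ a : Fin m → κ, a ≠ 0 → Transcendental κ (w a) := by
    intro a ha hal
    have h1 : IsAlgebraic ℚ (w a) := hal.restrictScalars ℚ
    have h2 : w a ∈ κ := (mem_algebraicClosure_iff).2 h1
    apply ha
    refine (hbaker (-⟨w a, h2⟩) a ?_).2
    rw [map_neg]
    change -(w a) + w a = 0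
    ring
  by_contra hcon
  push Not at hcon
  -- Step 1: everything is algebraic over `κ(t)`
  have hwadd : ∀ a b, w (a + b) = w a + w b := by
    intro a b
    rw [hw]
    simp only [Pi.add_apply, map_add, add_mul, Finset.sum_add_distrib]
  have hwsmul : ∀ (c : κ) a, w (c • a) = algebraMap κ ℂ c * w a := by
    intro c a
    rw [hw]
    simp only [Pi.smul_apply, smul_eq_mul, map_mul, Finset.mul_sum, mul_assoc]
  set 𝒰 : Submodule κ (Fin m → κ) :=
    { carrier := {a | IsAlgebraic κ⟮t⟯ (w a)}
      add_mem' := by
        intro a b ha hb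
        simp only [Set.mem_ofPred_eq] at ha hb ⊢
        rw [hwadd]
        exact ha.add hb
      zero_mem' := by
        simp only [Set.mem_ofPred_eq]
        rw [hw]
        simp only [Pi.zero_apply, map_zero, zero_mul, Finset.sum_const_zero]
        exact isAlgebraic_zero
      smul_mem' := by
        intro c a ha
        simp only [Set.mem_ofPred_eq] at ha ⊢
        rw [hwsmul]
        apply IsAlgebraic.mul _ ha
        have : algebraMap κ ℂ c = algebraMap κ⟮t⟯ ℂ (algebraMap κ κ⟮t⟯ c) := rfl
        rw [this]
        exact isAlgebraic_algebraMap _ } with h𝒰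
  have h𝒰top : 𝒰 = ⊤ := by
    by_contra hne
    obtain ⟨f, hf0, hf⟩ := Submodule.exists_le_ker_of_lt_top 𝒰 (lt_top_iff_ne_top.2 hne)
    set Δ : MvPolynomial (Fin m) κ := ∑ j, MvPolynomial.C (f (Pi.single j 1)) * MvPolynomial.X j with hΔ
    have hΔe : ∀ a, MvPolynomial.eval a Δ = f a := by
      intro a
      rw [hΔ, map_sum]
      simp only [map_mul, MvPolynomial.eval_C, MvPolynomial.eval_X]
      conv_rhs => rw [← Finset.univ_sum_single a, map_sum]
      apply Finset.sum_congr rfl
      intro j _
      have : (Pi.single j (a j) : Fin m → κ) = a j • Pi.single j 1 := by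
        rw [← Pi.single_smul]
        simp
      rw [this, map_smul, smul_eq_mul, mul_comm]
    have hΔ0 : Δ ≠ 0 := by
      intro h0
      apply hf0
      ext a
      have := hΔe (Pi.single a 1)
      rw [h0, map_zero] at this
      simpa using this.symm
    obtain ⟨a, ha, had⟩ := hcon Δ hΔ0
    rw [hΔe] at ha
    have ha0 : a ≠ 0 := by
      rintro rfl
      exact ha (map_zero _)
    obtain ⟨e, he⟩ := degLe_symm had
    obtain ⟨hal, _⟩ := he.minpoly_le ht κ⟮t⟯ (AdjoinSimple.gen κ t) (AdjoinSimple.algebraMap_gen κ t)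
    have : a ∈ 𝒰 := hal
    exact ha (LinearMap.mem_ker.1 (hf this))
  have hlalg : ∀ j, IsAlgebraic κ⟮t⟯ (l j) := by
    intro j
    have h1 : Pi.single j 1 ∈ 𝒰 := by rw [h𝒰top]; trivial
    have h2 : w (Pi.single j 1) = l j := by
      rw [hw]
      simp only
      rw [Finset.sum_eq_single j]
      · simp
      · intro b _ hb
        simp [Pi.single_eq_of_ne hb]
      · simp
    rw [← h2]
    exact h1
  -- Step 2: bounded degree over `κ(t)`
  have hN : ∃ N : ℕ, ∀ a, DegLe κ N t (w a) := by
    set E := IntermediateField.adjoin κ⟮t⟯ (Set.range l) with hE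
    have hEfd : FiniteDimensional κ⟮t⟯ E := by
      have : Finite (Set.range l) := (Set.finite_range l).to_subtype
      apply IntermediateField.finiteDimensional_adjoin
      rintro x ⟨j, rfl⟩
      exact (hlalg j).isIntegral
    have hmem : ∀ a, w a ∈ E := by
      intro a
      rw [hw]
      apply sum_mem
      intro j _
      apply mul_mem
      · have : algebraMap κ ℂ (a j) = algebraMap κ⟮t⟯ ℂ (algebraMap κ κ⟮t⟯ (a j)) := rfl
        rw [this]
        exact E.algebraMap_mem _
      · exact IntermediateField.subset_adjoin _ _ ⟨j, rfl⟩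
    refine ⟨Module.finrank κ⟮t⟯ E, fun a => ?_⟩
    set a' : E := ⟨w a, hmem a⟩ with ha'
    have hint : IsIntegral κ⟮t⟯ a' := Algebra.IsIntegral.isIntegral a'
    have hmin : minpoly κ⟮t⟯ (w a) = minpoly κ⟮t⟯ a' :=
      minpoly.algebraMap_eq (algebraMap E ℂ).injective a'
    apply degLe_of_minpoly
    · exact (hint.map (IsScalarTower.toAlgHom κ⟮t⟯ E ℂ)).isAlgebraic
    · rw [hmin]
      exact minpoly.natDegree_le a'
  obtain ⟨N, hN⟩ := hN
  -- the ring of functions
  set U : Set ℂ := insert t (Set.range l) with hU
  have hUf : U.Finite := (Set.finite_range l).insert t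
  set R := Algebra.adjoin κ U with hR
  have hRfg : Algebra.FiniteType κ R := by
    rw [← Subalgebra.fg_iff_finiteType]
    exact ⟨hUf.toFinset, by simp [hR]⟩
  set tR : R := ⟨t, Algebra.subset_adjoin (Set.mem_insert _ _)⟩ with htR
  set lR : Fin m → R := fun j => ⟨l j, Algebra.subset_adjoin (Set.mem_insert_of_mem _ ⟨j, rfl⟩)⟩ with hlR
  set wR : (Fin m → κ) → R := fun a => ∑ j, algebraMap κ R (a j) * lR j with hwR
  have hwRw : ∀ a, ((wR a : R) : ℂ) = w a := by
    intro a
    rw [hwR, hw]
    push_cast
    rfl
  -- Step 3: relations of bounded bidegree for all `b`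
  have hstep3 : ∀ b, ∃ P : κ[X][Y], P ≠ 0 ∧ (swap P).natDegree ≤ D ∧ aevalAeval t (w b) P = 0 := by
    intro b₀
    by_contra hno
    push Not at hno
    set I := Fin (D + 1) × Fin (N + 1) with hI
    set mono : (Fin m → κ) → I → R := fun a s => tR ^ (s.1 : ℕ) * wR a ^ (s.2 : ℕ) with hmono
    -- from a linear relation between monomials to a bivariate polynomial
    have hrel : ∀ (a : Fin m → κ) (c : I → κ), ∑ s, c s • mono a s = 0 →
        aevalAeval t (w a) (∑ s : I, Polynomial.monomial (s.2 : ℕ) (Polynomial.monomial (s.1 : ℕ) (c s)) : κ[X][Y]) = 0 := by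
      intro a c hc
      have h1 := congrArg (fun x : R => (x : ℂ)) hc
      simp only [ZeroMemClass.coe_zero] at h1
      rw [← h1, map_sum]
      push_cast
      apply Finset.sum_congr rfl
      intro s _
      rw [← C_mul_X_pow_eq_monomial, map_mul, map_pow, aevalAeval_Y, aevalAeval_C, aeval_monomial,
        Algebra.smul_def, hmono]
      push_cast
      rw [hwRw]
      rw [mul_assoc]
    have hcoeff : ∀ (c : I → κ) (s : I),
        ((∑ s : I, Polynomial.monomial (s.2 : ℕ) (Polynomial.monomial (s.1 : ℕ) (c s)) : κ[X][Y]).coeff s.2).coeff s.1 = c s := by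
      intro c s
      rw [finsetSum_coeff, finsetSum_coeff, Finset.sum_eq_single s]
      · simp
      · intro s' _ hne
        rw [coeff_monomial]
        by_cases h2 : (s'.2 : ℕ) = s.2
        · rw [if_pos h2, coeff_monomial, if_neg]
          intro h3
          exact hne (Prod.ext (Fin.ext h3) (Fin.ext h2))
        · rw [if_neg h2, coeff_zero]
      · intro h; exact absurd (Finset.mem_univ _) h
    have hswapdeg : ∀ (c : I → κ),
        (swap (∑ s : I, Polynomial.monomial (s.2 : ℕ) (Polynomial.monomial (s.1 : ℕ) (c s)) : κ[X][Y])).natDegree ≤ D := by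
      intro c
      rw [map_sum]
      apply natDegree_sum_le_of_forall_le
      intro s _
      rw [swap_monomial_monomial]
      refine (natDegree_monomial_le _).trans ?_
      have := s.1.isLt
      omega
    have hli0 : ∀ c : I → κ, ∑ s, c s • mono b₀ s = 0 → ∀ s, c s = 0 := by
      intro c hc s
      by_contra hcs
      refine hno _ ?_ (hswapdeg c) (hrel b₀ c hc)
      intro h0
      apply hcs
      rw [← hcoeff c s, h0, coeff_zero, coeff_zero]
    set W₀ : Submodule κ R := Submodule.span κ (Set.range (mono b₀)) with hW₀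
    have hfin : Module.Finite κ W₀ := FiniteDimensional.span_of_finite κ (Set.finite_range _)
    obtain ⟨φ, hφ⟩ := exists_points κ R (G := Unit) (Fintype.card I) (fun _ => W₀) (fun g => by
      rw [hW₀]
      exact finrank_range_le_card _)
    have e : I ≃ Fin (Fintype.card I) := Fintype.equivFin _
    set M : Matrix I I (MvPolynomial (Fin m) κ) := Matrix.of fun s e' =>
      MvPolynomial.C (φ (e e') tR ^ (s.1 : ℕ)) *
        (∑ j, MvPolynomial.X j * MvPolynomial.C (φ (e e') (lR j))) ^ (s.2 : ℕ) with hM
    have hMeval : ∀ A : Fin m → κ, ∀ s e', MvPolynomial.eval A (M s e') = φ (e e') (mono A s) := by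
      intro A s e'
      rw [hM, hmono, hwR]
      simp only [Matrix.of_apply, map_pow, map_sum, map_mul, MvPolynomial.eval_X,
        MvPolynomial.eval_C, AlgHom.commutes, Algebra.algebraMap_self, RingHom.id_apply]
    have hdet : ∀ A : Fin m → κ, MvPolynomial.eval A M.det =
        (Matrix.of fun s e' => φ (e e') (mono A s)).det := by
      intro A
      rw [RingHom.map_det]
      congr 1
      ext s e'
      rw [RingHom.mapMatrix_apply, Matrix.map_apply, hMeval, Matrix.of_apply]
    have hne : ∀ A : Fin m → κ, MvPolynomial.eval A M.det ≠ 0 →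
        ∀ c : I → κ, ∑ s, c s • mono A s = 0 → ∀ s, c s = 0 := by
      intro A hA c hc
      rw [hdet] at hA
      have h2 := Matrix.eq_zero_of_vecMul_eq_zero hA (v := c) (by
        funext j
        have h3 := congrArg (φ (e j)) hc
        rw [map_sum, map_zero] at h3
        rw [Pi.zero_apply, ← h3, Matrix.vecMul, dotProduct]
        apply Finset.sum_congr rfl
        intro s _
        simp only [map_smul, Matrix.of_apply, smul_eq_mul])
      intro s
      rw [h2]
      rfl
    have hM0 : M.det ≠ 0 := by
      intro h0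
      have h1 : (Matrix.of fun s e' => φ (e e') (mono b₀ s)).det = 0 := by
        rw [← hdet, h0, map_zero]
      rw [← Matrix.exists_vecMul_eq_zero_iff] at h1
      obtain ⟨c, hc0, hc⟩ := h1
      apply hc0
      funext s
      apply hli0 c _ s
      apply hφ ()
      · apply Submodule.sum_mem
        intro s _
        exact Submodule.smul_mem _ _ (Submodule.subset_span ⟨s, rfl⟩)
      · intro j
        have h2 := congrFun hc (e.symm j)
        rw [Pi.zero_apply, Matrix.vecMul, dotProduct] at h2
        rw [map_sum, ← h2]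
        apply Finset.sum_congr rfl
        intro s _
        simp only [map_smul, Matrix.of_apply, smul_eq_mul, Equiv.apply_symm_apply]
    obtain ⟨a, ha, had⟩ := hcon M.det hM0
    obtain ⟨P, hP0, hP1, hP2, hP3⟩ := simul t (w a) ht N D (hN a) had
    -- the coefficients of `P`
    have h4 := hne a ha (fun s => (P.coeff s.2).coeff s.1) (by
      apply Subtype.ext
      rw [ZeroMemClass.coe_zero, ← hP3]
      push_cast
      rw [aevalAeval_eq_eval₂, eval₂_eq_sum_range' _ (n := N + 1) (by omega)]
      rw [Fintype.sum_prod_type_right, ← Fin.sum_univ_eq_sum_range (fun j =>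
        (aeval t : κ[X] →ₐ[κ] ℂ).toRingHom (P.coeff j) * w a ^ j) (N + 1)]
      apply Finset.sum_congr rfl
      intro j _
      have h5 : (aeval t : κ[X] →ₐ[κ] ℂ).toRingHom (P.coeff j) =
          ∑ i : Fin (D + 1), (P.coeff j).coeff (i : ℕ) • t ^ (i : ℕ) := by
        have h6 : (P.coeff j).natDegree < D + 1 := by
          have := natDegree_coeff_le P j
          omega
        have h7 := aeval_eq_sum_range' h6 t
        rw [← Fin.sum_univ_eq_sum_range (fun i => (P.coeff j).coeff i • t ^ i) (D + 1)] at h7
        exact h7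
      rw [h5, Finset.sum_mul]
      apply Finset.sum_congr rfl
      intro i _
      rw [hmono]
      push_cast
      rw [hwRw]
      rw [smul_mul_assoc])
    apply hP0
    refine Polynomial.ext fun j => Polynomial.ext fun i => ?_
    rw [coeff_zero, coeff_zero]
    by_cases hj : j < N + 1
    · by_cases hi : i < D + 1
      · exact h4 (⟨i, hi⟩, ⟨j, hj⟩)
      · apply coeff_eq_zero_of_natDegree_lt
        have := natDegree_coeff_le P j
        omega
    · rw [coeff_eq_zero_of_natDegree_lt (show P.natDegree < j by omega), coeff_zero]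
  -- Step 4: the special combination
  set f : Option (Fin m) → R := fun o => o.elim 1 lR with hf
  have hfli : LinearIndependent κ f := by
    rw [Fintype.linearIndependent_iff]
    intro c hc
    rw [Fintype.sum_option] at hc
    have h1 := congrArg (fun x : R => (x : ℂ)) hc
    simp only [hf, Option.elim, ZeroMemClass.coe_zero] at h1
    push_cast at h1
    have h2 := hbaker (c none) (fun j => c (some j)) (by
        rw [← h1]
        congr 1
        · rw [Algebra.smul_def, mul_one])
    intro o
    rcases o with _ | j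
    · exact h2.1
    · exact congrFun h2.2 j
  set Λ : Submodule κ R := Submodule.span κ (Set.range f) with hΛ
  have hΛfin : Module.Finite κ Λ := FiniteDimensional.span_of_finite κ (Set.finite_range _)
  have hΛrank : finrank κ Λ = m + 1 := by
    rw [hΛ, finrank_span_eq_card hfli, Fintype.card_option, Fintype.card_fin]
  have htRtr : Transcendental κ tR := by
    intro h
    apply ht
    exact (isAlgebraic_algHom_iff R.val Subtype.val_injective).2 h
  obtain ⟨u, huΛ, hu0, hQ⟩ := exists_next1 D tR htRtr Λ (by rw [hΛrank]; omega)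
  obtain ⟨c, hc⟩ := (Submodule.mem_span_range_iff_exists_fun κ).1 huΛ
  set b : Fin m → κ := fun j => c (some j) with hb
  obtain ⟨P, hP0, hPD, hP⟩ := hstep3 b
  have huw : u = algebraMap κ R (c none) + wR b := by
    rw [← hc, Fintype.sum_option]
    simp only [hf, Option.elim, hwR, hb]
    rw [Algebra.smul_def, mul_one]
    rfl
  have h8 : taylor (-(C (c none))) P = 0 := by
    apply hQ
    · intro j
      -- the X-degree does not increase
      rw [taylor_apply, comp_eq_sum_left, Polynomial.sum_over_range' _ (by simp) (P.natDegree + 1) (by omega),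
        finsetSum_coeff]
      apply natDegree_sum_le_of_forall_le
      intro i _
      have h9 : (X + C (-(C (c none) : κ[X])) : κ[X][Y]) = (X + C (-(c none)) : κ[X]).map C := by
        simp
      rw [h9, ← Polynomial.map_pow, coeff_C_mul, coeff_map]
      refine (natDegree_mul_le).trans ?_
      rw [natDegree_C, add_zero]
      exact (natDegree_coeff_le P i).trans hPD
    · apply Subtype.ext
      have h10 : ((eval₂ (aeval tR : κ[X] →ₐ[κ] R).toRingHom u (taylor (-(C (c none))) P) : R) : ℂ) =
          aevalAeval t (w b) P := by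
        rw [taylor_apply, eval₂_comp]
        have h11 : eval₂ (aeval tR : κ[X] →ₐ[κ] R).toRingHom u (X + C (-(C (c none) : κ[X]))) = wR b := by
          rw [huw]
          simp
        rw [h11, aevalAeval_eq_eval₂]
        have h12 := hom_eval₂ P (aeval tR : κ[X] →ₐ[κ] R).toRingHom (R.val : R →+* ℂ) (wR b)
        have h13 : (R.val : R →+* ℂ).comp (aeval tR : κ[X] →ₐ[κ] R).toRingHom =
            (aeval t : κ[X] →ₐ[κ] ℂ).toRingHom := by
          apply RingHom.ext
          intro q
          simp only [RingHom.comp_apply, AlgHom.toRingHom_eq_coe, RingHom.coe_coe]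
          exact (aeval_algHom_apply R.val tR q).symm
        rw [h13] at h12
        have h14 : (R.val : R →+* ℂ) (wR b) = w b := hwRw b
        rw [h14] at h12
        exact h12
      rw [h10, hP]
      rfl
  exact hP0 ((taylor_eq_zero _ _).1 h8)

end Pool.Agent.H297R2
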