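import Mathlib
import Pool.Agent.H297R2.ThmJ

namespace Pool.Agent.H297R2

open Polynomial Bivariate Finset IntermediateField

theorem degLe_sub' {κ L : Type*} [Field κ] [Field L] [Algebra κ L] {d e : ℕ} {x y z : L}
    (hx : Transcendental κ x) (h1 : DegLe κ d x y)
    (h2 : DegLe κ e x z) : DegLe κ (d * e) x (y - z) := by
  obtain ⟨halg1, hd1⟩ := h1.minpoly_le hx κ⟮x⟯ (AdjoinSimple.gen κ x)
    (AdjoinSimple.algebraMap_gen κ x)
  set E₀ := κ⟮x⟯ with hE₀
  set E₁ := E₀⟮y⟯ with hE₁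
  have hfd1 : FiniteDimensional E₀ E₁ := adjoin.finiteDimensional halg1.isIntegral
  have hfr1 : Module.finrank E₀ E₁ ≤ d := by
    rw [hE₁, adjoin.finrank halg1.isIntegral]; exact hd1
  have hst : IsScalarTower κ E₁ L := IsScalarTower.of_algebraMap_eq (fun _ => rfl)
  obtain ⟨halg2, hd2⟩ := h2.minpoly_le hx E₁ (algebraMap E₀ E₁ (AdjoinSimple.gen κ x)) (by
    rw [← IsScalarTower.algebraMap_apply E₀ E₁ L]
    exact AdjoinSimple.algebraMap_gen κ x)
  set E₂ := E₁⟮z⟯ with hE₂
  have hfd2 : FiniteDimensional E₁ E₂ := adjoin.finiteDimensional halg2.isIntegral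
  have hfr2 : Module.finrank E₁ E₂ ≤ e := by
    rw [hE₂, adjoin.finrank halg2.isIntegral]; exact hd2
  have hfd3 : FiniteDimensional E₀ E₂ := FiniteDimensional.trans E₀ E₁ E₂
  have hfr3 : Module.finrank E₀ E₂ ≤ d * e := by
    rw [← Module.finrank_mul_finrank E₀ E₁ E₂]
    exact Nat.mul_le_mul hfr1 hfr2
  set z' : E₂ := algebraMap E₁ E₂ (AdjoinSimple.gen E₀ y) - AdjoinSimple.gen E₁ z with hz'
  have hz'z : algebraMap E₂ L z' = y - z := by
    rw [hz', map_sub, AdjoinSimple.algebraMap_gen E₁ z, ← IsScalarTower.algebraMap_apply E₁ E₂ L,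
      AdjoinSimple.algebraMap_gen E₀ y]
  have hst2 : IsScalarTower E₀ E₂ L := IsScalarTower.of_algebraMap_eq (fun _ => rfl)
  have hint : IsIntegral E₀ z' := Algebra.IsIntegral.isIntegral z'
  have hmin : minpoly E₀ (y - z) = minpoly E₀ z' := by
    rw [← hz'z]
    exact minpoly.algebraMap_eq (algebraMap E₂ L).injective z'
  apply degLe_of_minpoly
  · rw [← hz'z]
    exact (hint.map (IsScalarTower.toAlgHom E₀ E₂ L)).isAlgebraic
  · rw [hmin]
    exact (minpoly.natDegree_le z').trans hfr3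

theorem log_sub_transcendental {p q : ℕ} (hp : p.Prime) (hq : q.Prime) (hpq : p ≠ q) :
    Transcendental (algebraicClosure ℚ ℂ) ((Real.log q : ℂ) - (Real.log p : ℂ)) := by
  apply transcendental_of_log
  · intro h0
    rw [sub_eq_zero] at h0
    have h5 : Real.log q = Real.log p := by exact_mod_cast h0
    have h6 := Real.log_injOn_pos (Set.mem_Ioi.2 (by exact_mod_cast hq.pos))
      (Set.mem_Ioi.2 (by exact_mod_cast hp.pos)) h5
    apply hpq
    exact_mod_cast h6.symm
  · rw [Complex.exp_sub]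
    rw [div_eq_mul_inv]
    exact (isAlgebraic_exp_log hq.pos).mul (isAlgebraic_exp_log hp.pos).inv

/-- For almost all pairs `(m, n)`, the number `log m` is not algebraic of degree `≤ D` over the
field generated by `log n`. -/
theorem pairs_one_side (D : ℕ) (ε : ℝ) (hε : 0 < ε) :
    ∃ x₀ : ℕ, ∀ x ≥ x₀, ∀ B : Finset (ℕ × ℕ), B ⊆ Ioc 0 x ×ˢ Ioc 0 x →
    (∀ a ∈ B, DegLe (algebraicClosure ℚ ℂ) D (Real.log a.2 : ℂ) (Real.log a.1 : ℂ)) →
    (B.card : ℝ) ≤ ε * (x : ℝ) ^ 2 := by
  classical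
  obtain ⟨P, δ', x₁, hδ', hP, hone⟩ := one_step (ε / 4) (by positivity) 0
  set k := (P ×ˢ P).card with hk
  set ε' : ℝ := ε / (4 * (k + 1)) with hε'
  have hε'0 : 0 < ε' := by positivity
  have hJ : ∃ x₂ : ℕ, ∀ p ∈ P, ∀ q ∈ P, p ≠ q → ∀ x ≥ x₂, ∀ A : Finset ℕ, A ⊆ Ioc 0 x →
      (∀ n ∈ A, DegLe (algebraicClosure ℚ ℂ) (D * D) (Real.log n : ℂ)
        ((Real.log q : ℂ) - (Real.log p : ℂ))) → (A.card : ℝ) ≤ ε' * x := by
    have hch : ∀ pq : ℕ × ℕ, ∃ x₂ : ℕ, pq.1 ∈ P → pq.2 ∈ P → pq.1 ≠ pq.2 → ∀ x ≥ x₂,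
        ∀ A : Finset ℕ, A ⊆ Ioc 0 x →
        (∀ n ∈ A, DegLe (algebraicClosure ℚ ℂ) (D * D) (Real.log n : ℂ)
        ((Real.log pq.2 : ℂ) - (Real.log pq.1 : ℂ))) → (A.card : ℝ) ≤ ε' * x := by
      intro pq
      by_cases h : pq.1 ∈ P ∧ pq.2 ∈ P ∧ pq.1 ≠ pq.2
      · obtain ⟨x₂, hx₂⟩ := thmJ (D * D) ((Real.log pq.2 : ℂ) - (Real.log pq.1 : ℂ))
          (log_sub_transcendental (hP _ h.1).1 (hP _ h.2.1).1 h.2.2) ε' hε'0
        exact ⟨x₂, fun _ _ _ => hx₂⟩
      · exact ⟨0, fun h1 h2 h3 => absurd ⟨h1, h2, h3⟩ h⟩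
    choose f hf using hch
    refine ⟨∑ pq ∈ P ×ˢ P, f pq, fun p hp q hq hpq x hx => ?_⟩
    refine hf (p, q) hp hq hpq x (le_trans ?_ hx)
    exact Finset.single_le_sum (f := f) (fun _ _ => Nat.zero_le _) (Finset.mem_product.2 ⟨hp, hq⟩)
  obtain ⟨x₂, hx₂⟩ := hJ
  obtain ⟨x₃, hx₃⟩ := exists_nat_gt (4 / ε)
  refine ⟨max (max x₁ x₂) (max x₃ 1), fun x hx B hB hbad => ?_⟩
  have hx1 : x₁ ≤ x := by omega
  have hx2 : x₂ ≤ x := by omega
  have hx3 : x₃ ≤ x := by omega
  have hx0 : (0 : ℝ) < x := by exact_mod_cast (by omega : 0 < x)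
  have hxbig : 4 / ε < x := lt_of_lt_of_le hx₃ (by exact_mod_cast hx3)
  -- columns
  set col : ℕ → Finset ℕ := fun n => (Ioc 0 x).filter (fun m => (m, n) ∈ B) with hcol
  set good : Finset ℕ := (Ioc 0 x).filter (fun n => ε / 4 * x ≤ (col n).card ∧ 1 < n) with hgood
  have hBsum : (B.card : ℝ) = ∑ n ∈ Ioc 0 x, ((col n).card : ℝ) := by
    have h1 : B.card = ∑ n ∈ Ioc 0 x, (B.filter (fun a => a.2 = n)).card :=
      Finset.card_eq_sum_card_fiberwise (fun a ha => (Finset.mem_product.1 (hB ha)).2)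
    rw [h1]
    push_cast
    apply Finset.sum_congr rfl
    intro n hn
    congr 1
    apply Finset.card_bij (fun a _ => a.1)
    · intro a ha
      rw [Finset.mem_filter] at ha
      rw [hcol]
      simp only [Finset.mem_filter]
      refine ⟨(Finset.mem_product.1 (hB ha.1)).1, ?_⟩
      rw [← ha.2]; exact ha.1
    · intro a ha b hb hab
      rw [Finset.mem_filter] at ha hb
      exact Prod.ext hab (ha.2.trans hb.2.symm)
    · intro m hm
      rw [hcol] at hm
      simp only [Finset.mem_filter] at hm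
      exact ⟨(m, n), by rw [Finset.mem_filter]; exact ⟨hm.2, rfl⟩, rfl⟩
  have hcolx : ∀ n, ((col n).card : ℝ) ≤ x := by
    intro n
    have : (col n).card ≤ (Ioc 0 x).card := Finset.card_filter_le _ _
    rw [Nat.card_Ioc] at this
    exact_mod_cast this
  -- the good columns are few
  have hgoodcard : (good.card : ℝ) ≤ k * (ε' * x) := by
    have hsub : good ⊆ (P ×ˢ P).biUnion (fun pq => good.filter (fun n => pq.1 ≠ pq.2 ∧
        DegLe (algebraicClosure ℚ ℂ) (D * D) (Real.log n : ℂ)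
        ((Real.log pq.2 : ℂ) - (Real.log pq.1 : ℂ)))) := by
      intro n hn
      have hn' := hn
      rw [hgood, Finset.mem_filter] at hn'
      obtain ⟨hn1, hn2, hn3⟩ := hn'
      obtain ⟨p, hp, q, hq, hpq, hcard⟩ := hone x hx1 (col n) (Finset.filter_subset _ _) hn2
      rw [Finset.mem_biUnion]
      refine ⟨(p, q), Finset.mem_product.2 ⟨hp, hq⟩, ?_⟩
      rw [Finset.mem_filter]
      refine ⟨hn, hpq, ?_⟩
      have h1 : (0 : ℝ) < ((Ioc 0 x).filter (fun m => p * m ∈ col n ∧ q * m ∈ col n)).card :=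
        lt_of_lt_of_le (by positivity) hcard
      obtain ⟨m, hm⟩ := Finset.card_pos.1 (by exact_mod_cast h1 :
        0 < ((Ioc 0 x).filter (fun m => p * m ∈ col n ∧ q * m ∈ col n)).card)
      rw [Finset.mem_filter, Finset.mem_Ioc] at hm
      obtain ⟨⟨hm0, _⟩, hpm, hqm⟩ := hm
      rw [hcol] at hpm hqm
      simp only [Finset.mem_filter] at hpm hqm
      have h2 := hbad _ hpm.2
      have h3 := hbad _ hqm.2
      simp only at h2 h3
      have h4 := degLe_sub' (transcendental_log_nat hn3) h3 h2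
      have hp0 : (p : ℝ) ≠ 0 := by exact_mod_cast (hP p hp).1.pos.ne'
      have hq0 : (q : ℝ) ≠ 0 := by exact_mod_cast (hP q hq).1.pos.ne'
      have hm0' : (m : ℝ) ≠ 0 := by exact_mod_cast hm0.ne'
      have h5 : (Real.log (q * m : ℕ) : ℂ) - (Real.log (p * m : ℕ) : ℂ) =
          (Real.log q : ℂ) - (Real.log p : ℂ) := by
        push_cast
        rw [Real.log_mul hp0 hm0', Real.log_mul hq0 hm0']
        push_cast
        ring
      rwa [h5] at h4
    have h1 : (good.card : ℝ) ≤ ∑ pq ∈ P ×ˢ P, ((good.filter (fun n : ℕ => pq.1 ≠ pq.2 ∧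
        DegLe (algebraicClosure ℚ ℂ) (D * D) (Real.log n : ℂ)
        ((Real.log pq.2 : ℂ) - (Real.log pq.1 : ℂ)))).card : ℝ) := by
      exact_mod_cast (Finset.card_le_card hsub).trans Finset.card_biUnion_le
    refine h1.trans ?_
    calc ∑ pq ∈ P ×ˢ P, ((good.filter (fun n : ℕ => pq.1 ≠ pq.2 ∧
        DegLe (algebraicClosure ℚ ℂ) (D * D) (Real.log n : ℂ)
        ((Real.log pq.2 : ℂ) - (Real.log pq.1 : ℂ)))).card : ℝ) ≤ ∑ _pq ∈ P ×ˢ P, ε' * x := by
          apply Finset.sum_le_sum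
          intro pq hpq
          rw [Finset.mem_product] at hpq
          by_cases hne : pq.1 = pq.2
          · rw [Finset.filter_false_of_mem (fun n _ h => h.1 hne)]
            simp only [Finset.card_empty, Nat.cast_zero]
            positivity
          · apply hx₂ pq.1 hpq.1 pq.2 hpq.2 hne x hx2
            · intro n hn
              rw [Finset.mem_filter, hgood, Finset.mem_filter] at hn
              exact hn.1.1
            · intro n hn
              rw [Finset.mem_filter] at hn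
              exact hn.2.2
      _ = k * (ε' * x) := by rw [Finset.sum_const, nsmul_eq_mul]
  have hkε : k * (ε' * x) ≤ ε / 4 * x := by
    rw [hε']
    have hk1 : (0 : ℝ) < (k : ℝ) + 1 := by positivity
    have : (k : ℝ) * (ε / (4 * (k + 1)) * x) = ε / 4 * x * (k / (k + 1)) := by
      field_simp
    rw [this]
    have h9 : (k : ℝ) / (k + 1) ≤ 1 := by rw [div_le_one hk1]; linarith
    have h10 : 0 ≤ ε / 4 * x := by positivity
    nlinarith
  -- summation
  rw [hBsum, ← Finset.sum_filter_add_sum_filter_not (Ioc 0 x) (fun n => ε / 4 * x ≤ (col n).card ∧ 1 < n)]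
  have hA1 : ∑ n ∈ (Ioc 0 x).filter (fun n => ε / 4 * x ≤ (col n).card ∧ 1 < n), ((col n).card : ℝ) ≤
      good.card * x := by
    calc _ ≤ ∑ _n ∈ (Ioc 0 x).filter (fun n => ε / 4 * x ≤ (col n).card ∧ 1 < n), (x : ℝ) :=
          Finset.sum_le_sum (fun n _ => hcolx n)
      _ = good.card * x := by rw [Finset.sum_const, nsmul_eq_mul]
  have hA2 : ∑ n ∈ (Ioc 0 x).filter (fun n => ¬ (ε / 4 * x ≤ (col n).card ∧ 1 < n)),
      ((col n).card : ℝ) ≤ ε / 4 * x * x + x := by
    calc ∑ n ∈ (Ioc 0 x).filter (fun n => ¬ (ε / 4 * x ≤ (col n).card ∧ 1 < n)), ((col n).card : ℝ)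
        ≤ ∑ n ∈ Ioc 0 x, (ε / 4 * x + if n = 1 then (x : ℝ) else 0) := by
          refine (Finset.sum_le_sum (g := fun n => ε / 4 * x + if n = 1 then (x : ℝ) else 0) ?_).trans ?_
          · intro n hn
            rw [Finset.mem_filter, Finset.mem_Ioc] at hn
            by_cases h1 : n = 1
            · simp only [h1, if_true]
              have := hcolx 1
              have h10 : 0 ≤ ε / 4 * x := by positivity
              linarith
            · simp only [h1, if_false, add_zero]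
              by_contra h2
              push Not at h2
              exact hn.2 ⟨h2.le, by omega⟩
          · apply Finset.sum_le_sum_of_subset_of_nonneg (Finset.filter_subset _ _)
            intro n _ _
            positivity
      _ = ε / 4 * x * x + x := by
          rw [Finset.sum_add_distrib, Finset.sum_const, Nat.card_Ioc, nsmul_eq_mul,
            Finset.sum_ite_eq']
          rw [if_pos (by rw [Finset.mem_Ioc]; omega)]
          simp only [Nat.sub_zero]
          ring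
  have hA3 : (x : ℝ) ≤ ε / 4 * x * x := by
    have h1 : 1 ≤ ε / 4 * x := by
      rw [div_lt_iff₀ hε] at hxbig
      linarith
    nlinarith
  have hA4 : (good.card : ℝ) * x ≤ ε / 4 * x * x := by
    have := hgoodcard.trans hkε
    exact mul_le_mul_of_nonneg_right this hx0.le
  calc _ ≤ good.card * x + (ε / 4 * x * x + x) := add_le_add hA1 hA2
    _ ≤ ε * (x : ℝ) ^ 2 := by nlinarith

end Pool.Agent.H297R2
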