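import Mathlib
import Pool.Agent.H297R2.Pairs
import Pool.Agent.H297R2.Generic

namespace Pool.Agent.H297R2

open Polynomial Finset IntermediateField
open scoped IntermediateField.algebraAdjoinAdjoin

/-- An irreducible relation divides all relations (general base). -/
theorem irreducible_dvd' {A L : Type*} [CommRing A] [IsDomain A] [UniqueFactorizationMonoid A]
    [Field L] (g : A →+* L) (hg : Function.Injective g) (v : L) (P Q : A[X]) (hP : Irreducible P)
    (hPv : P.eval₂ g v = 0) (hQv : Q.eval₂ g v = 0) : P ∣ Q := by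
  classical
  letI : NormalizedGCDMonoid A := Classical.choice inferInstance
  have hdeg : P.natDegree ≠ 0 := by
    intro h0
    rw [natDegree_eq_zero] at h0
    obtain ⟨p, rfl⟩ := h0
    rw [eval₂_C] at hPv
    have : p = 0 := hg (by rw [hPv, map_zero])
    rw [this, C_0] at hP
    exact hP.ne_zero rfl
  have hprim : P.IsPrimitive := hP.isPrimitive hdeg
  have hirr := (hprim.irreducible_iff_irreducible_map_fraction_map (K := FractionRing A)).1 hP
  rw [hprim.dvd_iff_fraction_map_dvd_fraction_map (K := FractionRing A)]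
  by_contra hnd
  have hcop := (hirr.coprime_iff_not_dvd).2 hnd
  obtain ⟨a, b, hab⟩ := hcop
  set g' : FractionRing A →+* L := IsFractionRing.lift (A := A) (g := g) hg with hg'
  have hcomp : g'.comp (algebraMap A (FractionRing A)) = g := by
    apply RingHom.ext
    intro p
    rw [hg']
    exact IsFractionRing.lift_algebraMap hg p
  have h1 : ∀ R : A[X], (R.map (algebraMap A (FractionRing A))).eval₂ g' v = R.eval₂ g v := by
    intro R
    rw [eval₂_map, hcomp]
  have h2 := congrArg (fun R => R.eval₂ g' v) hab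
  simp only [eval₂_add, eval₂_mul, h1, hPv, hQv, mul_zero, add_zero, eval₂_one] at h2
  exact zero_ne_one h2

theorem exists_irreducible_rel {A L : Type*} [CommRing A] [IsDomain A] [UniqueFactorizationMonoid A]
    [Field L] (g : A →+* L) (v : L) (Q : A[X]) (hQ0 : Q ≠ 0) (hQ : Q.eval₂ g v = 0) :
    ∃ P, Irreducible P ∧ P ∣ Q ∧ P.eval₂ g v = 0 := by
  revert hQ0 hQ
  refine WfDvdMonoid.induction_on_irreducible Q ?_ ?_ ?_
  · intro h; exact absurd rfl h
  · intro u hu _ h0
    obtain ⟨w, hw⟩ := hu.exists_right_inv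
    have := congrArg (eval₂ g v) hw
    rw [eval₂_mul, h0, zero_mul, eval₂_one] at this
    exact absurd this zero_ne_one
  · intro a i ha hi ih _ h0
    rw [eval₂_mul] at h0
    rcases mul_eq_zero.1 h0 with h3 | h3
    · exact ⟨i, hi, Dvd.intro _ rfl, h3⟩
    · obtain ⟨P, hP, hPa, hP0⟩ := ih ha h3
      exact ⟨P, hP, hPa.trans (Dvd.intro_left _ rfl), hP0⟩

section

variable {κ L σ : Type*} [Field κ] [Field L] [Algebra κ L] [Fintype σ]

/-- All coefficients have total degree at most `D`. -/
def TdegLE (D : ℕ) (Q : Polynomial (MvPolynomial σ κ)) : Prop := ∀ j, (Q.coeff j).totalDegree ≤ D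

/-- `Q(t, v)`. -/
noncomputable def evQ (t : σ → L) (v : L) (Q : Polynomial (MvPolynomial σ κ)) : L :=
  Q.eval₂ (MvPolynomial.aeval t : MvPolynomial σ κ →ₐ[κ] L).toRingHom v

/-- Exchange of the two groups of variables. -/
noncomputable def flip : Polynomial (MvPolynomial σ κ) →+* MvPolynomial σ κ[X] :=
  Polynomial.eval₂RingHom (MvPolynomial.map (Polynomial.C : κ →+* κ[X])) (MvPolynomial.C X)

omit [Fintype σ] in
theorem coeff_flip (Q : Polynomial (MvPolynomial σ κ)) (s : σ →₀ ℕ) (j : ℕ) :
    (MvPolynomial.coeff s (flip Q)).coeff j = MvPolynomial.coeff s (Q.coeff j) := by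
  induction Q using Polynomial.induction_on' with
  | add p q hp hq =>
    rw [map_add, MvPolynomial.coeff_add, coeff_add, coeff_add, MvPolynomial.coeff_add, hp, hq]
  | monomial n a =>
    have h1 : flip (Polynomial.monomial n a) =
        MvPolynomial.map (Polynomial.C : κ →+* κ[X]) a * MvPolynomial.C (X ^ n) := by
      unfold flip
      rw [coe_eval₂RingHom, eval₂_monomial, map_pow]
    rw [h1, mul_comm, MvPolynomial.coeff_C_mul, MvPolynomial.coeff_map, mul_comm,
      coeff_C_mul_X_pow, coeff_monomial]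
    by_cases h : j = n
    · rw [if_pos h, if_pos h.symm]
    · rw [if_neg h, if_neg (fun h' => h h'.symm), MvPolynomial.coeff_zero]

omit [Fintype σ] in
theorem TdegLE_iff (D : ℕ) (Q : Polynomial (MvPolynomial σ κ)) :
    TdegLE D Q ↔ (flip Q).totalDegree ≤ D := by
  constructor
  · intro h
    apply Finset.sup_le
    intro s hs
    rw [MvPolynomial.mem_support_iff] at hs
    have : ∃ j, (MvPolynomial.coeff s (flip Q)).coeff j ≠ 0 := by
      by_contra hcon
      push Not at hcon
      exact hs (Polynomial.ext (fun j => by rw [hcon j, coeff_zero]))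
    obtain ⟨j, hj⟩ := this
    rw [coeff_flip] at hj
    exact (MvPolynomial.le_totalDegree (MvPolynomial.mem_support_iff.2 hj)).trans (h j)
  · intro h j
    apply Finset.sup_le
    intro s hs
    rw [MvPolynomial.mem_support_iff, ← coeff_flip] at hs
    refine (MvPolynomial.le_totalDegree (p := flip Q) ?_).trans h
    rw [MvPolynomial.mem_support_iff]
    intro h0
    rw [h0, coeff_zero] at hs
    exact hs rfl

omit [Fintype σ] in
theorem flip_ne_zero {Q : Polynomial (MvPolynomial σ κ)} (h : Q ≠ 0) : flip Q ≠ 0 := by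
  intro h0
  apply h
  refine Polynomial.ext fun j => ?_
  ext s
  rw [← coeff_flip, h0]
  simp

omit [Fintype σ] in
theorem TdegLE.of_dvd {D : ℕ} {P Q : Polynomial (MvPolynomial σ κ)} (hPQ : P ∣ Q) (hQ : Q ≠ 0)
    (h : TdegLE D Q) : TdegLE D P := by
  rw [TdegLE_iff] at h ⊢
  obtain ⟨R, rfl⟩ := hPQ
  have hP0 : P ≠ 0 := left_ne_zero_of_mul hQ
  have hR0 : R ≠ 0 := right_ne_zero_of_mul hQ
  rw [map_mul, MvPolynomial.totalDegree_mul_of_isDomain (flip_ne_zero hP0) (flip_ne_zero hR0)] at h
  omega

omit [Fintype σ] in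
/-- Simultaneous control of the degree in `t` and in `v`. -/
theorem simul' {D e : ℕ} {t : σ → L} (ht : AlgebraicIndependent κ t) {v : L}
    (h1 : ∃ Q : Polynomial (MvPolynomial σ κ), Q ≠ 0 ∧ TdegLE D Q ∧ evQ t v Q = 0)
    (h2 : ∃ Q : Polynomial (MvPolynomial σ κ), Q ≠ 0 ∧ Q.natDegree ≤ e ∧ evQ t v Q = 0) :
    ∃ Q : Polynomial (MvPolynomial σ κ), Q ≠ 0 ∧ TdegLE D Q ∧ Q.natDegree ≤ e ∧ evQ t v Q = 0 := by
  obtain ⟨Q₁, a1, a2, a3⟩ := h1
  obtain ⟨Q₂, b1, b2, b3⟩ := h2
  obtain ⟨P, hP, hPQ, hPv⟩ := exists_irreducible_rel _ v Q₁ a1 a3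
  have hdvd := irreducible_dvd' (MvPolynomial.aeval t : MvPolynomial σ κ →ₐ[κ] L).toRingHom ht v P Q₂ hP
    hPv b3
  exact ⟨P, hP.ne_zero, a2.of_dvd hPQ a1, (natDegree_le_of_dvd hdvd b1).trans b2, hPv⟩

omit [Fintype σ] in
theorem not_noRel' {D e : ℕ} {t : σ → L} {v : L} (Q : Polynomial (MvPolynomial σ κ)) (hQ0 : Q ≠ 0)
    (hQD : TdegLE D Q) (hQe : Q.natDegree ≤ e) (hQ : evQ t v Q = 0) :
    ¬ NoRel κ (D + e) (fun o : Option σ => o.elim v t) := by
  intro hN
  set P := (MvPolynomial.optionEquivLeft κ σ).symm Q with hP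
  have hPQ : MvPolynomial.optionEquivLeft κ σ P = Q := AlgEquiv.apply_symm_apply _ _
  have h1 : P = 0 := by
    apply hN
    · apply Finset.sup_le
      intro m hm
      have h2 : m.some ∈ (Q.coeff (m none)).support := by
        rw [← hPQ, MvPolynomial.mem_support_coeff_optionEquivLeft, Finsupp.optionElim_some]
        exact hm
      have h3 := (MvPolynomial.le_totalDegree h2).trans (hQD (m none))
      have h4 : m none ≤ e := by
        refine le_trans ?_ hQe
        apply le_natDegree_of_ne_zero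
        intro h0
        rw [h0] at h2
        simp at h2
      have h5 : (m.sum fun _ e => e) = m none + (m.some.sum fun _ e => e) := by
        rw [Finsupp.sum_option_index m (fun _ e => e) (by simp) (by simp)]
      rw [h5]
      omega
    · have h2 : (Polynomial.eval₂RingHom (MvPolynomial.aeval t : MvPolynomial σ κ →ₐ[κ] L).toRingHom v).comp
          (MvPolynomial.optionEquivLeft κ σ : MvPolynomial (Option σ) κ →+* Polynomial (MvPolynomial σ κ)) =
          (MvPolynomial.aeval (fun o : Option σ => o.elim v t) : MvPolynomial (Option σ) κ →ₐ[κ] L).toRingHom := by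
        apply MvPolynomial.ringHom_ext
        · intro r
          simp
        · intro o
          rcases o with _ | i <;> simp
      have h3 := RingHom.congr_fun h2 P
      have h4 : (Polynomial.eval₂RingHom (MvPolynomial.aeval t : MvPolynomial σ κ →ₐ[κ] L).toRingHom v)
        (MvPolynomial.optionEquivLeft κ σ P) = 0 := by
        rw [hPQ]; exact hQ
      exact h3.symm.trans h4
  apply hQ0
  rw [← hPQ, h1, map_zero]

end

end Pool.Agent.H297R2
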