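import Mathlib
import Pool.Agent.H297R2.MvRel

namespace Pool.Agent.H297R2

open Polynomial Bivariate Finset IntermediateField
open scoped IntermediateField.algebraAdjoinAdjoin

section

variable {κ L σ : Type*} [Field κ] [Field L] [Algebra κ L] [Fintype σ] [DecidableEq σ]

/-- The field generated by all `t j`, `j ≠ i`. -/
noncomputable abbrev fieldExcept (κ : Type*) {L σ : Type*} [Field κ] [Field L] [Algebra κ L]
    (t : σ → L) (i : σ) : IntermediateField κ L :=
  IntermediateField.adjoin κ (t '' {j | j ≠ i})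

/-- Specialisation of all variables except one. -/
noncomputable def spec (t : σ → L) (i : σ) : MvPolynomial σ κ →ₐ[κ] (fieldExcept κ t i)[X] :=
  MvPolynomial.aeval (fun j => if h : j = i then X else
    C ⟨t j, IntermediateField.subset_adjoin κ _ ⟨j, h, rfl⟩⟩)

theorem spec_eval (t : σ → L) (i : σ) (q : MvPolynomial σ κ) :
    aeval (t i) (spec t i q) = MvPolynomial.aeval t q := by
  have h : ((aeval (t i) : (fieldExcept κ t i)[X] →ₐ[fieldExcept κ t i] L).restrictScalars κ).comp
      (spec t i) = MvPolynomial.aeval t := by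
    apply MvPolynomial.algHom_ext
    intro j
    rw [AlgHom.comp_apply, spec, MvPolynomial.aeval_X, MvPolynomial.aeval_X]
    by_cases hj : j = i
    · subst hj
      simp
    · rw [dif_neg hj]
      simp only [AlgHom.coe_restrictScalars', aeval_C]
      rfl
  exact DFunLike.congr_fun h q

theorem spec_injective {t : σ → L} (ht : AlgebraicIndependent κ t) (i : σ) :
    Function.Injective (spec (κ := κ) t i) := by
  intro p q hpq
  apply ht
  have h1 := congrArg (aeval (t i)) hpq
  rwa [spec_eval, spec_eval] at h1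

theorem spec_natDegree (t : σ → L) (i : σ) (q : MvPolynomial σ κ) :
    (spec t i q).natDegree ≤ q.totalDegree := by
  conv_lhs => rw [q.as_sum, map_sum]
  apply natDegree_sum_le_of_forall_le
  intro s hs
  refine le_trans ?_ (MvPolynomial.le_totalDegree hs)
  rw [spec, MvPolynomial.aeval_monomial]
  refine (natDegree_mul_le).trans ?_
  have h1 : ((algebraMap κ (fieldExcept κ t i)[X]) (MvPolynomial.coeff s q)).natDegree = 0 := by
    rw [IsScalarTower.algebraMap_apply κ (fieldExcept κ t i) (fieldExcept κ t i)[X]]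
    exact natDegree_C _
  rw [h1, zero_add, Finsupp.prod]
  refine (natDegree_prod_le _ _).trans ?_
  rw [Finsupp.sum]
  apply Finset.sum_le_sum
  intro j _
  refine (natDegree_pow_le).trans ?_
  have h2 : (if h : j = i then X else
    C (⟨t j, IntermediateField.subset_adjoin κ _ ⟨j, h, rfl⟩⟩ : fieldExcept κ t i) :
      (fieldExcept κ t i)[X]).natDegree ≤ 1 := by
    split_ifs
    · exact natDegree_X_le
    · rw [natDegree_C]; exact Nat.zero_le _
  calc _ ≤ s j * 1 := Nat.mul_le_mul_left _ h2
    _ = s j := mul_one _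

theorem map_spec_ne_zero {t : σ → L} (ht : AlgebraicIndependent κ t) (i : σ)
    {Q : Polynomial (MvPolynomial σ κ)} (hQ : Q ≠ 0) : Q.map (spec t i).toRingHom ≠ 0 := by
  rwa [Ne, Polynomial.map_eq_zero_iff (spec_injective ht i)]

theorem map_spec_eval (t : σ → L) (i : σ) (v : L) (Q : Polynomial (MvPolynomial σ κ)) :
    aevalAeval (t i) v (Q.map (spec t i).toRingHom) = evQ t v Q := by
  rw [aevalAeval_eq_eval₂, eval₂_map]
  unfold evQ
  congr 1
  apply RingHom.ext
  intro q
  exact spec_eval t i q

theorem degLe_of_natDegree {t : σ → L} (ht : AlgebraicIndependent κ t) (i : σ) {v : L} {e : ℕ}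
    {Q : Polynomial (MvPolynomial σ κ)} (hQ0 : Q ≠ 0) (hQe : Q.natDegree ≤ e)
    (hQ : evQ t v Q = 0) : DegLe (fieldExcept κ t i) e (t i) v :=
  ⟨Q.map (spec t i).toRingHom, map_spec_ne_zero ht i hQ0, natDegree_map_le.trans hQe, by
    rw [map_spec_eval, hQ]⟩

theorem degLe_of_TdegLE {t : σ → L} (ht : AlgebraicIndependent κ t) (i : σ) {v : L} {D : ℕ}
    {Q : Polynomial (MvPolynomial σ κ)} (hQ0 : Q ≠ 0) (hQD : TdegLE D Q)
    (hQ : evQ t v Q = 0) : DegLe (fieldExcept κ t i) D v (t i) := by
  refine ⟨swap (Q.map (spec t i).toRingHom), swap_ne_zero (map_spec_ne_zero ht i hQ0), ?_, ?_⟩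
  · apply natDegree_swap_le
    intro j
    rw [coeff_map]
    exact (spec_natDegree t i _).trans (hQD j)
  · rw [aevalAeval_swap, map_spec_eval, hQ]

omit [Fintype σ] [DecidableEq σ] in
/-- Clearing denominators. -/
theorem exists_of_minpoly (t : σ → L) {v : L} {e : ℕ}
    (halg : IsAlgebraic (IntermediateField.adjoin κ (Set.range t)) v)
    (hd : (minpoly (IntermediateField.adjoin κ (Set.range t)) v).natDegree ≤ e) :
    ∃ Q : Polynomial (MvPolynomial σ κ), Q ≠ 0 ∧ Q.natDegree ≤ e ∧ evQ t v Q = 0 := by
  classical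
  set K := IntermediateField.adjoin κ (Set.range t) with hK
  set p := minpoly K v with hp
  have hp0 : p ≠ 0 := minpoly.ne_zero halg.isIntegral
  have hpy : aeval v p = 0 := minpoly.aeval _ _
  set R := Algebra.adjoin κ (Set.range t) with hR
  have hfr : IsFractionRing R K := inferInstance
  set q : R[X] := IsLocalization.integerNormalization (nonZeroDivisors R) p with hq
  obtain ⟨b, hb, hbp⟩ := IsLocalization.integerNormalization_spec (nonZeroDivisors R) p
  have hq0 : q ≠ 0 := by
    rw [hq, Ne, IsLocalization.integerNormalization_eq_zero_iff le_rfl]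
    exact hp0
  have hqd : q.natDegree ≤ e := by
    refine le_trans ?_ hd
    apply natDegree_le_natDegree
    have := IsLocalization.integerNormalization_support (nonZeroDivisors R) p
    exact Finset.sup_mono this
  set f : MvPolynomial σ κ →ₐ[κ] R :=
    MvPolynomial.aeval (fun i => (⟨t i, Algebra.subset_adjoin ⟨i, rfl⟩⟩ : R)) with hf
  have hfval : ∀ s, ((f s : R) : L) = MvPolynomial.aeval t s := by
    intro s
    exact (MvPolynomial.comp_aeval_apply (f := fun i => (⟨t i, Algebra.subset_adjoin ⟨i, rfl⟩⟩ : R)) R.val s)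
  have hfs : Function.Surjective f := by
    intro r
    obtain ⟨r, hr⟩ := r
    have hr' := hr
    rw [hR, Algebra.adjoin_range_eq_range_aeval] at hr'
    obtain ⟨s, hs⟩ := hr'
    refine ⟨s, Subtype.ext ?_⟩
    rw [hfval]
    exact hs
  have hql : q ∈ lifts (f : MvPolynomial σ κ →+* R) := by
    rw [lifts_iff_coeff_lifts]
    intro n
    obtain ⟨s, hs⟩ := hfs (q.coeff n)
    exact ⟨s, hs⟩
  obtain ⟨P, hPq, hPd⟩ := exists_degree_eq_of_mem_lifts hql
  refine ⟨P, ?_, ?_, ?_⟩
  · rintro rfl
    rw [Polynomial.map_zero] at hPq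
    exact hq0 hPq.symm
  · rw [natDegree_eq_of_degree_eq hPd]; exact hqd
  · unfold evQ
    have hcomp : (algebraMap R L).comp (f : MvPolynomial σ κ →+* R) =
        (MvPolynomial.aeval t : MvPolynomial σ κ →ₐ[κ] L).toRingHom := by
      apply RingHom.ext
      intro s
      exact hfval s
    rw [← hcomp, ← eval₂_map, hPq]
    have h2 : (algebraMap R L) = (algebraMap K L).comp (algebraMap R K) :=
      IsScalarTower.algebraMap_eq R K L
    rw [h2, ← eval₂_map, hbp, ← aeval_def, Algebra.smul_def, map_mul, hpy, mul_zero]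

/-- Back from one variable to all variables. -/
theorem exists_of_degLe {t : σ → L} (ht : AlgebraicIndependent κ t) (i : σ)
    (hti : Transcendental (fieldExcept κ t i) (t i)) {v : L} {e : ℕ}
    (h : DegLe (fieldExcept κ t i) e (t i) v) :
    ∃ Q : Polynomial (MvPolynomial σ κ), Q ≠ 0 ∧ Q.natDegree ≤ e ∧ evQ t v Q = 0 := by
  set K := IntermediateField.adjoin κ (Set.range t) with hK
  have hle : fieldExcept κ t i ≤ K := by
    apply IntermediateField.adjoin.mono
    exact Set.image_subset_range _ _
  letI : Algebra (fieldExcept κ t i) K := (IntermediateField.inclusion hle).toRingHom.toAlgebra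
  have hst : IsScalarTower (fieldExcept κ t i) K L := IsScalarTower.of_algebraMap_eq (fun _ => rfl)
  obtain ⟨h1, h2⟩ := h.minpoly_le hti K ⟨t i, IntermediateField.subset_adjoin κ _ ⟨i, rfl⟩⟩ rfl
  exact exists_of_minpoly t h1 h2

end

end Pool.Agent.H297R2
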