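import Mathlib
import Pool.Agent.H297R2.MvBound

namespace Pool.Agent.H297R2

open Polynomial Bivariate Finset IntermediateField
open scoped IntermediateField.algebraAdjoinAdjoin

section

variable {κ L σ : Type*} [Field κ] [Field L] [Algebra κ L]

theorem transcendental_fieldAdjoin {t : σ → L} (ht : AlgebraicIndependent κ t) {s : Set σ} {i : σ}
    (hi : i ∉ s) : Transcendental (IntermediateField.adjoin κ (t '' s)) (t i) := by
  have h1 := ht.transcendental_adjoin hi
  intro h2
  apply h1
  exact (IsFractionRing.isAlgebraic_iff (Algebra.adjoin κ (t '' s))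
    (IntermediateField.adjoin κ (t '' s)) L).2 h2

/-- An element algebraic over `κ(t_j, j ∈ S)` and over every `κ(t_j, j ≠ i)` is algebraic. -/
theorem isAlgebraic_of_all [DecidableEq σ] {t : σ → L} (ht : AlgebraicIndependent κ t) {w : L}
    (hall : ∀ i, IsAlgebraic (fieldExcept κ t i) w) (S : Finset σ) :
    IsAlgebraic (IntermediateField.adjoin κ (t '' (S : Set σ))) w → IsAlgebraic κ w := by
  induction S using Finset.induction_on with
  | empty =>
    intro h
    have h1 : Algebra.IsAlgebraic κ (IntermediateField.adjoin κ (t '' ((∅ : Finset σ) : Set σ))) := by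
      apply IntermediateField.isAlgebraic_adjoin
      simp
    exact h.restrictScalars κ
  | insert i S hi ih =>
    intro h
    set F := IntermediateField.adjoin κ (t '' (S : Set σ)) with hF
    by_cases hw : IsAlgebraic F w
    · exact ih hw
    · exfalso
      have hwtr : Transcendental F w := hw
      have hti : Transcendental F (t i) := transcendental_fieldAdjoin ht (by simpa using hi)
      -- `w` is algebraic over `F(t i)`
      have hle : IntermediateField.adjoin κ (t '' ((insert i S : Finset σ) : Set σ)) ≤
          (F⟮t i⟯).restrictScalars κ := by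
        rw [IntermediateField.adjoin_le_iff]
        rintro x ⟨j, hj, rfl⟩
        rw [Finset.coe_insert, Set.mem_insert_iff] at hj
        rcases hj with rfl | hj
        · exact IntermediateField.mem_adjoin_simple_self F _
        · have h1 : t j ∈ F := IntermediateField.subset_adjoin κ _ ⟨j, hj, rfl⟩
          exact (F⟮t i⟯).algebraMap_mem ⟨t j, h1⟩
      have hw1 : IsAlgebraic F⟮t i⟯ w := by
        obtain ⟨p, hp0, hp⟩ := h
        let g : IntermediateField.adjoin κ (t '' ((insert i S : Finset σ) : Set σ)) →+* F⟮t i⟯ :=
          { toFun := fun x => ⟨x.1, hle x.2⟩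
            map_one' := rfl
            map_mul' := fun _ _ => rfl
            map_zero' := rfl
            map_add' := fun _ _ => rfl }
        refine ⟨p.map g, ?_, ?_⟩
        · rwa [Ne, Polynomial.map_eq_zero_iff g.injective]
        · rw [aeval_def, eval₂_map]
          exact hp
      have hd : DegLe F _ (t i) w := degLe_of_minpoly hw1 le_rfl
      obtain ⟨e, he⟩ := degLe_symm hd
      -- base change to `k_i`
      have hFk : F ≤ fieldExcept κ t i := by
        apply IntermediateField.adjoin.mono
        apply Set.image_mono
        intro j hj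
        simp only [Set.mem_ofPred_eq]
        rintro rfl
        exact hi (by exact_mod_cast hj)
      set k := fieldExcept κ t i with hk
      set E : IntermediateField k L := k⟮w⟯ with hE
      let _ : Algebra F k := (IntermediateField.inclusion hFk).toRingHom.toAlgebra
      let _ : Algebra F E := ((algebraMap k E).comp (algebraMap F k)).toAlgebra
      have hst : IsScalarTower F E L := IsScalarTower.of_algebraMap_eq (fun _ => rfl)
      have h1 := he.minpoly_le hwtr E (AdjoinSimple.gen k w) (AdjoinSimple.algebraMap_gen k w)
      have hEalg : Algebra.IsAlgebraic k E := IntermediateField.isAlgebraic_adjoin_simple (hall i).isIntegral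
      have h2 : IsAlgebraic k (t i) := h1.1.restrictScalars k
      exact transcendental_fieldAdjoin ht (s := {j | j ≠ i}) (by simp) h2

theorem exists_index [Fintype σ] [DecidableEq σ] {t : σ → L} (ht : AlgebraicIndependent κ t) {w : L}
    (hw : Transcendental κ w)
    (hwt : IsAlgebraic (IntermediateField.adjoin κ (Set.range t)) w) :
    ∃ i, Transcendental (fieldExcept κ t i) w := by
  by_contra hcon
  push Not at hcon
  apply hw
  apply isAlgebraic_of_all ht (fun i => by
    have := hcon i
    rwa [Transcendental, not_not] at this) Finset.univ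
  rwa [Finset.coe_univ, Set.image_univ]

/-- If `b` is transcendental and `v` is algebraic over `k`, the degree of `v` over `k(b)` bounds
its degree over `k`. -/
theorem degLe_of_algebraic {k : Type*} [Field k] [Algebra k L] {e : ℕ} {b v : L}
    (hb : Transcendental k b) (hv : IsAlgebraic k v) (h : DegLe k e b v) (x : L) : DegLe k e x v := by
  obtain ⟨P, hP0, hPe, hP⟩ := h
  have hkv : Algebra.IsAlgebraic k k⟮v⟯ := IntermediateField.isAlgebraic_adjoin_simple hv.isIntegral
  have hb' : Transcendental k⟮v⟯ b := hb.extendScalars _
  have hzero : ∀ i, aeval v ((swap P).coeff i) = 0 := by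
    have h1 : aevalAeval v b (swap P) = 0 := by rw [aevalAeval_swap, hP]
    rw [aevalAeval_eq_eval₂] at h1
    set f : k[X] →+* k⟮v⟯ := (aeval (AdjoinSimple.gen k v) : k[X] →ₐ[k] k⟮v⟯).toRingHom with hf
    have hcomp : (algebraMap k⟮v⟯ L).comp f = (aeval v : k[X] →ₐ[k] L).toRingHom := by
      apply RingHom.ext
      intro p
      rw [hf]
      simp only [RingHom.comp_apply, AlgHom.toRingHom_eq_coe, RingHom.coe_coe]
      rw [← aeval_algebraMap_apply, AdjoinSimple.algebraMap_gen]
    rw [← hcomp, ← eval₂_map] at h1
    have h2 : (swap P).map f = 0 := by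
      by_contra hne
      exact hb' ⟨_, hne, h1⟩
    intro i
    have h3 := congrArg (fun p => algebraMap k⟮v⟯ L (p.coeff i)) h2
    simp only [coeff_map, coeff_zero, map_zero] at h3
    have h4 := RingHom.congr_fun hcomp ((swap P).coeff i)
    rw [RingHom.comp_apply, h3] at h4
    exact h4.symm
  obtain ⟨i, hi⟩ : ∃ i, (swap P).coeff i ≠ 0 := by
    by_contra hcon
    push Not at hcon
    exact swap_ne_zero hP0 (Polynomial.ext (fun i => by rw [hcon i, coeff_zero]))
  refine ⟨((swap P).coeff i).map C, ?_, ?_, ?_⟩
  · rwa [Ne, Polynomial.map_eq_zero_iff C_injective]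
  · refine natDegree_map_le.trans ((natDegree_coeff_le (swap P) i).trans ?_)
    rwa [swap_swap_apply]
  · rw [aevalAeval_eq_eval₂, eval₂_map]
    have h5 : (aeval x : k[X] →ₐ[k] L).toRingHom.comp C = algebraMap k L := by
      apply RingHom.ext
      intro c
      simp
    rw [h5]
    exact hzero i

/-- The degree bound for several algebraically independent numbers. -/
theorem degree_bound_all [Fintype σ] [DecidableEq σ] {D n : ℕ} {t : σ → L} {v w : L}
    (ht : AlgebraicIndependent κ t) (hw : Transcendental κ w)
    (h1 : ∃ Q : Polynomial (MvPolynomial σ κ), Q ≠ 0 ∧ TdegLE D Q ∧ evQ t v Q = 0)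
    (h2 : ∃ Q : Polynomial (MvPolynomial σ κ), Q ≠ 0 ∧ TdegLE D Q ∧ evQ t (v + w) Q = 0)
    (h3 : ∃ Q : Polynomial (MvPolynomial σ κ), Q ≠ 0 ∧ Q.natDegree ≤ n ∧ evQ t w Q = 0) :
    ∃ Q : Polynomial (MvPolynomial σ κ), Q ≠ 0 ∧
      Q.natDegree ≤ n * (D * n + D * n) + D * n + D * n * n ∧ evQ t v Q = 0 := by
  obtain ⟨Q₁, a1, a2, a3⟩ := h1
  obtain ⟨Q₂, b1, b2, b3⟩ := h2
  obtain ⟨Q₃, c1, c2, c3⟩ := h3
  -- `w` is algebraic over `κ(t)`
  have hwt : IsAlgebraic (IntermediateField.adjoin κ (Set.range t)) w := by
    set K := IntermediateField.adjoin κ (Set.range t) with hK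
    set f : MvPolynomial σ κ →+* K := (MvPolynomial.aeval
      (fun i => (⟨t i, IntermediateField.subset_adjoin κ _ ⟨i, rfl⟩⟩ : K))).toRingHom with hf
    have hfval : (algebraMap K L).comp f = (MvPolynomial.aeval t : MvPolynomial σ κ →ₐ[κ] L).toRingHom := by
      apply RingHom.ext
      intro s
      exact (MvPolynomial.comp_aeval_apply
        (f := fun i => (⟨t i, IntermediateField.subset_adjoin κ _ ⟨i, rfl⟩⟩ : K)) K.val s)
    have hfinj : Function.Injective f := by
      intro p q hpq
      apply ht
      have h4 := fun s => RingHom.congr_fun hfval s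
      have h5 := congrArg (algebraMap K L) hpq
      have h6 := (h4 p).symm.trans (h5.trans (h4 q))
      exact h6
    refine ⟨Q₃.map f, ?_, ?_⟩
    · rwa [Ne, Polynomial.map_eq_zero_iff hfinj]
    · rw [aeval_def, eval₂_map, hfval]
      exact c3
  obtain ⟨i, hi⟩ := exists_index ht hw hwt
  set k := fieldExcept κ t i with hk
  have hT : Transcendental k (t i) := transcendental_fieldAdjoin ht (s := {j | j ≠ i}) (by simp)
  have d1 : DegLe k D v (t i) := degLe_of_TdegLE ht i a1 a2 a3
  have d2 : DegLe k D (v + w) (t i) := degLe_of_TdegLE ht i b1 b2 b3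
  have d3 : DegLe k n (t i) w := degLe_of_natDegree ht i c1 c2 c3
  apply exists_of_degLe ht i hT
  by_cases hv : Transcendental k v
  · by_cases hvw : Transcendental k (v + w)
    · refine (degree_bound hT hv hvw hi d1 d2 d3).mono ?_
      omega
    · have e1 : DegLe k (D * n) v (v + w) := by
        have := (d1.trans hv hT d3).add_self
        rwa [add_comm w v] at this
      have hvw' : IsAlgebraic k (v + w) := by rwa [Transcendental, not_not] at hvw
      have e2 := degLe_of_algebraic hv hvw' e1 (t i)
      have e3 := degLe_sub' hT e2 d3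
      rw [show v + w - w = v by ring] at e3
      exact e3.mono (by omega)
  · have hv' : IsAlgebraic k v := by rwa [Transcendental, not_not] at hv
    have hvw : Transcendental k (v + w) := by
      intro h
      apply hi
      have := h.sub hv'
      rwa [show v + w - v = w by ring] at this
    have e1 : DegLe k (D * n) (v + w) v := by
      have := (d2.trans hvw hT d3).neg.add_self
      rwa [show -w + (v + w) = v by ring] at this
    exact (degLe_of_algebraic hvw hv' e1 (t i)).mono (by omega)

end

end Pool.Agent.H297R2
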