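import Mathlib
import Pool.Agent.H297R2.MvChoose
import Pool.Agent.H297R2.ExpIndep

namespace Pool.Agent.H297R2

open Polynomial Finset

/-- algebraicity over `κ(t)` -/
theorem isAlgebraic_of_evQ {κ L σ : Type*} [Field κ] [Field L] [Algebra κ L] {t : σ → L}
    (ht : AlgebraicIndependent κ t) {v : L} {Q : Polynomial (MvPolynomial σ κ)} (hQ0 : Q ≠ 0)
    (hQ : evQ t v Q = 0) : IsAlgebraic (IntermediateField.adjoin κ (Set.range t)) v := by
  set K := IntermediateField.adjoin κ (Set.range t) with hK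
  set f : MvPolynomial σ κ →+* K := (MvPolynomial.aeval
    (fun i => (⟨t i, IntermediateField.subset_adjoin κ _ ⟨i, rfl⟩⟩ : K))).toRingHom with hf
  have hfval : (algebraMap K L).comp f = (MvPolynomial.aeval t : MvPolynomial σ κ →ₐ[κ] L).toRingHom := by
    apply RingHom.ext
    intro s
    exact (MvPolynomial.comp_aeval_apply
      (f := fun i => (⟨t i, IntermediateField.subset_adjoin κ _ ⟨i, rfl⟩⟩ : K)) K.val s)
  have hfinj : Function.Injective f := by
    intro p q hpq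
    apply ht
    have h4 := fun s => RingHom.congr_fun hfval s
    have h5 := congrArg (algebraMap K L) hpq
    have h6 := (h4 p).symm.trans (h5.trans (h4 q))
    exact h6
  refine ⟨Q.map f, ?_, ?_⟩
  · rwa [Ne, Polynomial.map_eq_zero_iff hfinj]
  · rw [aeval_def, eval₂_map, hfval]
    exact hQ

/-- **Theorem J for several numbers**: if `t_1, ..., t_s` are algebraically independent over the
algebraic numbers, the set of integers `n` such that they satisfy a relation of total degree `≤ D`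
over the field generated by `log n` has density zero. -/
theorem thmJs (σ : Type) [Fintype σ] (D : ℕ) (t : σ → ℂ)
    (ht : AlgebraicIndependent (algebraicClosure ℚ ℂ) t) (ε : ℝ) (hε : 0 < ε) :
    ∃ x₀ : ℕ, ∀ x ≥ x₀, ∀ A : Finset ℕ, A ⊆ Ioc 0 x →
    (∀ n ∈ A, ∃ Q : Polynomial (MvPolynomial σ (algebraicClosure ℚ ℂ)), Q ≠ 0 ∧ TdegLE D Q ∧
      evQ t (Real.log n : ℂ) Q = 0) → (A.card : ℝ) ≤ ε * x := by
  classical
  obtain ⟨P, δ', x₁, hδ', hP, hone⟩ := one_step ε hε 0
  set κ := algebraicClosure ℚ ℂ with hκ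
  -- the degrees of the finitely many differences
  have hw : ∃ n : ℕ, ∀ p ∈ P, ∀ q ∈ P,
      (∃ Q : Polynomial (MvPolynomial σ κ), Q ≠ 0 ∧
        evQ t ((Real.log q : ℂ) - (Real.log p : ℂ)) Q = 0) →
      ∃ Q : Polynomial (MvPolynomial σ κ), Q ≠ 0 ∧ Q.natDegree ≤ n ∧
        evQ t ((Real.log q : ℂ) - (Real.log p : ℂ)) Q = 0 := by
    have hch : ∀ pq : ℕ × ℕ, ∃ n : ℕ,
        (∃ Q : Polynomial (MvPolynomial σ κ), Q ≠ 0 ∧
          evQ t ((Real.log pq.2 : ℂ) - (Real.log pq.1 : ℂ)) Q = 0) →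
        ∃ Q : Polynomial (MvPolynomial σ κ), Q ≠ 0 ∧ Q.natDegree ≤ n ∧
          evQ t ((Real.log pq.2 : ℂ) - (Real.log pq.1 : ℂ)) Q = 0 := by
      intro pq
      by_cases h : ∃ Q : Polynomial (MvPolynomial σ κ), Q ≠ 0 ∧
          evQ t ((Real.log pq.2 : ℂ) - (Real.log pq.1 : ℂ)) Q = 0
      · obtain ⟨Q, h1, h2⟩ := h
        exact ⟨Q.natDegree, fun _ => ⟨Q, h1, le_rfl, h2⟩⟩
      · exact ⟨0, fun h' => absurd h' h⟩
    choose f hf using hch
    refine ⟨∑ pq ∈ P ×ˢ P, f pq, fun p hp q hq h => ?_⟩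
    obtain ⟨Q, h1, h2, h3⟩ := hf (p, q) h
    refine ⟨Q, h1, h2.trans ?_, h3⟩
    exact Finset.single_le_sum (f := f) (fun _ _ => Nat.zero_le _) (Finset.mem_product.2 ⟨hp, hq⟩)
  obtain ⟨n, hn⟩ := hw
  set B := n * (D * n + D * n) + D * n + D * n * n with hB
  obtain ⟨x₂, hx₂⟩ := density_one σ (D + B) (δ' / 2) (by positivity)
  have htN : NoRel κ (D + B) t := by
    intro Q _ hQ
    exact (algebraicIndependent_iff.1 ht) Q hQ
  refine ⟨max (max x₁ x₂) 1, fun x hx A hA hbad => ?_⟩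
  by_contra hcon
  push Not at hcon
  have hx1 : x₁ ≤ x := by omega
  have hx2 : x₂ ≤ x := by omega
  have hx0 : (0 : ℝ) < x := by exact_mod_cast (by omega : 0 < x)
  obtain ⟨p, hp, q, hq, hpq, hcard⟩ := hone x hx1 A hA hcon.le
  set B' := (Ioc 0 x).filter (fun m => p * m ∈ A ∧ q * m ∈ A) with hB'
  have hpp := (hP p hp).1
  have hqp := (hP q hq).1
  have hB2 : ∀ m ∈ B', ¬ NoRel κ (D + B)
      (fun o : Option σ => o.elim (Real.log (p * m : ℕ) : ℂ) t) := by
    intro m hm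
    rw [hB', Finset.mem_filter, Finset.mem_Ioc] at hm
    obtain ⟨⟨hm0, _⟩, hpm, hqm⟩ := hm
    set v : ℂ := (Real.log (p * m : ℕ) : ℂ) with hv
    set w : ℂ := (Real.log q : ℂ) - (Real.log p : ℂ) with hw
    have hp0 : (p : ℝ) ≠ 0 := by exact_mod_cast hpp.pos.ne'
    have hq0 : (q : ℝ) ≠ 0 := by exact_mod_cast hqp.pos.ne'
    have hm0' : (m : ℝ) ≠ 0 := by exact_mod_cast hm0.ne'
    have hvw : v + w = (Real.log (q * m : ℕ) : ℂ) := by
      rw [hv, hw]
      push_cast
      rw [Real.log_mul hp0 hm0', Real.log_mul hq0 hm0']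
      push_cast
      ring
    have h1 := hbad _ hpm
    have h2 := hbad _ hqm
    rw [← hvw] at h2
    have tw : Transcendental κ w := log_sub_transcendental hpp hqp hpq
    have h3 : ∃ Q : Polynomial (MvPolynomial σ κ), Q ≠ 0 ∧ Q.natDegree ≤ n ∧ evQ t w Q = 0 := by
      apply hn p hp q hq
      obtain ⟨Q₁, a1, _, a3⟩ := h1
      obtain ⟨Q₂, b1, _, b3⟩ := h2
      have c1 := isAlgebraic_of_evQ ht a1 a3
      have c2 := isAlgebraic_of_evQ ht b1 b3
      have c3 := c2.sub c1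
      rw [show v + w - v = w by ring] at c3
      obtain ⟨Q, d1, _, d3⟩ := exists_of_minpoly t c3 le_rfl
      exact ⟨Q, d1, d3⟩
    have h4 := degree_bound_all ht tw h1 h2 h3
    obtain ⟨Q, e1, e2, e3, e4⟩ := simul' ht h1 h4
    exact not_noRel' Q e1 e2 e3 e4
  have h7 := hx₂ x hx2 t htN (B'.image (fun m => p * m)) (by
    intro y hy
    rw [Finset.mem_image] at hy
    obtain ⟨m, hm, rfl⟩ := hy
    rw [hB', Finset.mem_filter] at hm
    exact hA hm.2.1) (by
    intro y hy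
    rw [Finset.mem_image] at hy
    obtain ⟨m, hm, rfl⟩ := hy
    exact hB2 m hm)
  rw [Finset.card_image_of_injective _ (fun a b h => Nat.eq_of_mul_eq_mul_left hpp.pos h)] at h7
  have : δ' * x ≤ δ' / 2 * x := hcard.trans h7
  have h8 : 0 < δ' * x := by positivity
  linarith

/-- Lindemann–Weierstrass in the language of Mathlib. -/
theorem exp_algebraicIndependent {σ : Type} [Fintype σ] (α : σ → ℂ)
    (halg : ∀ i, IsAlgebraic ℚ (α i)) (hα : LinearIndependent ℚ α) :
    AlgebraicIndependent (algebraicClosure ℚ ℂ) (fun i => Complex.exp (α i)) := by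
  rw [algebraicIndependent_iff]
  intro P hP
  exact exp_noRel P.totalDegree α halg hα P le_rfl hP

end Pool.Agent.H297R2
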